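import Mathlib

set_option autoImplicit false

/-!
Definitions for the statements: Steiner systems, proper colourings of the associated
`C`-hypergraph, upper chromatic number, admissible exponents.
-/

namespace Pool.Agent.Work.MP_b59edb_co

/-- `B` is a Steiner system `S(t,k,v)` on the point set `Fin v`: every block has exactly `k` points
and every `t`-element set of points is contained in exactly one block. -/
def IsSteinerSystem (t k v : ℕ) (B : Finset (Finset (Fin v))) : Prop :=
  (∀ b ∈ B, b.card = k) ∧ ∀ T : Finset (Fin v), T.card = t → ∃! b, b ∈ B ∧ T ⊆ b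

/-- The colouring `φ` of the points is proper for the `C`-hypergraph with edge set `B`:
every block contains two distinct points of the same colour. -/
def ProperColouring {v : ℕ} (B : Finset (Finset (Fin v))) (φ : Fin v → ℕ) : Prop :=
  ∀ b ∈ B, ∃ x ∈ b, ∃ y ∈ b, x ≠ y ∧ φ x = φ y

/-- The upper chromatic number: the largest number of colours used by a proper colouring. -/
noncomputable def upperChromaticNumber {v : ℕ} (B : Finset (Finset (Fin v))) : ℕ :=
  sSup {c : ℕ | ∃ φ : Fin v → ℕ, ProperColouring B φ ∧ (Finset.univ.image φ).card = c}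

/-- The exponent `c ≥ 0` is admissible for `(k,t)`: there is a constant `C > 0` with
`χ̄(S) ≥ C v ^ c` for every Steiner system `S(t,k,v)`, over all `v ≥ k` for which one exists. -/
def AdmissibleExponent (k t : ℕ) (c : ℝ) : Prop :=
  0 ≤ c ∧ ∃ C : ℝ, 0 < C ∧ ∀ v : ℕ, k ≤ v → ∀ B : Finset (Finset (Fin v)),
    IsSteinerSystem t k v B → C * (v : ℝ) ^ c ≤ (upperChromaticNumber B : ℝ)

end Pool.Agent.Work.MP_b59edb_co
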