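import Pool.Agent.Work.MP_b59edb_co.Steiner
import Pool.Agent.Work.MP_b59edb_co.Defs

set_option autoImplicit false

/-!
The lower bound: every `S(t,k,v)` with `k ≥ t + 2` has a colouring with at least
`v ^ ((k - t - 1) / (k - 2)) / (8 k)` colours.
-/

namespace Pool.Agent.Work.MP_b59edb_co

open Finset

/-- number of functions constant equal to `i` on `A`. -/
lemma card_const_on {X : Type*} [Fintype X] [DecidableEq X] (N : ℕ) (A : Finset X) (i : Fin N) :
    (univ.filter (fun f : X → Fin N => ∀ x ∈ A, f x = i)).card = N ^ (Fintype.card X - A.card) := by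
  have h1 : univ.filter (fun f : X → Fin N => ∀ x ∈ A, f x = i) =
      Fintype.piFinset (fun x => if x ∈ A then {i} else univ) := by
    ext f
    simp only [mem_filter, mem_univ, true_and, Fintype.mem_piFinset]
    constructor
    · intro h x
      by_cases hx : x ∈ A
      · rw [if_pos hx]; simp [h x hx]
      · rw [if_neg hx]; simp
    · intro h x hx
      have := h x
      rw [if_pos hx] at this
      simpa using this
  rw [h1, Fintype.card_piFinset]
  have h2 : ∀ x, (if x ∈ A then ({i} : Finset (Fin N)) else univ).card = if x ∈ A then 1 else N := by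
    intro x
    split_ifs <;> simp
  simp only [h2]
  rw [prod_ite, prod_const_one, one_mul, prod_const]
  congr 1
  rw [filter_not, card_sdiff_of_subset (filter_subset _ _), card_univ]
  congr 1
  simp

/-- Large set meeting every block in at most `k - 2` points. -/
lemma exists_sparse_set {X : Type*} [Fintype X] [DecidableEq X] {t k : ℕ} {B : Finset (Finset X)}
    (hB : Steiner t k B) (htk : t + 2 ≤ k) (hv : k ≤ Fintype.card X) (N : ℕ) (hN1 : 1 ≤ N)
    (hN : 2 * k * (Fintype.card X) ^ t ≤ N ^ (k - 2) * Fintype.card X) :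
    ∃ T : Finset X, Fintype.card X ≤ 2 * N * T.card ∧ ∀ b ∈ B, (b ∩ T).card ≤ k - 2 := by
  classical
  obtain ⟨v, hvd⟩ : ∃ v, v = Fintype.card X := ⟨_, rfl⟩
  have hBcard : B.card ≤ v ^ t := by
    have := card_blocks_containing_le hB (by omega) ∅ (by simp)
    simpa [hvd] using this
  let P : Finset (Finset X) := B.biUnion (fun b => b.powersetCard (k - 1))
  have hPmem : ∀ A ∈ P, A.card = k - 1 := by
    intro A hA
    obtain ⟨b, _, hb⟩ := mem_biUnion.mp hA
    exact (mem_powersetCard.mp hb).2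
  have hPcard : P.card ≤ k * v ^ t := by
    have h1 : P.card ≤ B.card * k := by
      apply card_biUnion_le_card_mul
      intro b hb
      rw [card_powersetCard, hB.1 b hb]
      obtain ⟨m, rfl⟩ : ∃ m, k = m + 1 := ⟨k - 1, by omega⟩
      rw [Nat.add_sub_cancel, Nat.choose_succ_self_right]
    calc P.card ≤ B.card * k := h1
      _ ≤ v ^ t * k := Nat.mul_le_mul_right _ hBcard
      _ = k * v ^ t := Nat.mul_comm _ _
  let mono : (X → Fin N) → Fin N → ℕ := fun f i => (P.filter (fun A => ∀ x ∈ A, f x = i)).card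
  -- total count
  have htot : ∑ f : X → Fin N, ∑ i, mono f i = P.card * N ^ (v - (k - 2)) := by
    have h1 : ∀ f : X → Fin N, ∀ i, mono f i = ∑ A ∈ P, if (∀ x ∈ A, f x = i) then 1 else 0 := by
      intro f i; simp only [mono, card_filter]
    simp only [h1]
    rw [sum_comm]
    have h2 : ∀ i : Fin N, ∑ f : X → Fin N, ∑ A ∈ P, (if (∀ x ∈ A, f x = i) then 1 else 0) =
        P.card * N ^ (v - (k - 1)) := by
      intro i
      rw [sum_comm]
      have : ∀ A ∈ P, ∑ f : X → Fin N, (if (∀ x ∈ A, f x = i) then 1 else 0) = N ^ (v - (k - 1)) := by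
        intro A hA
        rw [← card_filter, card_const_on, hPmem A hA, hvd]
      rw [sum_congr rfl this, sum_const, smul_eq_mul]
    simp only [h2]
    rw [sum_const, card_univ, Fintype.card_fin, smul_eq_mul]
    have h3 : v - (k - 2) = (v - (k - 1)) + 1 := by omega
    rw [h3, pow_succ]; ring
  -- a good f
  have hf : ∃ f : X → Fin N, 2 * ∑ i, mono f i ≤ v := by
    by_contra hcon
    push Not at hcon
    have h1 : ∑ _f : X → Fin N, v < ∑ f : X → Fin N, 2 * ∑ i, mono f i := by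
      have : Nonempty (Fin N) := ⟨⟨0, hN1⟩⟩
      exact sum_lt_sum_of_nonempty univ_nonempty (fun f _ => hcon f)
    rw [← mul_sum, htot, sum_const, card_univ, Fintype.card_fun, Fintype.card_fin, smul_eq_mul,
      ← hvd] at h1
    have h2 : N ^ v = N ^ (v - (k - 2)) * N ^ (k - 2) := by
      rw [← pow_add]; congr 1; omega
    have h3 : 2 * (P.card * N ^ (v - (k - 2))) ≤ N ^ v * v := by
      calc 2 * (P.card * N ^ (v - (k - 2))) = N ^ (v - (k - 2)) * (2 * P.card) := by ring
        _ ≤ N ^ (v - (k - 2)) * (2 * (k * v ^ t)) :=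
            Nat.mul_le_mul_left _ (Nat.mul_le_mul_left _ hPcard)
        _ = N ^ (v - (k - 2)) * (2 * k * v ^ t) := by ring
        _ ≤ N ^ (v - (k - 2)) * (N ^ (k - 2) * v) := by
            apply Nat.mul_le_mul_left; rw [hvd]; exact hN
        _ = N ^ v * v := by rw [h2]; ring
    omega
  obtain ⟨f, hf⟩ := hf
  let T : Fin N → Finset X := fun i => univ.filter (fun x => f x = i)
  have hTsum : ∑ i, (T i).card = v := by
    rw [hvd, ← card_univ]
    exact (card_eq_sum_card_fiberwise (fun x _ => mem_univ (f x))).symm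
  have hi : ∃ i, 2 * N * mono f i + v ≤ 2 * N * (T i).card := by
    by_contra hcon
    push Not at hcon
    have h1 : ∑ i, 2 * N * (T i).card < ∑ i, (2 * N * mono f i + v) := by
      have : Nonempty (Fin N) := ⟨⟨0, hN1⟩⟩
      exact sum_lt_sum_of_nonempty univ_nonempty (fun i _ => hcon i)
    rw [← mul_sum, hTsum, sum_add_distrib, ← mul_sum, sum_const, card_univ, Fintype.card_fin,
      smul_eq_mul] at h1
    have h2 : 2 * N * ∑ i, mono f i = N * (2 * ∑ i, mono f i) := by ring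
    have h3 : N * (2 * ∑ i, mono f i) ≤ N * v := Nat.mul_le_mul_left _ hf
    rw [h2] at h1
    nlinarith
  obtain ⟨i, hi⟩ := hi
  have hrep : ∀ A ∈ P.filter (fun A => ∀ x ∈ A, f x = i), ∃ x, x ∈ A := by
    intro A hA
    have h1 := hPmem A (mem_filter.mp hA).1
    exact card_pos.mp (by omega)
  have hXne : Nonempty X := Fintype.card_pos_iff.mp (by omega)
  choose! r hr using hrep
  refine ⟨T i \ (P.filter (fun A => ∀ x ∈ A, f x = i)).image r, ?_, ?_⟩
  · have h1 := le_card_sdiff ((P.filter (fun A => ∀ x ∈ A, f x = i)).image r) (T i)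
    have h2 : ((P.filter (fun A => ∀ x ∈ A, f x = i)).image r).card ≤ mono f i := card_image_le
    have h3 : (T i).card ≤ (T i \ (P.filter (fun A => ∀ x ∈ A, f x = i)).image r).card + mono f i := by
      omega
    have h4 := Nat.mul_le_mul_left (2 * N) h3
    rw [← hvd]
    nlinarith
  · intro b hb
    by_contra hcon
    push Not at hcon
    obtain ⟨A, hA1, hA2⟩ := exists_subset_card_eq (by omega : k - 1 ≤ (b ∩ (T i \ (P.filter (fun A => ∀ x ∈ A, f x = i)).image r)).card)
    have hAP : A ∈ P := mem_biUnion.mpr ⟨b, hb, mem_powersetCard.mpr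
      ⟨hA1.trans inter_subset_left, hA2⟩⟩
    have hAf : A ∈ P.filter (fun A => ∀ x ∈ A, f x = i) := by
      rw [mem_filter]
      refine ⟨hAP, fun x hx => ?_⟩
      have := (mem_sdiff.mp (mem_inter.mp (hA1 hx)).2).1
      exact (mem_filter.mp this).2
    have h5 := (mem_sdiff.mp (mem_inter.mp (hA1 (hr A hAf))).2).2
    exact h5 (mem_image.mpr ⟨A, hAf, rfl⟩)

/-- sSup bound -/
lemma le_upperChromatic {v : ℕ} (B : Finset (Finset (Fin v))) (φ : Fin v → ℕ)
    (hφ : ProperColouring B φ) : (univ.image φ).card ≤ upperChromaticNumber B := by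
  apply le_csSup
  · refine ⟨v, ?_⟩
    rintro c ⟨ψ, _, rfl⟩
    refine card_image_le.trans ?_
    simp
  · exact ⟨φ, hφ, rfl⟩

lemma upperChromatic_le {v : ℕ} (B : Finset (Finset (Fin v))) (hk : ∀ b ∈ B, 2 ≤ b.card) (M : ℕ)
    (h : ∀ φ : Fin v → ℕ, ProperColouring B φ → (univ.image φ).card ≤ M) :
    upperChromaticNumber B ≤ M := by
  apply csSup_le
  · refine ⟨(univ.image (fun _ : Fin v => 0)).card, fun _ => 0, ?_, rfl⟩
    intro b hb
    obtain ⟨x, hx, y, hy, hxy⟩ := one_lt_card.mp (hk b hb)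
    exact ⟨x, hx, y, hy, hxy, rfl⟩
  · rintro c ⟨φ, hφ, rfl⟩
    exact h φ hφ

/-- a sparse set gives a colouring -/
lemma card_le_upperChromatic {v k : ℕ} (hk : 2 ≤ k) (B : Finset (Finset (Fin v)))
    (hB : ∀ b ∈ B, b.card = k) (T : Finset (Fin v)) (hT : ∀ b ∈ B, (b ∩ T).card ≤ k - 2) :
    T.card ≤ upperChromaticNumber B := by
  classical
  let φ : Fin v → ℕ := fun x => if x ∈ T then x.val + 1 else 0
  have hφ : ProperColouring B φ := by
    intro b hb
    have h1 : 2 ≤ (b \ T).card := by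
      have h2 := card_sdiff_add_card_inter b T
      have h3 := hT b hb
      have h4 := hB b hb
      omega
    obtain ⟨x, hx, y, hy, hxy⟩ := one_lt_card.mp h1
    refine ⟨x, (mem_sdiff.mp hx).1, y, (mem_sdiff.mp hy).1, hxy, ?_⟩
    simp only [φ]
    rw [if_neg (mem_sdiff.mp hx).2, if_neg (mem_sdiff.mp hy).2]
  refine le_trans ?_ (le_upperChromatic B φ hφ)
  refine card_le_card_of_injOn φ (fun x _ => mem_coe.mpr (mem_image_of_mem _ (mem_univ _))) ?_
  intro x hx y hy hxy
  have hx' : x ∈ T := hx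
  have hy' : y ∈ T := hy
  simp only [φ] at hxy
  rw [if_pos hx', if_pos hy'] at hxy
  exact Fin.ext (by omega)

/-- The general lower bound. -/
theorem admissible_lower (k t : ℕ) (ht : 1 ≤ t) (hk : t + 2 ≤ k) :
    AdmissibleExponent k t (((k : ℝ) - t - 1) / (k - 2)) := by
  have hkR : (t : ℝ) + 2 ≤ k := by exact_mod_cast hk
  have htR : (1 : ℝ) ≤ t := by exact_mod_cast ht
  have hk2 : (0 : ℝ) < (k : ℝ) - 2 := by linarith
  refine ⟨by apply div_nonneg <;> linarith, 1 / (8 * k), by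
    have : (0 : ℝ) < k := by linarith
    positivity, ?_⟩
  intro v hkv B hB
  have hv3 : 3 ≤ v := by omega
  have hvR : (1 : ℝ) ≤ v := by
    have : 1 ≤ v := by omega
    exact_mod_cast this
  have hk0 : (0 : ℝ) < k := by linarith
  obtain ⟨θ, hθ⟩ : ∃ θ : ℝ, θ = (2 * k * (v : ℝ) ^ (t - 1)) ^ ((1 : ℝ) / (k - 2)) := ⟨_, rfl⟩
  have hbase : (1 : ℝ) ≤ 2 * k * (v : ℝ) ^ (t - 1) := by
    have h1 : (1 : ℝ) ≤ (v : ℝ) ^ (t - 1) := one_le_pow₀ hvR
    nlinarith
  have hθ1 : 1 ≤ θ := by
    rw [hθ]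
    exact Real.one_le_rpow hbase (by positivity)
  have hcard : Fintype.card (Fin v) = v := Fintype.card_fin v
  have hθpow : θ ^ (k - 2) = 2 * k * (v : ℝ) ^ (t - 1) := by
    rw [hθ, ← Real.rpow_natCast, ← Real.rpow_mul (by linarith), Nat.cast_sub (by omega)]
    push_cast
    rw [one_div, inv_mul_cancel₀ hk2.ne', Real.rpow_one]
  obtain ⟨T, hT1, hT2⟩ := exists_sparse_set (X := Fin v) hB hk (by rw [hcard]; exact hkv) ⌈θ⌉₊
    (by
      have : 0 < ⌈θ⌉₊ := Nat.ceil_pos.mpr (by linarith)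
      omega)
    (by
      rw [hcard]
      have h1 : θ ≤ (⌈θ⌉₊ : ℝ) := Nat.le_ceil θ
      have h2 : θ ^ (k - 2) ≤ (⌈θ⌉₊ : ℝ) ^ (k - 2) := pow_le_pow_left₀ (by linarith) h1 _
      rw [hθpow] at h2
      have h3 : (2 * k * (v : ℝ) ^ (t - 1)) * v ≤ (⌈θ⌉₊ : ℝ) ^ (k - 2) * v :=
        mul_le_mul_of_nonneg_right h2 (by linarith)
      have h4 : (2 * k * (v : ℝ) ^ (t - 1)) * v = 2 * k * (v : ℝ) ^ t := by
        have : (v : ℝ) ^ t = (v : ℝ) ^ (t - 1) * v := by
          rw [← pow_succ]; congr 1; omega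
        rw [this]; ring
      rw [h4] at h3
      exact_mod_cast h3)
  rw [hcard] at hT1
  have hchi := card_le_upperChromatic (by omega : 2 ≤ k) B hB.1 T hT2
  -- estimate
  have hceil : (⌈θ⌉₊ : ℝ) ≤ 2 * θ := by
    have := (Nat.ceil_lt_add_one (by linarith : 0 ≤ θ)).le
    linarith
  have hT1' : (v : ℝ) ≤ 2 * ⌈θ⌉₊ * T.card := by exact_mod_cast hT1
  have hθle : θ ≤ 2 * k * (v : ℝ) ^ (((t : ℝ) - 1) / (k - 2)) := by
    rw [hθ, Real.mul_rpow (by positivity) (by positivity)]
    have e1 : (2 * (k : ℝ)) ^ ((1 : ℝ) / (k - 2)) ≤ 2 * k := by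
      have h1 : (2 * (k : ℝ)) ^ ((1 : ℝ) / (k - 2)) ≤ (2 * (k : ℝ)) ^ (1 : ℝ) := by
        apply Real.rpow_le_rpow_of_exponent_le (by linarith)
        rw [div_le_one hk2]; linarith
      rwa [Real.rpow_one] at h1
    have e2 : ((v : ℝ) ^ (t - 1)) ^ ((1 : ℝ) / (k - 2)) = (v : ℝ) ^ (((t : ℝ) - 1) / (k - 2)) := by
      rw [← Real.rpow_natCast, ← Real.rpow_mul (by linarith), Nat.cast_sub ht]
      congr 1
      push_cast
      ring
    rw [e2]
    exact mul_le_mul_of_nonneg_right e1 (by positivity)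
  have hexp : (v : ℝ) ^ (((k : ℝ) - t - 1) / (k - 2)) * (v : ℝ) ^ (((t : ℝ) - 1) / (k - 2)) = v := by
    rw [← Real.rpow_add (by linarith), ← add_div]
    have : ((k : ℝ) - t - 1 + (t - 1)) / (k - 2) = 1 := by
      rw [div_eq_one_iff_eq hk2.ne']; ring
    rw [this, Real.rpow_one]
  have hTc : (0 : ℝ) ≤ T.card := by positivity
  have hfinal : (v : ℝ) ^ (((k : ℝ) - t - 1) / (k - 2)) ≤ 8 * k * T.card := by
    have hp : (0 : ℝ) < (v : ℝ) ^ (((t : ℝ) - 1) / (k - 2)) := by positivity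
    rw [← mul_le_mul_iff_left₀ hp, hexp]
    calc (v : ℝ) ≤ 2 * ⌈θ⌉₊ * T.card := hT1'
      _ ≤ 2 * (2 * θ) * T.card := by
          apply mul_le_mul_of_nonneg_right _ hTc
          linarith
      _ ≤ 2 * (2 * (2 * k * (v : ℝ) ^ (((t : ℝ) - 1) / (k - 2)))) * T.card := by
          apply mul_le_mul_of_nonneg_right _ hTc
          linarith
      _ = 8 * k * T.card * (v : ℝ) ^ (((t : ℝ) - 1) / (k - 2)) := by ring
  have hchi' : (T.card : ℝ) ≤ upperChromaticNumber B := by exact_mod_cast hchi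
  calc 1 / (8 * (k : ℝ)) * (v : ℝ) ^ (((k : ℝ) - t - 1) / (k - 2))
      ≤ 1 / (8 * (k : ℝ)) * (8 * k * T.card) :=
        mul_le_mul_of_nonneg_left hfinal (by positivity)
    _ = T.card := by field_simp
    _ ≤ _ := hchi'

end Pool.Agent.Work.MP_b59edb_co
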