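import Pool.Agent.Work.MP_b59edb_co.Upper
import Pool.Agent.Work.MP_b59edb_co.Lower

set_option autoImplicit false

/-!
Asymptotics: no exponent larger than `(k-3)/(k-2)` is admissible for `t = 2`.
-/

namespace Pool.Agent.Work.MP_b59edb_co

open Finset Filter

lemma ev_log (K r A : ℝ) (hK : 0 < K) (hr : 0 < r) (hA : 0 < A) :
    ∀ᶠ x : ℝ in atTop, K * Real.log (A * x ^ 2) ≤ x ^ r := by
  have h1 := (isLittleO_log_rpow_atTop hr).bound (show (0 : ℝ) < 1 / (3 * K) by positivity)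
  filter_upwards [h1, eventually_ge_atTop (max A 1)] with x hx hx2
  have hx1 : (1 : ℝ) ≤ x := (le_max_right _ _).trans hx2
  have hxA : A ≤ x := (le_max_left _ _).trans hx2
  have hx0 : 0 < x := by linarith
  have hlog0 : 0 ≤ Real.log x := Real.log_nonneg hx1
  rw [Real.norm_of_nonneg hlog0, Real.norm_of_nonneg (by positivity)] at hx
  have h2 : Real.log (A * x ^ 2) ≤ 3 * Real.log x := by
    rw [Real.log_mul hA.ne' (by positivity), Real.log_pow]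
    have := Real.log_le_log hA hxA
    push_cast
    linarith
  calc K * Real.log (A * x ^ 2) ≤ K * (3 * Real.log x) := mul_le_mul_of_nonneg_left h2 hK.le
    _ ≤ K * (3 * (1 / (3 * K) * x ^ r)) := by
        apply mul_le_mul_of_nonneg_left _ hK.le
        linarith
    _ = x ^ r := by field_simp

lemma ev_pow (K r : ℝ) (hr : 0 < r) : ∀ᶠ x : ℝ in atTop, K ≤ x ^ r :=
  (tendsto_rpow_atTop hr).eventually_ge_atTop K

/-- Main upper bound. -/
theorem admissible_upper (n : ℕ) (hn : 2 ≤ n) (c : ℝ) (hc : AdmissibleExponent (n + 2) 2 c) :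
    c ≤ ((n : ℝ) - 1) / n := by
  obtain ⟨_, C, hC, hall⟩ := hc
  by_contra hcon
  push Not at hcon
  have hn0 : (0 : ℝ) < n := by
    have : 0 < n := by omega
    exact_mod_cast this
  have hn2 : (2 : ℝ) ≤ n := by exact_mod_cast hn
  obtain ⟨γ, hγ⟩ : ∃ γ : ℝ, γ = ((n : ℝ) - 1) / n := ⟨_, rfl⟩
  rw [← hγ] at hcon
  have hγn : n * γ = n - 1 := by rw [hγ]; field_simp
  have hγhalf : 1 ≤ 2 * γ := by
    rw [hγ, ← mul_div_assoc, one_le_div hn0]; linarith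
  obtain ⟨ε, hε⟩ : ∃ ε : ℝ, ε = c - γ := ⟨_, rfl⟩
  have hε0 : 0 < ε := by linarith
  obtain ⟨δ, hδ⟩ : ∃ δ : ℝ, δ = min ε (1 / (2 * n)) := ⟨_, rfl⟩
  have hδ0 : 0 < δ := by rw [hδ]; exact lt_min hε0 (by positivity)
  have hδε : δ ≤ ε := by rw [hδ]; exact min_le_left _ _
  have hδn : n * δ ≤ 1 / 2 := by
    have h1 : δ ≤ 1 / (2 * n) := by rw [hδ]; exact min_le_right _ _
    calc n * δ ≤ n * (1 / (2 * n)) := mul_le_mul_of_nonneg_left h1 hn0.le
      _ = 1 / 2 := by field_simp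
  obtain ⟨K0, hK0⟩ : ∃ K0 : ℝ, K0 = 32 * 4 ^ (n + 2) * (2 * (n + 2 : ℝ)) ^ 2 := ⟨_, rfl⟩
  obtain ⟨K1, hK1⟩ : ∃ K1 : ℝ, K1 = 32 * 4 ^ n * (2 * (n + 2 : ℝ)) ^ 2 * (n + 1) := ⟨_, rfl⟩
  have hK0pos : 0 < K0 := by rw [hK0]; positivity
  have hK1pos : 0 < K1 := by rw [hK1]; positivity
  have hK04 : 4 ≤ K0 := by
    rw [hK0]
    have h1 : (1 : ℝ) ≤ 4 ^ (n + 2) := one_le_pow₀ (by norm_num)
    have h2 : (1 : ℝ) ≤ (2 * (n + 2 : ℝ)) ^ 2 := one_le_pow₀ (by linarith)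
    nlinarith [mul_le_mul h1 h2 (by norm_num) (by positivity)]
  -- eventual facts
  have hev := (((((((ev_log K1 (n * δ) (4 * (n + 3)) hK1pos (by positivity) (by positivity)).and
    (ev_log K0 2 (4 * (n + 3)) hK0pos (by norm_num) (by positivity))).and
    (ev_log (8 * (n + 1) * K0 / C) ε (4 * (n + 3)) (by positivity) hε0 (by positivity))).and
    (ev_pow (16 * (n + 1)) δ hδ0)).and
    (ev_pow (2 * 4 ^ (n + 2)) (1 / 2) (by norm_num))).and
    (eventually_ge_atTop (16 : ℝ))).and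
    (eventually_ge_atTop (4 * (n + 2 : ℝ))))
  obtain ⟨N, hN⟩ := eventually_atTop.mp hev
  obtain ⟨q, hqp, hqN, B, hB⟩ := exists_steiner_prime (n + 2) (by omega) ⌈N⌉₊
  have : Fact q.Prime := ⟨hqp⟩
  have hqN' : N ≤ (q : ℝ) := by
    have h1 := Nat.le_ceil N
    have h2 : (⌈N⌉₊ : ℝ) ≤ q := by exact_mod_cast hqN.le
    linarith
  obtain ⟨⟨⟨⟨⟨⟨e4, e5⟩, e6⟩, e2⟩, e3⟩, e1⟩, e1'⟩ := hN q hqN'
  obtain ⟨x, hx⟩ : ∃ x : ℝ, x = (q : ℝ) := ⟨_, rfl⟩
  rw [← hx] at e1 e1' e2 e3 e4 e5 e6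
  obtain ⟨lg, hlg⟩ : ∃ lg : ℝ, lg = Real.log (4 * (n + 3) * x ^ 2) := ⟨_, rfl⟩
  rw [← hlg] at e4 e5 e6
  have hx0 : 0 < x := by linarith
  have hx1 : 1 ≤ x := by linarith
  have hlg1 : 1 ≤ lg := by
    rw [hlg, Real.le_log_iff_exp_le (by positivity)]
    have h1 := Real.exp_one_lt_d9
    nlinarith
  have hlg0 : 0 < lg := by linarith
  -- τ
  obtain ⟨θ, hθ⟩ : ∃ θ : ℝ, θ = x ^ (2 * γ + δ) := ⟨_, rfl⟩
  have hθx : x * x ^ δ ≤ θ := by
    rw [hθ]
    calc x * x ^ δ = x ^ ((1 : ℝ) + δ) := by rw [Real.rpow_add hx0, Real.rpow_one]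
      _ ≤ x ^ (2 * γ + δ) := Real.rpow_le_rpow_of_exponent_le hx1 (by linarith)
  have hθ16 : 16 * (n + 1) * x ≤ θ := by
    calc 16 * (n + 1) * x = x * (16 * (n + 1)) := by ring
      _ ≤ x * x ^ δ := mul_le_mul_of_nonneg_left e2 hx0.le
      _ ≤ θ := hθx
  have hθ1 : 1 ≤ θ := by nlinarith
  obtain ⟨τ, hτ⟩ : ∃ τ : ℕ, τ = ⌈θ⌉₊ := ⟨_, rfl⟩
  have hτ1 : θ ≤ τ := by rw [hτ]; exact Nat.le_ceil θ
  have hτ2 : (τ : ℝ) ≤ 2 * θ := by
    have := (Nat.ceil_lt_add_one (by linarith : 0 ≤ θ)).le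
    rw [hτ]; linarith
  have hB16 : 16 * (n + 1) * q ≤ τ := by
    have : (16 * (n + 1) * q : ℝ) ≤ τ := by rw [← hx]; linarith
    exact_mod_cast this
  have hq0 : 0 < q := hqp.pos
  -- a
  obtain ⟨a, ha⟩ : ∃ a : ℕ, a = τ / (2 * q) := ⟨_, rfl⟩
  have h2q : 2 * q ≤ τ := by nlinarith
  have ha1 : 1 ≤ a := by rw [ha]; exact (Nat.one_le_div_iff (by omega)).mpr h2q
  have ha2 : 2 * q * a ≤ τ := by rw [ha]; exact Nat.mul_div_le _ _
  have ha3 : τ ≤ 4 * q * a := by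
    have h1 := nat_div_half (by omega : 0 < 2 * q) h2q
    rw [← ha] at h1
    have h2 : τ ≤ 2 * (2 * q) * a := by exact_mod_cast h1
    calc τ ≤ 2 * (2 * q) * a := h2
      _ = 4 * q * a := by ring
  have haR : (a : ℝ) ≤ x ^ (2 * γ + δ - 1) := by
    have h1 : 2 * x * (a : ℝ) ≤ τ := by rw [hx]; exact_mod_cast ha2
    have h2 : x ^ (2 * γ + δ - 1) * x = θ := by
      rw [hθ]
      nth_rewrite 2 [← Real.rpow_one x]
      rw [← Real.rpow_add hx0]; congr 1; ring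
    have h3 : (a : ℝ) * x ≤ x ^ (2 * γ + δ - 1) * x := by rw [h2]; nlinarith
    exact le_of_mul_le_mul_right h3 hx0
  have hK : 2 * 4 ^ (n + 2) * a ^ n * q ≤ q ^ n := by
    have h1 : (a : ℝ) ^ n ≤ x ^ ((n : ℝ) - 2 + n * δ) := by
      calc (a : ℝ) ^ n ≤ (x ^ (2 * γ + δ - 1)) ^ n := pow_le_pow_left₀ (by positivity) haR n
        _ = x ^ ((2 * γ + δ - 1) * n) := by rw [← Real.rpow_natCast, ← Real.rpow_mul hx0.le]
        _ = x ^ ((n : ℝ) - 2 + n * δ) := by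
            congr 1
            linear_combination 2 * hγn
    have h2 : x ^ ((n : ℝ) - 2 + n * δ) * x ≤ x ^ ((n : ℝ) - 1 / 2) := by
      nth_rewrite 2 [← Real.rpow_one x]
      rw [← Real.rpow_add hx0]
      apply Real.rpow_le_rpow_of_exponent_le hx1
      linarith
    have h3 : x ^ ((n : ℝ) - 1 / 2) * x ^ ((1 : ℝ) / 2) = x ^ n := by
      rw [← Real.rpow_add hx0, ← Real.rpow_natCast]; congr 1; ring
    have h4 : 2 * 4 ^ (n + 2) * (a : ℝ) ^ n * x ≤ x ^ n := by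
      calc 2 * 4 ^ (n + 2) * (a : ℝ) ^ n * x = 2 * 4 ^ (n + 2) * ((a : ℝ) ^ n * x) := by ring
        _ ≤ 2 * 4 ^ (n + 2) * (x ^ ((n : ℝ) - 2 + n * δ) * x) := by
            apply mul_le_mul_of_nonneg_left _ (by positivity)
            exact mul_le_mul_of_nonneg_right h1 hx0.le
        _ ≤ 2 * 4 ^ (n + 2) * x ^ ((n : ℝ) - 1 / 2) := mul_le_mul_of_nonneg_left h2 (by positivity)
        _ ≤ x ^ ((1 : ℝ) / 2) * x ^ ((n : ℝ) - 1 / 2) :=
            mul_le_mul_of_nonneg_right e3 (by positivity)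
        _ = x ^ n := by rw [mul_comm, h3]
    rw [hx] at h4
    exact_mod_cast h4
  -- umax
  obtain ⟨um, hum⟩ : ∃ um : ℝ, um = x ^ 2 / (K0 * lg) := ⟨_, rfl⟩
  have hx2 : x ^ (2 : ℝ) = x ^ 2 := by norm_cast
  rw [hx2] at e5
  have hum1 : 1 ≤ um := by rw [hum, one_le_div (by positivity)]; exact e5
  obtain ⟨umax, humax⟩ : ∃ umax : ℕ, umax = ⌊um⌋₊ := ⟨_, rfl⟩
  have hu1 : (umax : ℝ) ≤ um := by rw [humax]; exact Nat.floor_le (by linarith)
  have hu2 : um ≤ 2 * umax := by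
    have h1 := Nat.lt_floor_add_one um
    have h2 : (1 : ℝ) ≤ ⌊um⌋₊ := by
      have : 1 ≤ ⌊um⌋₊ := Nat.le_floor (by exact_mod_cast hum1)
      exact_mod_cast this
    rw [humax]; linarith
  have humle : um * (K0 * lg) = x ^ 2 := by rw [hum]; field_simp
  have hu4 : 4 * umax ≤ q ^ 2 := by
    have h1 : (4 : ℝ) * um ≤ x ^ 2 := by
      rw [← humle]
      have : 4 ≤ K0 * lg := by nlinarith
      nlinarith
    have h2 : (4 * umax : ℝ) ≤ (q : ℝ) ^ 2 := by rw [← hx]; linarith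
    exact_mod_cast h2
  have hR1 : 32 * 4 ^ n * (2 * (n + 2 : ℝ)) ^ 2 * (n + 1) * ((q : ℝ) ^ 2) ^ (n - 1) *
      Real.log (4 * (n + 3) * (q : ℝ) ^ 2) ≤ (τ : ℝ) ^ n := by
    rw [← hx, ← hK1, ← hlg]
    have h1 : θ ^ n = (x ^ 2) ^ (n - 1) * x ^ ((n : ℝ) * δ) := by
      rw [hθ, ← Real.rpow_natCast, ← Real.rpow_mul hx0.le, ← pow_mul, ← Real.rpow_natCast x,
        ← Real.rpow_add hx0]
      congr 1
      rw [Nat.cast_mul, Nat.cast_sub (by omega)]
      push_cast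
      linear_combination 2 * hγn
    calc K1 * (x ^ 2) ^ (n - 1) * lg = (x ^ 2) ^ (n - 1) * (K1 * lg) := by ring
      _ ≤ (x ^ 2) ^ (n - 1) * x ^ ((n : ℝ) * δ) := mul_le_mul_of_nonneg_left e4 (by positivity)
      _ = θ ^ n := h1.symm
      _ ≤ (τ : ℝ) ^ n := pow_le_pow_left₀ (by linarith) hτ1 n
  have hR2 : 32 * 4 ^ (n + 2) * (2 * (n + 2 : ℝ)) ^ 2 * umax *
      Real.log (4 * (n + 3) * (q : ℝ) ^ 2) ≤ (q : ℝ) ^ 2 + q := by
    rw [← hx, ← hK0, ← hlg]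
    have h1 : K0 * umax * lg ≤ x ^ 2 := by
      rw [← humle]
      calc K0 * umax * lg = umax * (K0 * lg) := by ring
        _ ≤ um * (K0 * lg) := mul_le_mul_of_nonneg_right hu1 (by positivity)
    linarith
  obtain ⟨D, hD, hDcol⟩ := exists_good_system (by omega : 1 ≤ n) hB τ umax a
    (by have : (16 : ℝ) ≤ q := by rw [← hx]; exact e1
        exact_mod_cast this)
    (by have : (4 * (n + 2) : ℝ) ≤ q := by rw [← hx]; exact e1'
        exact_mod_cast this)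
    hB16 hu4 ha1 ha2 ha3 hK hR1 hR2
  -- bound on the upper chromatic number
  obtain ⟨R, hR⟩ : ∃ R : ℝ, R = 4 * (n + 1) * K0 * lg * θ := ⟨_, rfl⟩
  have hR0 : 0 < R := by rw [hR]; positivity
  have hcol : ∀ φ : Fin (q ^ 2) → ℕ, ProperColouring D φ → (univ.image φ).card ≤ ⌊R⌋₊ := by
    intro φ hφ
    apply Nat.le_floor
    rcases hDcol φ hφ with h | h
    · have h1 : ((univ.image φ).card : ℝ) ≤ (n + 1) * τ := by exact_mod_cast h.le
      have h2 : ((n : ℝ) + 1) * τ ≤ (n + 1) * (2 * θ) := mul_le_mul_of_nonneg_left hτ2 (by positivity)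
      have h3 : ((n : ℝ) + 1) * (2 * θ) ≤ R := by
        rw [hR]
        have : 4 ≤ K0 * lg := by nlinarith
        have h4 : 0 ≤ ((n : ℝ) + 1) * θ := by positivity
        nlinarith
      linarith
    · have h1 : ((univ.image φ).card : ℝ) * umax ≤ (n + 1) * τ * x ^ 2 := by
        rw [hx]; exact_mod_cast h.le
      have h2 : ((univ.image φ).card : ℝ) * um ≤ 2 * ((n + 1) * τ * x ^ 2) := by
        calc ((univ.image φ).card : ℝ) * um ≤ ((univ.image φ).card : ℝ) * (2 * umax) :=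
              mul_le_mul_of_nonneg_left hu2 (by positivity)
          _ = 2 * (((univ.image φ).card : ℝ) * umax) := by ring
          _ ≤ 2 * ((n + 1) * τ * x ^ 2) := by linarith
      have h3 : (((univ.image φ).card : ℝ)) * um ≤ R * um := by
        refine h2.trans ?_
        calc 2 * (((n : ℝ) + 1) * τ * x ^ 2) ≤ 2 * ((n + 1) * (2 * θ) * x ^ 2) := by
              apply mul_le_mul_of_nonneg_left _ (by norm_num)
              apply mul_le_mul_of_nonneg_right _ (by positivity)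
              exact mul_le_mul_of_nonneg_left hτ2 (by positivity)
          _ = 2 * ((n + 1) * (2 * θ) * (um * (K0 * lg))) := by rw [humle]
          _ = R * um := by rw [hR]; ring
      exact le_of_mul_le_mul_right h3 (by linarith)
  have hchi := upperChromatic_le D (fun b hb => by rw [hD.1 b hb]; omega) ⌊R⌋₊ hcol
  have hlow := hall (q ^ 2) (by
    have h1 : (4 * (n + 2) : ℝ) ≤ q := by rw [← hx]; exact e1'
    have h2 : 4 * (n + 2) ≤ q := by exact_mod_cast h1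
    nlinarith) D hD
  have hchiR : (upperChromaticNumber D : ℝ) ≤ R := by
    have h1 : (upperChromaticNumber D : ℝ) ≤ (⌊R⌋₊ : ℝ) := by exact_mod_cast hchi
    exact h1.trans (Nat.floor_le hR0.le)
  have hfin := hlow.trans hchiR
  have hcast : ((q ^ 2 : ℕ) : ℝ) ^ c = x ^ (2 * γ + 2 * ε) := by
    push_cast
    rw [← hx, ← Real.rpow_natCast, ← Real.rpow_mul hx0.le]
    congr 1
    rw [hε]; push_cast; ring
  rw [hcast] at hfin
  -- contradiction
  have h1 : x ^ (2 * γ + 2 * ε) = x ^ (2 * γ + ε) * x ^ ε := by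
    rw [← Real.rpow_add hx0]; congr 1; ring
  have h2 : θ ≤ x ^ (2 * γ + ε) := by
    rw [hθ]; exact Real.rpow_le_rpow_of_exponent_le hx1 (by linarith)
  have hxp : 0 < x ^ (2 * γ + ε) := by positivity
  have h3 : 8 * (n + 1) * K0 * lg ≤ C * x ^ ε := by
    have h4 : 8 * (n + 1) * K0 / C * lg * C ≤ x ^ ε * C := mul_le_mul_of_nonneg_right e6 hC.le
    have h5 : 8 * (n + 1) * K0 / C * lg * C = 8 * (n + 1) * K0 * lg := by field_simp
    linarith
  have h6 : C * (x ^ (2 * γ + ε) * x ^ ε) ≤ 4 * (n + 1) * K0 * lg * x ^ (2 * γ + ε) := by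
    rw [← h1]
    refine hfin.trans ?_
    rw [hR]
    exact mul_le_mul_of_nonneg_left h2 (by positivity)
  have h7 : (C * x ^ ε) * x ^ (2 * γ + ε) ≤ (4 * (n + 1) * K0 * lg) * x ^ (2 * γ + ε) := by
    calc (C * x ^ ε) * x ^ (2 * γ + ε) = C * (x ^ (2 * γ + ε) * x ^ ε) := by ring
      _ ≤ _ := h6
  have h8 := le_of_mul_le_mul_right h7 hxp
  have h9 : 0 < (n + 1) * K0 * lg := by positivity
  nlinarith

end Pool.Agent.Work.MP_b59edb_co
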