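import Pool.Agent.Work.MP_b59edb_co.Plane

set_option autoImplicit false

/-!
From colourings with many colours to valid configurations.
-/

namespace Pool.Agent.Work.MP_b59edb_co

open Finset

/-- some `m`-subset has at most average total size -/
lemma exists_small_sub (G : Finset ℕ) (s : ℕ → ℕ) (d : ℕ) (hd : d ≤ G.card) :
    ∃ H ⊆ G, H.card = G.card - d ∧ G.card * ∑ g ∈ H, s g ≤ (G.card - d) * ∑ g ∈ G, s g := by
  classical
  induction d with
  | zero => exact ⟨G, Subset.rfl, rfl, le_rfl⟩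
  | succ d ih =>
    obtain ⟨H, hHG, hHc, hHs⟩ := ih (by omega)
    have hne : H.Nonempty := card_pos.mp (by omega)
    obtain ⟨g, hg, hmax⟩ := exists_max_image H s hne
    have h1 : ∑ x ∈ H, s x ≤ H.card * s g := by
      have := sum_le_card_nsmul H s (s g) hmax
      simpa using this
    have h2 := add_sum_erase H s hg
    refine ⟨H.erase g, (erase_subset _ _).trans hHG, ?_, ?_⟩
    · rw [card_erase_of_mem hg]; omega
    · obtain ⟨m, hm⟩ : ∃ m, G.card - (d + 1) = m := ⟨_, rfl⟩
      have hm1 : G.card - d = m + 1 := by omega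
      rw [hm]
      rw [hm1] at hHs hHc
      rw [hHc] at h1
      -- (m+1) * G * sum erase ≤ m * G * sum H ≤ m (m+1) S
      have h3 : (m + 1) * ∑ x ∈ H.erase g, s x ≤ m * ∑ x ∈ H, s x := by
        nlinarith
      have h4 : (m + 1) * (G.card * ∑ x ∈ H.erase g, s x) ≤ (m + 1) * (m * ∑ g ∈ G, s g) := by
        calc (m + 1) * (G.card * ∑ x ∈ H.erase g, s x)
            = G.card * ((m + 1) * ∑ x ∈ H.erase g, s x) := by ring
          _ ≤ G.card * (m * ∑ x ∈ H, s x) := Nat.mul_le_mul_left _ h3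
          _ = m * (G.card * ∑ x ∈ H, s x) := by ring
          _ ≤ m * ((m + 1) * ∑ g ∈ G, s g) := Nat.mul_le_mul_left _ hHs
          _ = (m + 1) * (m * ∑ g ∈ G, s g) := by ring
      exact Nat.le_of_mul_le_mul_left h4 (by omega)

lemma exists_large_sub (G : Finset ℕ) (s : ℕ → ℕ) (m : ℕ) (hm : m ≤ G.card) :
    ∃ H ⊆ G, H.card = m ∧ m * ∑ g ∈ G, s g ≤ G.card * ∑ g ∈ H, s g := by
  classical
  obtain ⟨K, hKG, hKc, hKs⟩ := exists_small_sub G s m hm
  refine ⟨G \ K, sdiff_subset, ?_, ?_⟩
  · rw [card_sdiff_of_subset hKG]; omega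
  · have h1 := sum_sdiff (f := s) hKG
    obtain ⟨r, hr⟩ : ∃ r, G.card - m = r := ⟨_, rfl⟩
    have hr' : G.card = m + r := by omega
    rw [hr] at hKs
    rw [hr'] at hKs ⊢
    nlinarith

variable {X : Type*} [Fintype X] [DecidableEq X]

/-- size of the union of the classes in `G`. -/
lemma card_preimage (φ : X → ℕ) (G : Finset ℕ) :
    (univ.filter (fun x => φ x ∈ G)).card = ∑ g ∈ G, (univ.filter (fun x => φ x = g)).card := by
  rw [card_eq_sum_card_fiberwise (s := univ.filter (fun x => φ x ∈ G)) (t := G) (f := φ)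
    (fun x hx => (mem_filter.mp (mem_coe.mp hx)).2)]
  apply sum_congr rfl
  intro g hg
  congr 1
  ext x
  simp only [mem_filter, mem_univ, true_and]
  constructor
  · exact fun h => h.2
  · intro h; exact ⟨by rw [h]; exact hg, h⟩

/-- Configuration attached to a colouring. -/
lemma exists_config (φ : X → ℕ) (n τ umax : ℕ) (hτ : 1 ≤ τ)
    (h1 : (n + 1) * τ ≤ (univ.image φ).card)
    (h2 : (n + 1) * τ * Fintype.card X ≤ (univ.image φ).card * umax) :
    ∃ c : X → Option (Idx n), Valid τ umax c ∧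
      ∀ x y : X, ∀ i j : Idx n, c x = some i → c y = some j → i ≠ j → φ x ≠ φ y := by
  classical
  set G0 := univ.image φ with hG0
  let s : ℕ → ℕ := fun g => (univ.filter (fun x => φ x = g)).card
  have hs1 : ∀ g ∈ G0, 1 ≤ s g := by
    intro g hg
    obtain ⟨x, -, hx⟩ := mem_image.mp hg
    exact card_pos.mpr ⟨x, mem_filter.mpr ⟨mem_univ _, hx⟩⟩
  have htot : ∑ g ∈ G0, s g = Fintype.card X := by
    rw [← card_preimage φ G0, ← card_univ]
    congr 1
    ext x
    simp [hG0]
  obtain ⟨G, hGG, hGc, hGs⟩ := exists_small_sub G0 s (G0.card - (n + 1) * τ) (by omega)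
  have hsub : G0.card - (G0.card - (n + 1) * τ) = (n + 1) * τ := by omega
  rw [hsub] at hGc hGs
  rw [htot] at hGs
  obtain ⟨W, hWG, hWc, hWs⟩ := exists_large_sub G s τ (by rw [hGc]; nlinarith)
  rw [hGc] at hWs
  have hWs' : ∑ g ∈ G, s g ≤ (n + 1) * ∑ g ∈ W, s g := by
    have : τ * ∑ g ∈ G, s g ≤ τ * ((n + 1) * ∑ g ∈ W, s g) := by
      calc τ * ∑ g ∈ G, s g ≤ (n + 1) * τ * ∑ g ∈ W, s g := hWs
        _ = τ * ((n + 1) * ∑ g ∈ W, s g) := by ring
    exact Nat.le_of_mul_le_mul_left this (by omega)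
  have hRc : (G \ W).card = n * τ := by
    rw [card_sdiff_of_subset hWG, hGc, hWc, Nat.add_mul, one_mul]; omega
  let e : (G \ W : Finset ℕ) ≃ Fin n × Fin τ :=
    ((G \ W).equivFinOfCardEq hRc).trans finProdFinEquiv.symm
  -- representatives
  have hrep : ∀ g ∈ G0, ∃ x, φ x = g := by
    intro g hg
    obtain ⟨x, -, hx⟩ := mem_image.mp hg
    exact ⟨x, hx⟩
  have hXne : Nonempty X := by
    have : 0 < G0.card := by
      have : 1 ≤ (n + 1) * τ := by nlinarith
      omega
    obtain ⟨g, hg⟩ := card_pos.mp this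
    obtain ⟨x, _⟩ := hrep g hg
    exact ⟨x⟩
  choose! rep hrep using hrep
  let c : X → Option (Idx n) := fun x =>
    if h : φ x ∈ G \ W then
      (if rep (φ x) = x then some (some (some (e ⟨φ x, h⟩).1)) else none)
    else if φ x ∈ W then some (some none) else some none
  have hcR : ∀ x (h : φ x ∈ G \ W), c x = if rep (φ x) = x then some (some (some (e ⟨φ x, h⟩).1)) else none := by
    intro x h; simp only [c]; rw [dif_pos h]
  have hcW : ∀ x, φ x ∈ W → c x = some (some none) := by
    intro x h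
    have h' : φ x ∉ G \ W := fun h' => (mem_sdiff.mp h').2 h
    simp only [c]; rw [dif_neg h', if_pos h]
  have hcO : ∀ x, φ x ∉ G → c x = some none := by
    intro x h
    have h' : φ x ∉ G \ W := fun h' => h (mem_sdiff.mp h').1
    have h'' : φ x ∉ W := fun h' => h (hWG h')
    simp only [c]; rw [dif_neg h', if_neg h'']
  -- converse information
  have hinv : ∀ x, (φ x ∈ G \ W ∧ (c x = none ∨ ∃ h : φ x ∈ G \ W, c x = some (some (some (e ⟨φ x, h⟩).1)))) ∨
      (φ x ∈ W ∧ c x = some (some none)) ∨ (φ x ∉ G ∧ c x = some none) := by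
    intro x
    by_cases hW : φ x ∈ W
    · right; left; exact ⟨hW, hcW x hW⟩
    · by_cases hG : φ x ∈ G
      · left
        have h : φ x ∈ G \ W := mem_sdiff.mpr ⟨hG, hW⟩
        refine ⟨h, ?_⟩
        by_cases hr : rep (φ x) = x
        · right; refine ⟨h, ?_⟩; rw [hcR x h, if_pos hr]
        · left; rw [hcR x h, if_neg hr]
      · right; right; exact ⟨hG, hcO x hG⟩
  have hclsW : cls c (some none) = univ.filter (fun x => φ x ∈ W) := by
    ext x
    simp only [cls, mem_filter, mem_univ, true_and]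
    constructor
    · intro hx
      rcases hinv x with ⟨_, h | ⟨_, h⟩⟩ | ⟨h, _⟩ | ⟨_, h⟩
      · rw [h] at hx; simp at hx
      · rw [h] at hx; simp at hx
      · exact h
      · rw [h] at hx; simp at hx
    · exact hcW x
  have hU : inU c = univ.filter (fun x => φ x ∈ G) := by
    ext x
    simp only [inU, mem_filter, mem_univ, true_and]
    constructor
    · intro hx
      rcases hinv x with ⟨h, _⟩ | ⟨h, _⟩ | ⟨_, h⟩
      · exact (mem_sdiff.mp h).1
      · exact hWG h
      · exact absurd h hx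
    · intro hG hx
      rcases hinv x with ⟨_, h | ⟨_, h⟩⟩ | ⟨_, h⟩ | ⟨h, _⟩
      · rw [h] at hx; simp at hx
      · rw [h] at hx; simp at hx
      · rw [h] at hx; simp at hx
      · exact h hG
  refine ⟨c, ⟨?_, ?_, ?_, ?_⟩, ?_⟩
  · intro i
    have : (univ : Finset (Fin τ)).card ≤ (cls c (some (some i))).card := by
      refine card_le_card_of_injOn (fun j => rep (e.symm (i, j) : ℕ)) ?_ ?_
      · intro j _
        have hmem : (e.symm (i, j) : ℕ) ∈ G \ W := (e.symm (i, j)).2
        have h3 : φ (rep (e.symm (i, j) : ℕ)) = (e.symm (i, j) : ℕ) :=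
          hrep _ (hGG (mem_sdiff.mp hmem).1)
        simp only [cls, coe_filter, mem_univ, true_and, Set.mem_ofPred_eq]
        rw [hcR _ (by rw [h3]; exact hmem), if_pos (by rw [h3])]
        have h4 : (⟨φ (rep (e.symm (i, j) : ℕ)), by rw [h3]; exact hmem⟩ : (G \ W : Finset ℕ)) =
            e.symm (i, j) := Subtype.ext h3
        rw [h4, Equiv.apply_symm_apply]
      · intro j _ j' _ hjj
        have hmem : (e.symm (i, j) : ℕ) ∈ G \ W := (e.symm (i, j)).2
        have hmem' : (e.symm (i, j') : ℕ) ∈ G \ W := (e.symm (i, j')).2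
        have h3 : φ (rep (e.symm (i, j) : ℕ)) = (e.symm (i, j) : ℕ) :=
          hrep _ (hGG (mem_sdiff.mp hmem).1)
        have h3' : φ (rep (e.symm (i, j') : ℕ)) = (e.symm (i, j') : ℕ) :=
          hrep _ (hGG (mem_sdiff.mp hmem').1)
        have h5 : (e.symm (i, j) : ℕ) = (e.symm (i, j') : ℕ) := by
          rw [← h3, ← h3']; exact congrArg φ hjj
        have h6 : e.symm (i, j) = e.symm (i, j') := Subtype.ext h5
        have h7 := e.symm.injective h6
        exact congrArg Prod.snd h7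
    simpa using this
  · rw [hclsW, card_preimage]
    calc τ = W.card := hWc.symm
      _ = ∑ g ∈ W, 1 := by simp
      _ ≤ ∑ g ∈ W, s g := sum_le_sum (fun g hg => hs1 g (hGG (hWG hg)))
  · rw [hU, hclsW, card_preimage, card_preimage]
    exact hWs'
  · rw [hU, card_preimage]
    have h3 : G0.card * ∑ g ∈ G, s g ≤ G0.card * umax := hGs.trans h2
    have h4 : 0 < G0.card := by
      have : 1 ≤ (n + 1) * τ := by nlinarith
      omega
    exact Nat.le_of_mul_le_mul_left h3 h4
  · intro x y i j hx hy hij hφ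
    rcases hinv x with ⟨hx1, hx2 | ⟨hx3, hx2⟩⟩ | ⟨hx1, hx2⟩ | ⟨hx1, hx2⟩ <;>
    rcases hinv y with ⟨hy1, hy2 | ⟨hy3, hy2⟩⟩ | ⟨hy1, hy2⟩ | ⟨hy1, hy2⟩
    all_goals first
      | (rw [hx2] at hx; simp at hx; done)
      | (rw [hy2] at hy; simp at hy; done)
      | skip
    · rw [hx2] at hx
      rw [hy2] at hy
      apply hij
      have e1 := Option.some.inj hx
      have e2 := Option.some.inj hy
      rw [← e1, ← e2]
      have : (⟨φ x, hx3⟩ : (G \ W : Finset ℕ)) = ⟨φ y, hy3⟩ := Subtype.ext hφ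
      rw [this]
    · rw [hφ] at hx1
      exact (mem_sdiff.mp hx1).2 hy1
    · rw [hφ] at hx1
      exact hy1 (mem_sdiff.mp hx1).1
    · rw [← hφ] at hy1
      exact (mem_sdiff.mp hy1).2 hx1
    · rw [hx2] at hx
      rw [hy2] at hy
      exact hij ((Option.some.inj hx).symm.trans (Option.some.inj hy))
    · rw [hφ] at hx1
      exact hy1 (hWG hx1)
    · rw [← hφ] at hy1
      exact hx1 (mem_sdiff.mp hy1).1
    · rw [← hφ] at hy1
      exact hx1 (hWG hy1)
    · rw [hx2] at hx
      rw [hy2] at hy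
      exact hij ((Option.some.inj hx).symm.trans (Option.some.inj hy))

end Pool.Agent.Work.MP_b59edb_co
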