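import Mathlib

set_option autoImplicit false

/-!
Steiner systems on an arbitrary finite type: basic counting.
-/

namespace Pool.Agent.Work.MP_b59edb_co

open Finset

/-- `B` is a Steiner system `S(t,k,·)` on the finite type `α`: all blocks have `k` elements and every
`t`-element set of points lies in exactly one block. -/
def Steiner (t k : ℕ) {α : Type*} (B : Finset (Finset α)) : Prop :=
  (∀ b ∈ B, b.card = k) ∧ ∀ T : Finset α, T.card = t → ∃! b, b ∈ B ∧ T ⊆ b

variable {Q : Type*} [Fintype Q] [DecidableEq Q]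

/-- Number of blocks containing a given set of at most `t` points. -/
lemma card_blocks_containing_le {t k : ℕ} {B : Finset (Finset Q)} (hB : Steiner t k B) (htk : t ≤ k)
    (I : Finset Q) (hI : I.card ≤ t) :
    (B.filter (fun b => I ⊆ b)).card ≤ Fintype.card Q ^ (t - I.card) := by
  classical
  have hex : ∀ b ∈ B.filter (fun b => I ⊆ b), ∃ T : Finset Q, I ⊆ T ∧ T ⊆ b ∧ T.card = t := by
    intro b hb
    obtain ⟨hb1, hb2⟩ := mem_filter.mp hb
    exact Finset.exists_subsuperset_card_eq hb2 hI (by rw [hB.1 b hb1]; exact htk)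
  choose! F hF using hex
  have h1 : (B.filter (fun b => I ⊆ b)).card ≤
      ((univ : Finset Q).powersetCard (t - I.card)).card := by
    refine card_le_card_of_injOn (fun b => F b \ I) ?_ ?_
    · intro b hb
      obtain ⟨h2, h3, h4⟩ := hF b hb
      rw [mem_coe, mem_powersetCard]
      refine ⟨subset_univ _, ?_⟩
      rw [card_sdiff_of_subset h2, h4]
    · intro b hb b' hb' h
      obtain ⟨h2, h3, h4⟩ := hF b hb
      obtain ⟨h2', h3', h4'⟩ := hF b' hb'
      have h5 : F b = F b' := by
        rw [← sdiff_union_of_subset h2, ← sdiff_union_of_subset h2']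
        exact congrArg (· ∪ I) h
      obtain ⟨c, hc, huniq⟩ := hB.2 (F b) h4
      have e1 := huniq b ⟨(mem_filter.mp hb).1, h3⟩
      have e2 := huniq b' ⟨(mem_filter.mp hb').1, by rw [h5]; exact h3'⟩
      rw [e1, e2]
  rw [card_powersetCard, card_univ] at h1
  exact h1.trans (Nat.choose_le_pow _ _)

/-- Two distinct blocks share fewer than `t` points. -/
lemma card_inter_lt {t k : ℕ} {B : Finset (Finset Q)} (hB : Steiner t k B)
    {b b' : Finset Q} (hb : b ∈ B) (hb' : b' ∈ B) (hne : b ≠ b') : (b ∩ b').card < t := by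
  by_contra h
  push Not at h
  obtain ⟨T, hT1, hT2⟩ := Finset.exists_subset_card_eq h
  obtain ⟨c, hc, huniq⟩ := hB.2 T hT2
  have e1 := huniq b ⟨hb, hT1.trans inter_subset_left⟩
  have e2 := huniq b' ⟨hb', hT1.trans inter_subset_right⟩
  exact hne (e1.trans e2.symm)

/-- Number of blocks meeting a given block in exactly `i` points. -/
lemma card_blocks_meeting_le {t k : ℕ} {B : Finset (Finset Q)} (hB : Steiner t k B) (htk : t ≤ k)
    {b : Finset Q} (hb : b ∈ B) (i : ℕ) (hi : i ≤ t) :
    (B.filter (fun b' => (b ∩ b').card = i)).card ≤ 2 ^ k * Fintype.card Q ^ (t - i) := by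
  classical
  have h1 : B.filter (fun b' => (b ∩ b').card = i) ⊆
      (b.powersetCard i).biUnion (fun I => B.filter (fun b' => I ⊆ b')) := by
    intro b' hb'
    obtain ⟨h2, h3⟩ := mem_filter.mp hb'
    rw [mem_biUnion]
    exact ⟨b ∩ b', mem_powersetCard.mpr ⟨inter_subset_left, h3⟩,
      mem_filter.mpr ⟨h2, inter_subset_right⟩⟩
  refine (card_le_card h1).trans ?_
  refine (card_biUnion_le_card_mul _ _ (Fintype.card Q ^ (t - i)) ?_).trans ?_
  · intro I hI
    obtain ⟨_, h5⟩ := mem_powersetCard.mp hI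
    have := card_blocks_containing_le hB htk I (by rw [h5]; exact hi)
    rwa [h5] at this
  · apply Nat.mul_le_mul_right
    rw [card_powersetCard, hB.1 b hb]
    exact Nat.choose_le_two_pow _ _

/-- Lower bound for the number of blocks. -/
lemma card_blocks_ge {t k : ℕ} {B : Finset (Finset Q)} (hB : Steiner t k B) :
    (Fintype.card Q).choose t ≤ B.card * k.choose t := by
  classical
  have h1 : (univ : Finset Q).powersetCard t ⊆ B.biUnion (fun b => b.powersetCard t) := by
    intro T hT
    obtain ⟨_, h2⟩ := mem_powersetCard.mp hT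
    obtain ⟨b, ⟨hb1, hb2⟩, _⟩ := hB.2 T h2
    rw [mem_biUnion]
    exact ⟨b, hb1, mem_powersetCard.mpr ⟨hb2, h2⟩⟩
  have h2 := card_le_card h1
  rw [card_powersetCard, card_univ] at h2
  refine h2.trans (card_biUnion_le_card_mul _ _ _ ?_)
  intro b hb
  rw [card_powersetCard, hB.1 b hb]

lemma card_blocks_ge' {t k : ℕ} {B : Finset (Finset Q)} (hB : Steiner t k B)
    (h2t : 2 * t ≤ Fintype.card Q) :
    (Fintype.card Q) ^ t ≤ B.card * (2 * k) ^ t := by
  have h1 := card_blocks_ge hB
  have h2 : (Fintype.card Q + 1 - t) ^ t ≤ (Fintype.card Q).descFactorial t :=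
    Nat.pow_sub_le_descFactorial _ _
  rw [Nat.descFactorial_eq_factorial_mul_choose] at h2
  have h3 : t.factorial * k.choose t ≤ k ^ t := by
    rw [← Nat.descFactorial_eq_factorial_mul_choose]
    exact Nat.descFactorial_le_pow _ _
  have h4 : Fintype.card Q ≤ 2 * (Fintype.card Q + 1 - t) := by omega
  calc (Fintype.card Q) ^ t ≤ (2 * (Fintype.card Q + 1 - t)) ^ t := Nat.pow_le_pow_left h4 t
    _ = 2 ^ t * (Fintype.card Q + 1 - t) ^ t := by rw [mul_pow]
    _ ≤ 2 ^ t * (t.factorial * (Fintype.card Q).choose t) := Nat.mul_le_mul_left _ h2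
    _ ≤ 2 ^ t * (t.factorial * (B.card * k.choose t)) :=
        Nat.mul_le_mul_left _ (Nat.mul_le_mul_left _ h1)
    _ = 2 ^ t * (B.card * (t.factorial * k.choose t)) := by ring
    _ ≤ 2 ^ t * (B.card * k ^ t) := Nat.mul_le_mul_left _ (Nat.mul_le_mul_left _ h3)
    _ = B.card * (2 * k) ^ t := by rw [mul_pow]; ring

end Pool.Agent.Work.MP_b59edb_co
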