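import Pool.Agent.Work.MP_b59edb_co.Embed
import Pool.Agent.Work.MP_b59edb_co.Steiner

set_option autoImplicit false

/-!
Steiner systems `S(2,k,q)` for infinitely many primes `q` (Wilson's theorem on difference families).
-/

namespace Pool.Agent.Work.MP_b59edb_co

open Finset

/-- ordered pairs `i < j` -/
abbrev Prs (k : ℕ) := {p : Fin k × Fin k // p.1 < p.2}

/-- A surjective character onto a cyclic group of order `e`, trivial at `-1`. -/
lemma exists_char (e q : ℕ) (he : 0 < e) [Fact q.Prime] (hq : q ≡ 1 [MOD 2 * e]) (hq2 : 2 < q) :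
    ∃ χ : (ZMod q)ˣ →* Multiplicative (ZMod e), Function.Surjective χ ∧ χ (-1) = 1 := by
  have hcard : Nat.card (ZMod q)ˣ = q - 1 := by
    rw [Nat.card_eq_fintype_card, ZMod.card_units]
  have hdvd : 2 * e ∣ q - 1 := (Nat.modEq_iff_dvd' (by omega)).mp hq.symm
  have hdvd' : e ∣ Nat.card (ZMod q)ˣ := by
    rw [hcard]; exact (Dvd.intro_left 2 rfl).trans hdvd
  let φ := (zmodCyclicMulEquiv (G := (ZMod q)ˣ) inferInstance).symm
  let ψ : Multiplicative (ZMod (Nat.card (ZMod q)ˣ)) →* Multiplicative (ZMod e) :=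
    AddMonoidHom.toMultiplicative (ZMod.castHom hdvd' (ZMod e)).toAddMonoidHom
  refine ⟨ψ.comp φ.toMonoidHom, ?_, ?_⟩
  · intro y
    obtain ⟨x, hx⟩ := ZMod.castHom_surjective hdvd' (Multiplicative.toAdd y)
    refine ⟨φ.symm (Multiplicative.ofAdd x), ?_⟩
    change ψ (φ (φ.symm (Multiplicative.ofAdd x))) = y
    rw [MulEquiv.apply_symm_apply]
    change Multiplicative.ofAdd ((ZMod.castHom hdvd' (ZMod e)) x) = y
    rw [hx]; rfl
  · change ψ (φ (-1)) = 1
    obtain ⟨x, hx⟩ : ∃ x : ZMod (Nat.card (ZMod q)ˣ), φ (-1) = Multiplicative.ofAdd x := ⟨_, rfl⟩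
    have h2 : φ (-1) * φ (-1) = 1 := by rw [← map_mul]; simp
    rw [hx] at h2
    have h3 : x + x = 0 := h2
    rw [hx]
    change Multiplicative.ofAdd ((ZMod.castHom hdvd' (ZMod e)) x) = 1
    have h4 : (ZMod.castHom hdvd' (ZMod e)) x = 0 := by
      have : NeZero (Nat.card (ZMod q)ˣ) := ⟨by rw [hcard]; omega⟩
      have h5 : x = ((x.val : ℕ) : ZMod (Nat.card (ZMod q)ˣ)) := by simp
      rw [h5] at h3 ⊢
      rw [map_natCast]
      have h6 : ((2 * x.val : ℕ) : ZMod (Nat.card (ZMod q)ˣ)) = 0 := by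
        rw [two_mul]; push_cast; exact h3
      rw [ZMod.natCast_eq_zero_iff] at h6 ⊢
      have h2e : 2 * e ∣ Nat.card (ZMod q)ˣ := by rw [hcard]; exact hdvd
      have h7 : 2 * e ∣ 2 * x.val := h2e.trans h6
      exact (Nat.mul_dvd_mul_iff_left (by norm_num)).mp h7
    rw [h4]; rfl

/-- exactly one of `u`, `-u` is in the lower half -/
lemma half_xor (q : ℕ) [Fact q.Prime] (hq2 : 2 < q) (u : (ZMod q)ˣ) :
    (2 * (u : ZMod q).val < q ∧ ¬ 2 * ((-u : (ZMod q)ˣ) : ZMod q).val < q) ∨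
    (¬ 2 * (u : ZMod q).val < q ∧ 2 * ((-u : (ZMod q)ˣ) : ZMod q).val < q) := by
  have hodd : q % 2 = 1 := by
    rcases (Fact.out : q.Prime).eq_two_or_odd with h | h
    · omega
    · exact h
  have h1 : ((-u : (ZMod q)ˣ) : ZMod q).val = q - (u : ZMod q).val := by
    rw [Units.val_neg, ZMod.neg_val, if_neg u.ne_zero]
  have h2 : (u : ZMod q).val < q := ZMod.val_lt _
  have h3 : (u : ZMod q).val ≠ 0 := by
    rw [Ne, ZMod.val_eq_zero]; exact u.ne_zero
  rw [h1]
  omega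

/-- Difference family gives a Steiner system. -/
lemma steiner_of_family {k q : ℕ} [Fact q.Prime] (hq2 : 2 < q) {A : Type} [CommGroup A]
    (χ : (ZMod q)ˣ →* A) (hneg : χ (-1) = 1) (E : Prs k ≃ A) (b : Fin k → ZMod q)
    (hb : ∀ i j (h : i < j), InC χ (E ⟨(i, j), h⟩) (b j - b i)) :
    ∃ B : Finset (Finset (ZMod q)), Steiner 2 k B := by
  classical
  have hchineg : ∀ u : (ZMod q)ˣ, χ (-u) = χ u := by
    intro u
    have : -u = (-1) * u := by simp
    rw [this, map_mul, hneg, one_mul]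
  -- unordered version
  have hb' : ∀ i j, i ≠ j → ∃ u : (ZMod q)ˣ, (u : ZMod q) = b j - b i ∧
      ∃ p : Prs k, χ u = E p ∧ ((p.1.1 = i ∧ p.1.2 = j) ∨ (p.1.1 = j ∧ p.1.2 = i)) := by
    intro i j hij
    rcases lt_or_gt_of_ne hij with h | h
    · obtain ⟨u, hu1, hu2⟩ := hb i j h
      exact ⟨u, hu2, ⟨(i, j), h⟩, hu1, Or.inl ⟨rfl, rfl⟩⟩
    · obtain ⟨u, hu1, hu2⟩ := hb j i h
      refine ⟨-u, ?_, ⟨(j, i), h⟩, ?_, Or.inr ⟨rfl, rfl⟩⟩
      · rw [Units.val_neg, hu2]; ring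
      · rw [hchineg]; exact hu1
  have hbinj : Function.Injective b := by
    intro i j hij
    by_contra hne
    obtain ⟨u, hu, _⟩ := hb' i j hne
    rw [hij, sub_self] at hu
    exact u.ne_zero hu
  let S : Finset (ZMod q)ˣ := univ.filter (fun u => χ u = 1 ∧ 2 * (u : ZMod q).val < q)
  let D : (ZMod q)ˣ × ZMod q → Finset (ZMod q) := fun sx => univ.image (fun i => (sx.1 : ZMod q) * b i + sx.2)
  have huniq : ∀ s x s' x' y z, s ∈ S → s' ∈ S → y ≠ z → y ∈ D (s, x) → z ∈ D (s, x) →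
      y ∈ D (s', x') → z ∈ D (s', x') → s = s' ∧ x = x' := by
    intro s x s' x' y z hs hs' hyz hy hz hy' hz'
    obtain ⟨i, -, hi⟩ := mem_image.mp hy
    obtain ⟨j, -, hj⟩ := mem_image.mp hz
    obtain ⟨i', -, hi'⟩ := mem_image.mp hy'
    obtain ⟨j', -, hj'⟩ := mem_image.mp hz'
    simp only at hi hj hi' hj'
    have hij : i ≠ j := by rintro rfl; exact hyz (hi.symm.trans hj)
    have hij' : i' ≠ j' := by rintro rfl; exact hyz (hi'.symm.trans hj')
    obtain ⟨u, hu, p, hp, hp2⟩ := hb' i j hij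
    obtain ⟨u', hu', p', hp', hp2'⟩ := hb' i' j' hij'
    have hs1 : χ s = 1 := (mem_filter.mp hs).2.1
    have hs1' : χ s' = 1 := (mem_filter.mp hs').2.1
    have heq : s * u = s' * u' := by
      apply Units.ext
      rw [Units.val_mul, Units.val_mul, hu, hu']
      linear_combination hj - hi - hj' + hi'
    have hpp : p = p' := by
      apply E.injective
      rw [← hp, ← hp']
      have := congrArg χ heq
      rw [map_mul, map_mul, hs1, hs1', one_mul, one_mul] at this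
      exact this
    subst hpp
    have hcase : (i = i' ∧ j = j') ∨ (i = j' ∧ j = i') := by
      rcases hp2 with ⟨h1, h2⟩ | ⟨h1, h2⟩ <;> rcases hp2' with ⟨h3, h4⟩ | ⟨h3, h4⟩
      · left; exact ⟨h1.symm.trans h3, h2.symm.trans h4⟩
      · right; exact ⟨h1.symm.trans h3, h2.symm.trans h4⟩
      · right; exact ⟨h2.symm.trans h4, h1.symm.trans h3⟩
      · left; exact ⟨h2.symm.trans h4, h1.symm.trans h3⟩
    rcases hcase with ⟨rfl, rfl⟩ | ⟨rfl, rfl⟩
    · have huu : u = u' := Units.ext (by rw [hu, hu'])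
      rw [huu] at heq
      have hss : s = s' := mul_right_cancel heq
      refine ⟨hss, ?_⟩
      rw [hss] at hi
      linear_combination hi - hi'
    · exfalso
      have huu : u = -u' := Units.ext (by rw [Units.val_neg, hu, hu']; ring)
      rw [huu, mul_neg, ← neg_mul] at heq
      have hss : -s = s' := mul_right_cancel heq
      have h5 := (mem_filter.mp hs).2.2
      have h6 := (mem_filter.mp hs').2.2
      rw [← hss] at h6
      rcases half_xor q hq2 s with ⟨_, h8⟩ | ⟨h7, _⟩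
      · exact h8 h6
      · exact h7 h5
  have hexist : ∀ y z : ZMod q, y ≠ z → ∃ s ∈ S, ∃ x, y ∈ D (s, x) ∧ z ∈ D (s, x) := by
    intro y z hyz
    have hd : y - z ≠ 0 := sub_ne_zero.mpr hyz
    let d : (ZMod q)ˣ := Units.mk0 (y - z) hd
    obtain ⟨p, hp⟩ := E.surjective (χ d)
    obtain ⟨δ, hδ1, hδ2⟩ := hb p.1.1 p.1.2 p.2
    have hg : χ (d * δ⁻¹) = 1 := by
      rw [map_mul, map_inv, hδ1, mul_inv_eq_one]; exact hp.symm
    have hgd : ((d * δ⁻¹ : (ZMod q)ˣ) : ZMod q) * (b p.1.2 - b p.1.1) = y - z := by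
      rw [← hδ2, ← Units.val_mul, inv_mul_cancel_right]; rfl
    rcases half_xor q hq2 (d * δ⁻¹) with ⟨h7, _⟩ | ⟨_, h8⟩
    · refine ⟨d * δ⁻¹, mem_filter.mpr ⟨mem_univ _, hg, h7⟩,
        y - ((d * δ⁻¹ : (ZMod q)ˣ) : ZMod q) * b p.1.2, ?_, ?_⟩
      · exact mem_image.mpr ⟨p.1.2, mem_univ _, add_sub_cancel _ _⟩
      · refine mem_image.mpr ⟨p.1.1, mem_univ _, ?_⟩
        linear_combination -hgd
    · refine ⟨-(d * δ⁻¹), mem_filter.mpr ⟨mem_univ _, by rw [hchineg]; exact hg, h8⟩,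
        y + ((d * δ⁻¹ : (ZMod q)ˣ) : ZMod q) * b p.1.1, ?_, ?_⟩
      · refine mem_image.mpr ⟨p.1.1, mem_univ _, ?_⟩
        simp only [Units.val_neg]
        ring
      · refine mem_image.mpr ⟨p.1.2, mem_univ _, ?_⟩
        simp only [Units.val_neg]
        linear_combination -hgd
  refine ⟨(S ×ˢ univ).image D, ?_, ?_⟩
  · intro c hc
    obtain ⟨sx, hsx, rfl⟩ := mem_image.mp hc
    simp only [D]
    rw [card_image_of_injective, card_univ, Fintype.card_fin]
    intro i j hij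
    apply hbinj
    have : (sx.1 : ZMod q) * b i = (sx.1 : ZMod q) * b j := by
      simpa using hij
    exact mul_left_cancel₀ sx.1.ne_zero this
  · intro T hT
    obtain ⟨y, z, hyz, rfl⟩ := card_eq_two.mp hT
    obtain ⟨s, hs, x, hy, hz⟩ := hexist y z hyz
    refine ⟨D (s, x), ⟨mem_image.mpr ⟨(s, x), mem_product.mpr ⟨hs, mem_univ _⟩, rfl⟩, ?_⟩, ?_⟩
    · intro t ht
      rcases mem_insert.mp ht with rfl | ht
      · exact hy
      · rw [mem_singleton.mp ht]; exact hz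
    · rintro c ⟨hc1, hc2⟩
      obtain ⟨⟨s', x'⟩, hsx', rfl⟩ := mem_image.mp hc1
      have hs' := (mem_product.mp hsx').1
      obtain ⟨h1, h2⟩ := huniq s x s' x' y z hs hs' hyz hy hz (hc2 (by simp)) (hc2 (by simp))
      rw [h1, h2]

/-- Infinitely many primes `q` carry an `S(2,k,q)`. -/
theorem exists_steiner_prime (k : ℕ) (hk : 2 ≤ k) (N : ℕ) :
    ∃ q : ℕ, q.Prime ∧ N < q ∧ ∃ B : Finset (Finset (ZMod q)), Steiner 2 k B := by
  classical
  let e := Fintype.card (Prs k)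
  have he : 0 < e := Fintype.card_pos_iff.mpr ⟨⟨(⟨0, by omega⟩, ⟨1, by omega⟩), by
    simp [Fin.lt_def]⟩⟩
  have : NeZero e := ⟨he.ne'⟩
  obtain ⟨N', hN'⟩ := embed (A := Multiplicative (ZMod e)) k 1 one_pos
  obtain ⟨q, hqp, hqN, hq1⟩ := Nat.exists_prime_gt_modEq_one (k := 2 * e) (max (max N N') 2)
    (by omega)
  have : Fact q.Prime := ⟨hqp⟩
  have hqN1 : N < q := lt_of_le_of_lt ((le_max_left N N').trans (le_max_left _ _)) hqN
  have hqN2 : N' < q := lt_of_le_of_lt ((le_max_right N N').trans (le_max_left _ _)) hqN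
  have hq2 : 2 < q := lt_of_le_of_lt (le_max_right _ _) hqN
  obtain ⟨χ, hχ, hneg⟩ := exists_char e q he hq1 hq2
  have hcardA : Fintype.card (Prs k) = Fintype.card (Multiplicative (ZMod e)) := by
    rw [Fintype.card_multiplicative, ZMod.card]
  let E : Prs k ≃ Multiplicative (ZMod e) := Fintype.equivOfCardEq hcardA
  obtain ⟨b, _, hb⟩ := hN' (ZMod q) (by rw [ZMod.card]; exact hqN2.le) χ hχ (fun _ => univ)
    (fun i => by rw [card_univ, one_mul])
    (fun i j => if h : i < j then E ⟨(i, j), h⟩ else 1)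
  exact ⟨q, hqp, hqN1, steiner_of_family hq2 χ hneg E b (fun i j h => by
    have := hb i j h
    rwa [dif_pos h] at this)⟩

end Pool.Agent.Work.MP_b59edb_co
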