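import Pool.Agent.Work.MP_b59edb_co.Moment

set_option autoImplicit false

/-!
Greedy embedding: in a large finite field one finds points with prescribed cosets of differences.
-/

namespace Pool.Agent.Work.MP_b59edb_co

open Finset

/-- `x` lies in the coset `a`. -/
def InC {F A : Type*} [Field F] [CommGroup A] (χ : Fˣ →* A) (a : A) (x : F) : Prop :=
  ∃ u : Fˣ, χ u = a ∧ (u : F) = x

section

variable {F : Type*} [Field F] [Fintype F] [DecidableEq F]
variable {A : Type*} [CommGroup A] [Fintype A] [DecidableEq A]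

lemma cnt_eq_card (χ : Fˣ →* A) (Y : Finset F) (a : A) (x : F) [DecidablePred (fun y => InC χ a (y - x))] :
    cnt χ Y a x = (Y.filter (fun y => InC χ a (y - x))).card := by
  unfold cnt
  apply card_bij (fun (u : Fˣ) _ => x + (u : F))
  · intro u hu
    obtain ⟨h1, h2⟩ := (mem_filter.mp hu).2
    rw [mem_filter]
    exact ⟨h2, u, h1, by ring⟩
  · intro u _ u' _ h
    exact Units.ext (add_left_cancel h)
  · intro y hy
    obtain ⟨h1, u, h2, h3⟩ := mem_filter.mp hy
    refine ⟨u, ?_, by rw [h3]; ring⟩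
    rw [mem_filter]
    refine ⟨mem_univ _, h2, ?_⟩
    rw [h3]
    simpa using h1

/-- number of exceptional `x` -/
lemma exceptional_le (χ : Fˣ →* A) (hχ : Function.Surjective χ) (Y : Finset F) (a : A)
    (c : ℝ) (hc : 0 < c) (hY : c * Fintype.card F ≤ Y.card) (hq : 2 ≤ Fintype.card F) :
    ((univ.filter (fun x : F => (cnt χ Y a x : ℝ) < c / (4 * Fintype.card A) * Fintype.card F)).card : ℝ)
      ≤ 16 * (Fintype.card A) ^ 2 / c := by
  obtain ⟨q, hqd⟩ : ∃ q : ℝ, q = Fintype.card F := ⟨_, rfl⟩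
  obtain ⟨h, hh⟩ : ∃ h : ℝ, h = ((univ.filter (fun g : Fˣ => χ g = 1)).card : ℝ) := ⟨_, rfl⟩
  obtain ⟨e, he⟩ : ∃ e : ℝ, e = Fintype.card A := ⟨_, rfl⟩
  obtain ⟨y, hy⟩ : ∃ y : ℝ, y = Y.card := ⟨_, rfl⟩
  have hvar := variance_le χ hχ Y a
  have hker := ker_card χ hχ
  rw [← hh, ← he, ← hqd] at hker
  rw [← hh, ← hqd, ← hy] at hvar
  rw [← hqd, ← hy] at hY
  rw [← hqd, ← he]
  have hq2 : 2 ≤ q := by rw [hqd]; exact_mod_cast hq
  have hq0 : 0 < q := by linarith
  have he0 : 1 ≤ e := by
    rw [he]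
    have : 1 ≤ Fintype.card A := Fintype.card_pos
    exact_mod_cast this
  have hepos : 0 < e := by linarith
  have hh0 : 0 < h := by
    by_contra hcon
    have : h * e ≤ 0 := mul_nonpos_of_nonpos_of_nonneg (not_lt.mp hcon) hepos.le
    linarith
  have hhq : q ≤ 2 * e * h := by nlinarith
  have hypos : 0 < y := lt_of_lt_of_le (by positivity) hY
  set S := univ.filter (fun x : F => (cnt χ Y a x : ℝ) < c / (4 * e) * q) with hS
  -- each x in S deviates by at least y h / (2 q)
  have hmu : c / (4 * e) * q ≤ y * h / q / 2 := by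
    have h1 : c / (4 * e) * q = c * q / (4 * e) := by ring
    have h2 : y * h / q / 2 = y * h / (2 * q) := by field_simp
    rw [h1, h2, div_le_div_iff₀ (by positivity) (by positivity)]
    calc c * q * (2 * q) ≤ y * (2 * q) := mul_le_mul_of_nonneg_right hY (by positivity)
      _ ≤ y * (2 * (2 * e * h)) := by
          apply mul_le_mul_of_nonneg_left _ hypos.le
          linarith
      _ = y * h * (4 * e) := by ring
  have h1 : (S.card : ℝ) * (y * h / q / 2) ^ 2 ≤ q * y := by
    refine le_trans ?_ hvar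
    rw [← nsmul_eq_mul, ← sum_const]
    refine le_trans (sum_le_sum ?_) (sum_le_sum_of_subset_of_nonneg (subset_univ S)
      (fun x _ _ => sq_nonneg _))
    intro x hx
    have h2 := (mem_filter.mp hx).2
    have h3 : (0 : ℝ) ≤ cnt χ Y a x := by positivity
    have h4 : 0 < y * h / q := by positivity
    nlinarith
  -- conclude
  have h2 : (S.card : ℝ) * (y * h ^ 2) ≤ 4 * q ^ 3 := by
    have e1 : (S.card : ℝ) * (y * h / q / 2) ^ 2 = ((S.card : ℝ) * (y * h ^ 2)) * (y / (4 * q ^ 2)) := by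
      field_simp; ring
    have e2 : q * y = (4 * q ^ 3) * (y / (4 * q ^ 2)) := by field_simp
    rw [e1, e2] at h1
    exact le_of_mul_le_mul_right h1 (by positivity)
  have hS0 : (0 : ℝ) ≤ S.card := by positivity
  rw [le_div_iff₀ hc]
  -- S c ≤ 16 e^2:  S * c q * (q/(2e))^2 ≤ S y h^2 ≤ 4 q^3
  have h3 : (S.card : ℝ) * ((c * q) * (q / (2 * e)) ^ 2) ≤ 4 * q ^ 3 := by
    refine le_trans ?_ h2
    apply mul_le_mul_of_nonneg_left _ hS0
    apply mul_le_mul hY _ (by positivity) hypos.le
    apply pow_le_pow_left₀ (by positivity)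
    rw [div_le_iff₀ (by positivity)]
    linarith
  have e3 : (S.card : ℝ) * ((c * q) * (q / (2 * e)) ^ 2) = ((S.card : ℝ) * c) * (q ^ 3 / (4 * e ^ 2)) := by
    field_simp; ring
  have e4 : 4 * q ^ 3 = (16 * e ^ 2) * (q ^ 3 / (4 * e ^ 2)) := by field_simp; ring
  rw [e3, e4] at h3
  exact le_of_mul_le_mul_right h3 (by positivity)

end

/-- Greedy embedding lemma. -/
lemma embed {A : Type} [CommGroup A] [Fintype A] [DecidableEq A] (n : ℕ) :
    ∀ c : ℝ, 0 < c → ∃ N : ℕ, ∀ (F : Type) [Field F] [Fintype F] [DecidableEq F],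
      N ≤ Fintype.card F → ∀ χ : Fˣ →* A, Function.Surjective χ →
      ∀ Y : Fin n → Finset F, (∀ i, c * Fintype.card F ≤ (Y i).card) →
      ∀ a : Fin n → Fin n → A, ∃ b : Fin n → F, (∀ i, b i ∈ Y i) ∧
        ∀ i j, i < j → InC χ (a i j) (b j - b i) := by
  classical
  induction n with
  | zero =>
    intro c _
    exact ⟨0, fun F _ _ _ _ χ _ Y _ a => ⟨fun i => Fin.elim0 i, fun i => Fin.elim0 i,
      fun i => Fin.elim0 i⟩⟩
  | succ n ih =>
    intro c hc
    obtain ⟨e, he⟩ : ∃ e : ℝ, e = Fintype.card A := ⟨_, rfl⟩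
    have he0 : 0 < e := by
      rw [he]
      have : 0 < Fintype.card A := Fintype.card_pos
      exact_mod_cast this
    obtain ⟨N, hN⟩ := ih (c / (4 * e)) (by positivity)
    refine ⟨max (max N 2) (⌈16 * e ^ 2 * n / c ^ 2⌉₊ + 1), ?_⟩
    intro F _ _ _ hF χ hχ Y hY a
    have hF1 : N ≤ Fintype.card F := (le_max_left N 2).trans ((le_max_left _ _).trans hF)
    have hF2 : 2 ≤ Fintype.card F := (le_max_right N 2).trans ((le_max_left _ _).trans hF)
    have hF3 : 16 * e ^ 2 * n / c ^ 2 < Fintype.card F := by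
      have h1 : ⌈16 * e ^ 2 * n / c ^ 2⌉₊ + 1 ≤ Fintype.card F := (le_max_right _ _).trans hF
      have h2 : (⌈16 * e ^ 2 * n / c ^ 2⌉₊ : ℝ) + 1 ≤ Fintype.card F := by exact_mod_cast h1
      have h3 := Nat.le_ceil (16 * e ^ 2 * n / c ^ 2)
      linarith
    -- exceptional set
    let bad : Fin n → Finset F := fun j => univ.filter (fun x : F =>
      (cnt χ (Y j.succ) (a 0 j.succ) x : ℝ) < c / (4 * Fintype.card A) * Fintype.card F)
    have hbad : ∀ j, ((bad j).card : ℝ) ≤ 16 * e ^ 2 / c := by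
      intro j
      rw [he]
      exact exceptional_le χ hχ (Y j.succ) (a 0 j.succ) c hc (hY j.succ) hF2
    have hex : ∃ x ∈ Y 0, x ∉ univ.biUnion bad := by
      by_contra hcon
      push Not at hcon
      have h1 : Y 0 ⊆ univ.biUnion bad := fun x hx => hcon x hx
      have h2 := (card_le_card h1).trans card_biUnion_le
      have h3 : ((Y 0).card : ℝ) ≤ ∑ j : Fin n, ((bad j).card : ℝ) := by exact_mod_cast h2
      have h4 : ∑ j : Fin n, ((bad j).card : ℝ) ≤ n * (16 * e ^ 2 / c) := by
        refine (sum_le_sum (fun j _ => hbad j)).trans ?_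
        rw [sum_const, card_univ, Fintype.card_fin, nsmul_eq_mul]
      have h5 := (hY 0).trans (h3.trans h4)
      rw [div_lt_iff₀ (by positivity)] at hF3
      have h6 : c * Fintype.card F * c ≤ n * (16 * e ^ 2) := by
        have : n * (16 * e ^ 2 / c) * c = n * (16 * e ^ 2) := by field_simp
        rw [← this]
        exact mul_le_mul_of_nonneg_right h5 hc.le
      nlinarith
    obtain ⟨x, hx0, hx⟩ := hex
    have hx' : ∀ j : Fin n, c / (4 * e) * Fintype.card F ≤ (cnt χ (Y j.succ) (a 0 j.succ) x : ℝ) := by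
      intro j
      by_contra hcon
      push Not at hcon
      apply hx
      rw [mem_biUnion]
      refine ⟨j, mem_univ _, mem_filter.mpr ⟨mem_univ _, ?_⟩⟩
      rw [← he]
      exact hcon
    obtain ⟨b, hb1, hb2⟩ := hN F hF1 χ hχ
      (fun j => (Y j.succ).filter (fun y => InC χ (a 0 j.succ) (y - x)))
      (by
        intro j
        have h1 := hx' j
        rw [cnt_eq_card] at h1
        exact h1)
      (fun i j => a i.succ j.succ)
    refine ⟨Fin.cons x b, ?_, ?_⟩
    · intro i
      refine Fin.cases ?_ ?_ i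
      · exact hx0
      · intro j
        rw [Fin.cons_succ]
        exact (mem_filter.mp (hb1 j)).1
    · intro i j
      refine Fin.cases ?_ ?_ i
      · refine Fin.cases ?_ ?_ j
        · intro h; exact absurd h (lt_irrefl _)
        · intro j _
          rw [Fin.cons_succ, Fin.cons_zero]
          exact (mem_filter.mp (hb1 j)).2
      · intro i
        refine Fin.cases ?_ ?_ j
        · intro h; exact absurd h (Fin.not_lt_zero _)
        · intro j hij
          rw [Fin.cons_succ, Fin.cons_succ]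
          exact hb2 i j (Fin.succ_lt_succ_iff.mp hij)

end Pool.Agent.Work.MP_b59edb_co
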