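import Pool.Agent.Work.MP_b59edb_co.Union

set_option autoImplicit false

/-!
Failure probability on a good line, Chebyshev counts of good lines, and the resulting
existence of good relabellings.
-/

namespace Pool.Agent.Work.MP_b59edb_co

open Finset

/-- index type of the `n + 2` target sets: `none` is the outside set, `some none` the set `W`,
`some (some i)` the transversals. -/
abbrev Idx (n : ℕ) := Option (Option (Fin n))

lemma card_idx (n : ℕ) : Fintype.card (Idx n) = n + 2 := by simp [Idx]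

variable {Q : Type*} [Fintype Q] [DecidableEq Q]

lemma one_line_idx {t n : ℕ} {B : Finset (Finset Q)} (hB : Steiner t (n + 2) B) (htk : t ≤ n + 2)
    (A : Idx n → Finset Q) (hA : ∀ i j, i ≠ j → Disjoint (A i) (A j))
    (hpos : ∀ i, 1 ≤ (A i).card) (hw : 4 * (n + 2) ≤ Fintype.card Q)
    (hM : 2 * 4 ^ (n + 2) * ∏ i, (A i).card ≤ (Fintype.card Q) ^ (n + 2 - t)) :
    B.card * ((∏ i, (A i).card) * (Fintype.card Q - (n + 2)).factorial) ≤
      2 * (univ.filter (fun π : Equiv.Perm Q => ∃ b ∈ B, ∀ i, ∃ x ∈ b, π x ∈ A i)).card := by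
  let e : Fin (n + 2) ≃ Idx n := (Fintype.equivFinOfCardEq (card_idx n)).symm
  have hprod : ∏ i : Fin (n + 2), (A (e i)).card = ∏ j : Idx n, (A j).card :=
    Equiv.prod_comp e (fun j => (A j).card)
  have h := one_line hB htk (fun i => A (e i)) (fun i j hij => hA _ _ (fun h => hij (e.injective h)))
    (fun i => hpos _) (by omega) hw (by rw [hprod]; exact hM)
  rw [hprod] at h
  refine h.trans (Nat.mul_le_mul_left _ (card_le_card ?_))
  intro π hπ
  simp only [mem_filter, mem_univ, true_and] at hπ ⊢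
  obtain ⟨b, hb, h2⟩ := hπ
  refine ⟨b, hb, fun j => ?_⟩
  obtain ⟨x, hx, hx2⟩ := h2 (e.symm j)
  exact ⟨x, hx, by simpa using hx2⟩

/-- The labelings for which a relabelled copy fails to have a good block. -/
def FailSet {n : ℕ} (B : Finset (Finset Q)) (c : Q → Option (Idx n)) : Finset (Equiv.Perm Q) :=
  by
    classical
    exact univ.filter (fun π => ¬ ∃ b ∈ B, ∀ j : Idx n, ∃ x ∈ b, c (π x) = some j)

/-- Failure probability on a good line. -/
lemma fail_le {t n : ℕ} {B : Finset (Finset Q)} (hB : Steiner t (n + 2) B) (htk : t ≤ n + 2)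
    (c : Q → Option (Idx n)) (a w0 : ℕ) (ha : 1 ≤ a) (hw0 : 1 ≤ w0)
    (hT : ∀ i : Fin n, a ≤ (univ.filter (fun s => c s = some (some (some i)))).card)
    (hW : w0 ≤ (univ.filter (fun s => c s = some (some none))).card)
    (hY : Fintype.card Q ≤ 2 * (univ.filter (fun s => c s = some none)).card)
    (hw : 4 * (n + 2) ≤ Fintype.card Q)
    (hM : 2 * 4 ^ (n + 2) * (a ^ n * w0 * Fintype.card Q) ≤ (Fintype.card Q) ^ (n + 2 - t)) :
    ((FailSet B c).card : ℝ) ≤ (Fintype.card Q).factorial *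
      (1 - (a : ℝ) ^ n * w0 * Fintype.card Q /
        (4 * (2 * (n + 2 : ℝ)) ^ t * (Fintype.card Q : ℝ) ^ (n + 2 - t))) := by
  classical
  obtain ⟨w, hwdef⟩ : ∃ w, w = Fintype.card Q := ⟨_, rfl⟩
  have hex : ∀ j : Idx n, ∃ A : Finset Q, A ⊆ univ.filter (fun s => c s = some j) ∧
      (match j with
        | none => A = univ.filter (fun s => c s = some none)
        | some none => A.card = w0
        | some (some _) => A.card = a) := by
    intro j
    match j with
    | none => exact ⟨_, Subset.rfl, rfl⟩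
    | some none => exact exists_subset_card_eq hW
    | some (some i) => exact exists_subset_card_eq (hT i)
  choose A hAsub hAcard using hex
  have hY1 : (A none) = univ.filter (fun s => c s = some none) := hAcard none
  have hW1 : (A (some none)).card = w0 := hAcard (some none)
  have hT1 : ∀ i, (A (some (some i))).card = a := fun i => hAcard (some (some i))
  obtain ⟨y, hy⟩ : ∃ y, y = (A none).card := ⟨_, rfl⟩
  have hyw : Fintype.card Q ≤ 2 * y := by rw [hy, hY1]; exact hY
  have hyw' : y ≤ Fintype.card Q := by rw [hy]; exact card_le_univ _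
  have hprod : ∏ j : Idx n, (A j).card = y * (w0 * a ^ n) := by
    rw [Fintype.prod_option, Fintype.prod_option, hW1, ← hy]
    simp only [hT1, prod_const, card_univ, Fintype.card_fin]
  have hdisj : ∀ i j : Idx n, i ≠ j → Disjoint (A i) (A j) := by
    intro i j hij
    rw [disjoint_left]
    intro s hs hs'
    have h1 := (mem_filter.mp (hAsub i hs)).2
    have h2 := (mem_filter.mp (hAsub j hs')).2
    rw [h1] at h2
    exact hij (Option.some.inj h2)
  have hpos : ∀ j : Idx n, 1 ≤ (A j).card := by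
    intro j
    match j with
    | none => rw [← hy]; omega
    | some none => rw [hW1]; exact hw0
    | some (some i) => rw [hT1]; exact ha
  have hline := one_line_idx hB htk A hdisj hpos hw (by
    rw [hprod]
    refine le_trans (Nat.mul_le_mul_left _ ?_) hM
    calc y * (w0 * a ^ n) ≤ Fintype.card Q * (w0 * a ^ n) := Nat.mul_le_mul_right _ hyw'
      _ = a ^ n * w0 * Fintype.card Q := by ring)
  rw [hprod, ← hwdef] at hline
  -- success set
  have hsucc : (univ.filter (fun π : Equiv.Perm Q => ∃ b ∈ B, ∀ i, ∃ x ∈ b, π x ∈ A i)).card +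
      (FailSet B c).card ≤ w.factorial := by
    rw [hwdef, ← Fintype.card_perm, ← card_univ, ← card_union_of_disjoint]
    · exact card_le_card (subset_univ _)
    · rw [disjoint_left]
      intro π h1 h2
      simp only [mem_filter, mem_univ, true_and, FailSet] at h1 h2
      apply h2
      obtain ⟨b, hb, h3⟩ := h1
      refine ⟨b, hb, fun j => ?_⟩
      obtain ⟨x, hx, hx2⟩ := h3 j
      exact ⟨x, hx, (mem_filter.mp (hAsub j hx2)).2⟩
  have hbl := card_blocks_ge' hB (by omega : 2 * t ≤ Fintype.card Q)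
  rw [← hwdef] at hbl hyw hyw' hw ⊢
  have hfact : w.factorial ≤ (w - (n + 2)).factorial * w ^ (n + 2) := by
    rw [← Nat.factorial_mul_descFactorial (by omega : n + 2 ≤ w)]
    exact Nat.mul_le_mul_left _ (Nat.descFactorial_le_pow _ _)
  -- now real arithmetic
  have hw0' : (0 : ℝ) < w := by
    have : 0 < w := by omega
    exact_mod_cast this
  have h1 : (B.card : ℝ) * ((y * (w0 * a ^ n)) * (w - (n + 2)).factorial) ≤
      2 * ((univ.filter (fun π : Equiv.Perm Q => ∃ b ∈ B, ∀ i, ∃ x ∈ b, π x ∈ A i)).card : ℝ) := by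
    exact_mod_cast hline
  have h2 : ((univ.filter (fun π : Equiv.Perm Q => ∃ b ∈ B, ∀ i, ∃ x ∈ b, π x ∈ A i)).card : ℝ) +
      ((FailSet B c).card : ℝ) ≤ w.factorial := by exact_mod_cast hsucc
  have h3 : (w : ℝ) ^ t ≤ B.card * (2 * (n + 2 : ℝ)) ^ t := by exact_mod_cast hbl
  have h4 : (w.factorial : ℝ) ≤ (w - (n + 2)).factorial * (w : ℝ) ^ (n + 2) := by
    exact_mod_cast hfact
  have h5 : (w : ℝ) ≤ 2 * y := by exact_mod_cast hyw
  have hk0 : (0 : ℝ) < (2 * (n + 2 : ℝ)) ^ t := by positivity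
  have ha0 : (0 : ℝ) < a := by exact_mod_cast ha
  have hw00 : (0 : ℝ) < w0 := by exact_mod_cast hw0
  have hpow : (w : ℝ) ^ (n + 2) = (w : ℝ) ^ t * (w : ℝ) ^ (n + 2 - t) := by
    rw [← pow_add]; congr 1; omega
  have hpt : (0 : ℝ) < (w : ℝ) ^ (n + 2 - t) := by positivity
  -- key: w! * (a^n w0 w) ≤ 2 * succ * (2 (2k)^t w^(k-t)) 
  have hkey : (w.factorial : ℝ) * ((a : ℝ) ^ n * w0 * w) ≤
      ((B.card : ℝ) * ((y * (w0 * a ^ n)) * (w - (n + 2)).factorial)) *
        (2 * (2 * (n + 2 : ℝ)) ^ t * (w : ℝ) ^ (n + 2 - t)) := by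
    have e1 : (w.factorial : ℝ) ≤ (w - (n + 2)).factorial *
        ((B.card * (2 * (n + 2 : ℝ)) ^ t) * (w : ℝ) ^ (n + 2 - t)) := by
      refine h4.trans ?_
      rw [hpow]
      apply mul_le_mul_of_nonneg_left _ (by positivity)
      exact mul_le_mul_of_nonneg_right h3 hpt.le
    calc (w.factorial : ℝ) * ((a : ℝ) ^ n * w0 * w)
        ≤ ((w - (n + 2)).factorial *
            ((B.card * (2 * (n + 2 : ℝ)) ^ t) * (w : ℝ) ^ (n + 2 - t))) *
            ((a : ℝ) ^ n * w0 * (2 * y)) := by
          apply mul_le_mul e1 _ (by positivity) (by positivity)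
          exact mul_le_mul_of_nonneg_left h5 (by positivity)
      _ = _ := by ring
  have hden : (0 : ℝ) < 4 * (2 * (n + 2 : ℝ)) ^ t * (w : ℝ) ^ (n + 2 - t) := by positivity
  have hfrac : (w.factorial : ℝ) * ((a : ℝ) ^ n * w0 * w /
      (4 * (2 * (n + 2 : ℝ)) ^ t * (w : ℝ) ^ (n + 2 - t))) ≤
      ((univ.filter (fun π : Equiv.Perm Q => ∃ b ∈ B, ∀ i, ∃ x ∈ b, π x ∈ A i)).card : ℝ) := by
    rw [← mul_div_assoc, div_le_iff₀ hden]
    refine hkey.trans ?_
    calc ((B.card : ℝ) * ((y * (w0 * a ^ n)) * (w - (n + 2)).factorial)) *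
        (2 * (2 * (n + 2 : ℝ)) ^ t * (w : ℝ) ^ (n + 2 - t))
        ≤ (2 * ((univ.filter (fun π : Equiv.Perm Q => ∃ b ∈ B, ∀ i, ∃ x ∈ b, π x ∈ A i)).card : ℝ)) *
        (2 * (2 * (n + 2 : ℝ)) ^ t * (w : ℝ) ^ (n + 2 - t)) :=
          mul_le_mul_of_nonneg_right h1 (by positivity)
      _ = _ := by ring
  rw [mul_sub, mul_one]
  linarith

end Pool.Agent.Work.MP_b59edb_co
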