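import Pool.Agent.Work.MP_b59edb_co.HostThm

set_option autoImplicit false

namespace Pool.Agent.Work.MP_b59edb_co

open Finset

lemma nat_div_half {a b : ℕ} (hb : 0 < b) (hab : b ≤ a) : (a : ℝ) ≤ 2 * b * ((a / b : ℕ) : ℝ) := by
  have h1 : 1 ≤ a / b := (Nat.one_le_div_iff hb).mpr hab
  have h2 : a < b * (a / b + 1) := Nat.lt_mul_div_succ a hb
  have h3 : a ≤ 2 * b * (a / b) := by nlinarith
  exact_mod_cast h3

/-- Case A of the exponent estimate. -/
lemma expo_caseA {n t : ℕ} (htn : t ≤ n + 1) {a w0 w v L W τ D lg : ℝ}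
    (ha : 0 < a) (hw0 : 0 < w0) (hw : 0 < w) (hv : 0 < v) (hW : 0 ≤ W) (hτ : 0 ≤ τ)
    (hD : 0 < D) (hlg : 0 ≤ lg)
    (h1 : w * τ ≤ 4 * v * a) (h2 : w * W ≤ 4 * v * w0) (hLv : v ^ t ≤ L * w ^ t)
    (hR1 : 32 * 4 ^ n * D * (n + 1) * v ^ (n + 1 - t) * lg ≤ τ ^ n) :
    (n + 1) * W * lg * (8 * D * w ^ (n + 2 - t)) ≤ a ^ n * w0 * w * L := by
  have hpos : 0 < 4 ^ (n + 1) * v ^ (n + 1 - t) * w ^ t := by positivity
  rw [← mul_le_mul_iff_left₀ hpos]
  have e1 : w ^ (n + 2 - t) * w ^ t = w ^ (n + 2) := by rw [← pow_add]; congr 1; omega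
  have e2 : v ^ (n + 1 - t) * v ^ t = v ^ (n + 1) := by rw [← pow_add]; congr 1; omega
  have e3 : (w * τ) ^ n ≤ (4 * v * a) ^ n := pow_le_pow_left₀ (by positivity) h1 n
  calc (n + 1) * W * lg * (8 * D * w ^ (n + 2 - t)) * (4 ^ (n + 1) * v ^ (n + 1 - t) * w ^ t)
      = (32 * 4 ^ n * D * (n + 1) * v ^ (n + 1 - t) * lg) * (W * (w ^ (n + 2 - t) * w ^ t)) := by
        rw [pow_succ]; ring
    _ ≤ τ ^ n * (W * (w ^ (n + 2 - t) * w ^ t)) :=
        mul_le_mul_of_nonneg_right hR1 (by positivity)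
    _ = (w * τ) ^ n * ((w * W) * w) := by
        rw [e1, mul_pow, pow_add w n 2]; ring
    _ ≤ (4 * v * a) ^ n * ((4 * v * w0) * w) := by
        apply mul_le_mul e3 _ (by positivity) (by positivity)
        exact mul_le_mul_of_nonneg_right h2 hw.le
    _ = a ^ n * w0 * w * 4 ^ (n + 1) * (v ^ (n + 1 - t) * v ^ t) := by
        rw [e2, mul_pow, mul_pow, pow_succ v n, pow_succ (4 : ℝ) n]; ring
    _ ≤ a ^ n * w0 * w * 4 ^ (n + 1) * (v ^ (n + 1 - t) * (L * w ^ t)) := by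
        apply mul_le_mul_of_nonneg_left _ (by positivity)
        exact mul_le_mul_of_nonneg_left hLv (by positivity)
    _ = a ^ n * w0 * w * L * (4 ^ (n + 1) * v ^ (n + 1 - t) * w ^ t) := by ring

/-- Case B of the exponent estimate. -/
lemma expo_caseB {n t : ℕ} {a w0 w L D lg u umax : ℝ}
    (ha : 0 < a) (hw0 : 0 < w0) (hw : 0 < w) (hD : 0 < D) (hlg : 0 ≤ lg) (hu : 0 ≤ u)
    (huu : u ≤ umax)
    (h2 : w ^ (n + 2 - t) ≤ 4 * 4 ^ (n + 2) * (a ^ n * w) * w0)
    (hR2 : 32 * 4 ^ (n + 2) * D * umax * lg ≤ L) :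
    u * lg * (8 * D * w ^ (n + 2 - t)) ≤ a ^ n * w0 * w * L := by
  calc u * lg * (8 * D * w ^ (n + 2 - t))
      ≤ u * lg * (8 * D * (4 * 4 ^ (n + 2) * (a ^ n * w) * w0)) := by
        apply mul_le_mul_of_nonneg_left _ (by positivity)
        exact mul_le_mul_of_nonneg_left h2 (by positivity)
    _ = (a ^ n * w0 * w) * (32 * 4 ^ (n + 2) * D * u * lg) := by ring
    _ ≤ (a ^ n * w0 * w) * (32 * 4 ^ (n + 2) * D * umax * lg) := by
        apply mul_le_mul_of_nonneg_left _ (by positivity)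
        apply mul_le_mul_of_nonneg_right _ hlg
        exact mul_le_mul_of_nonneg_left huu (by positivity)
    _ ≤ (a ^ n * w0 * w) * L := mul_le_mul_of_nonneg_left hR2 (by positivity)

variable {X Q L : Type*} [Fintype X] [Fintype Q] [Fintype L] [DecidableEq X] [DecidableEq Q]
  [DecidableEq L]

lemma nn_cls {n : ℕ} (ρ : L → Q → X) (c : X → Option (Idx n)) (l : L) (j : Idx n) :
    NN ρ l (cls c j) = (univ.filter (fun s => (fun s => c (ρ l s)) s = some j)).card := by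
  unfold NN cls
  congr 1
  ext s
  simp

lemma nn_inU {n : ℕ} (ρ : L → Q → X) (c : X → Option (Idx n)) (l : L) :
    NN ρ l (inU c) + (univ.filter (fun s => (fun s => c (ρ l s)) s = some none)).card =
      Fintype.card Q := by
  unfold NN inU
  have := Finset.card_filter_add_card_filter_not (s := (univ : Finset Q))
    (fun s => c (ρ l s) = some none)
  rw [card_univ] at this
  rw [← this, add_comm]
  congr 2
  ext s
  simp

lemma config_fail {ρ : L → Q → X} (hvar : HostVar ρ) {t n : ℕ} {B : Finset (Finset Q)}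
    (hB : Steiner t (n + 2) B) (htn : t ≤ n + 1) (τ umax a : ℕ)
    (hX : 0 < Fintype.card X) (h16 : 16 ≤ Fintype.card Q) (hkw : 4 * (n + 2) ≤ Fintype.card Q)
    (hτ : 16 * (n + 1) * Fintype.card X ≤ Fintype.card Q * τ)
    (hu : 4 * umax ≤ Fintype.card X) (ha1 : 1 ≤ a)
    (ha : 2 * Fintype.card X * a ≤ Fintype.card Q * τ)
    (ha2 : Fintype.card Q * τ ≤ 4 * Fintype.card X * a)
    (hK : 2 * 4 ^ (n + 2) * (a ^ n * Fintype.card Q) ≤ Fintype.card Q ^ (n + 2 - t))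
    (hLv : (Fintype.card X : ℝ) ^ t ≤ Fintype.card L * (Fintype.card Q : ℝ) ^ t)
    (hR1 : 32 * 4 ^ n * (2 * (n + 2 : ℝ)) ^ t * (n + 1) * (Fintype.card X : ℝ) ^ (n + 1 - t) *
      Real.log (4 * (n + 3) * Fintype.card X) ≤ (τ : ℝ) ^ n)
    (hR2 : 32 * 4 ^ (n + 2) * (2 * (n + 2 : ℝ)) ^ t * umax *
      Real.log (4 * (n + 3) * Fintype.card X) ≤ Fintype.card L)
    (c : X → Option (Idx n)) (hc : Valid τ umax c) :
    (∏ l, ((FailSet B (fun s => c (ρ l s))).card : ℝ)) ≤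
      (Fintype.card (Equiv.Perm Q) : ℝ) ^ Fintype.card L *
      (1 / (4 * (Fintype.card (Option (Idx n)) : ℝ) * Fintype.card X)) ^
        (univ.filter (fun x => c x ≠ some none)).card := by
  classical
  have hgood := good_count hvar hc hX h16 hτ hu
  obtain ⟨hc1, hc2, hc3, hc4⟩ := hc
  obtain ⟨w, hw⟩ : ∃ w, w = Fintype.card Q := ⟨_, rfl⟩
  obtain ⟨v, hv⟩ : ∃ v, v = Fintype.card X := ⟨_, rfl⟩
  obtain ⟨W, hWd⟩ : ∃ W, W = (cls c (some none)).card := ⟨_, rfl⟩
  obtain ⟨u, hud⟩ : ∃ u, u = (inU c).card := ⟨_, rfl⟩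
  rw [← hWd] at hc2 hc3
  rw [← hud] at hc3 hc4
  have hcardY : (Fintype.card (Option (Idx n)) : ℝ) = n + 3 := by
    simp only [Idx, Fintype.card_option, Fintype.card_fin]; push_cast; ring
  have hUeq : (univ.filter (fun x => c x ≠ some none)).card = u := by rw [hud]; rfl
  rw [hcardY, hUeq, Fintype.card_perm]
  rw [← hw] at h16 hkw hτ ha ha2 hK hLv ⊢
  rw [← hv] at hX hτ hu ha ha2 hLv hR1 hR2 ⊢
  -- the number w0
  have hwW : 2 * v ≤ w * W := by
    calc 2 * v = 2 * v * 1 := by ring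
      _ ≤ 2 * v * a := Nat.mul_le_mul_left _ ha1
      _ ≤ w * τ := ha
      _ ≤ w * W := Nat.mul_le_mul_left _ hc2
  have hw1 : 0 < w := by omega
  have hden : 0 < 2 * 4 ^ (n + 2) * (a ^ n * w) := by positivity
  obtain ⟨w0, hw0d⟩ : ∃ w0, w0 = min (w * W / (2 * v)) (w ^ (n + 2 - t) /
    (2 * 4 ^ (n + 2) * (a ^ n * w))) := ⟨_, rfl⟩
  have hw01 : 1 ≤ w0 := by
    rw [hw0d]
    apply le_min
    · exact (Nat.one_le_div_iff (by omega)).mpr hwW
    · exact (Nat.one_le_div_iff hden).mpr hK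
  have hw0M : 2 * 4 ^ (n + 2) * (a ^ n * w0 * w) ≤ w ^ (n + 2 - t) := by
    have h1 : w0 ≤ w ^ (n + 2 - t) / (2 * 4 ^ (n + 2) * (a ^ n * w)) := by
      rw [hw0d]; exact min_le_right _ _
    calc 2 * 4 ^ (n + 2) * (a ^ n * w0 * w) = w0 * (2 * 4 ^ (n + 2) * (a ^ n * w)) := by ring
      _ ≤ (w ^ (n + 2 - t) / (2 * 4 ^ (n + 2) * (a ^ n * w))) * (2 * 4 ^ (n + 2) * (a ^ n * w)) :=
          Nat.mul_le_mul_right _ h1
      _ ≤ w ^ (n + 2 - t) := Nat.div_mul_le_self _ _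
  -- real p
  obtain ⟨D, hD⟩ : ∃ D : ℝ, D = (2 * (n + 2 : ℝ)) ^ t := ⟨_, rfl⟩
  have hD0 : 0 < D := by rw [hD]; positivity
  rw [← hD] at hR1 hR2
  obtain ⟨lg, hlgd⟩ : ∃ lg : ℝ, lg = Real.log (4 * (n + 3) * v) := ⟨_, rfl⟩
  rw [← hlgd] at hR1 hR2
  have hvR : (0 : ℝ) < v := by exact_mod_cast hX
  have hwR : (0 : ℝ) < w := by exact_mod_cast hw1
  have haR : (0 : ℝ) < a := by exact_mod_cast ha1
  have hw0R : (0 : ℝ) < w0 := by exact_mod_cast hw01
  have hv1 : (1 : ℝ) ≤ v := by exact_mod_cast hX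
  have hbig : (1 : ℝ) ≤ 4 * (n + 3) * v := by
    have : (0 : ℝ) ≤ n := by positivity
    nlinarith
  have hlg0 : 0 ≤ lg := by rw [hlgd]; exact Real.log_nonneg hbig
  obtain ⟨p, hp⟩ : ∃ p : ℝ, p = (a : ℝ) ^ n * w0 * w / (4 * D * (w : ℝ) ^ (n + 2 - t)) := ⟨_, rfl⟩
  have hp0 : 0 ≤ p := by rw [hp]; positivity
  -- failure bound on good lines
  have hfail : ∀ l ∈ Good ρ c, ((FailSet B (fun s => c (ρ l s))).card : ℝ) ≤
      w.factorial * Real.exp (-p) := by
    intro l hl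
    obtain ⟨hl1, hl2⟩ := (mem_filter.mp hl).2
    have h1 := fail_le hB (by omega) (fun s => c (ρ l s)) a w0 ha1 hw01
      (by
        intro i
        rw [← nn_cls]
        have h2 := hl1 (some i)
        have h3 := hc1 i
        rw [← hv, ← hw] at h2
        have h4 : 2 * v * a ≤ 2 * v * NN ρ l (cls c (some (some i))) :=
          ha.trans ((Nat.mul_le_mul_left _ h3).trans h2)
        exact Nat.le_of_mul_le_mul_left h4 (by omega))
      (by
        rw [← nn_cls]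
        have h2 := hl1 none
        rw [← hv, ← hw, ← hWd] at h2
        have h3 : w0 ≤ w * W / (2 * v) := by rw [hw0d]; exact min_le_left _ _
        exact h3.trans (Nat.div_le_of_le_mul h2))
      (by
        have h2 := nn_inU ρ c l
        beta_reduce at h2 ⊢
        omega)
      (by rw [← hw]; exact hkw)
      (by rw [← hw]; exact hw0M)
    rw [← hw, ← hD, ← hp] at h1
    refine h1.trans ?_
    apply mul_le_mul_of_nonneg_left _ (by positivity)
    have := Real.add_one_le_exp (-p)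
    linarith
  have hall : ∀ l : L, ((FailSet B (fun s => c (ρ l s))).card : ℝ) ≤
      w.factorial * (if l ∈ Good ρ c then Real.exp (-p) else 1) := by
    intro l
    by_cases hl : l ∈ Good ρ c
    · rw [if_pos hl]; exact hfail l hl
    · rw [if_neg hl, mul_one]
      have : (FailSet B (fun s => c (ρ l s))).card ≤ w.factorial := by
        rw [hw, ← Fintype.card_perm]; exact card_le_univ _
      exact_mod_cast this
  have hprod : (∏ l, ((FailSet B (fun s => c (ρ l s))).card : ℝ)) ≤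
      ∏ l : L, ((w.factorial : ℝ) * (if l ∈ Good ρ c then Real.exp (-p) else 1)) :=
    prod_le_prod (fun l _ => by positivity) (fun l _ => hall l)
  refine hprod.trans ?_
  rw [prod_mul_distrib, prod_const, card_univ]
  apply mul_le_mul_of_nonneg_left _ (by positivity)
  rw [prod_ite_mem, univ_inter, prod_const, ← Real.exp_nat_mul]
  -- compare exponents
  have hrhs : (1 / (4 * ((n : ℝ) + 3) * v)) ^ u = Real.exp (-(u * lg)) := by
    rw [one_div, inv_pow, Real.exp_neg, Real.exp_nat_mul, hlgd, Real.exp_log (by positivity)]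
  rw [hrhs, Real.exp_le_exp]
  have hkey : (u : ℝ) * lg * (8 * D * (w : ℝ) ^ (n + 2 - t)) ≤
      (a : ℝ) ^ n * w0 * w * Fintype.card L := by
    have huW : (u : ℝ) ≤ (n + 1) * W := by exact_mod_cast hc3
    rcases le_total (w * W / (2 * v)) (w ^ (n + 2 - t) / (2 * 4 ^ (n + 2) * (a ^ n * w))) with h | h
    · have hw0e : w0 = w * W / (2 * v) := by rw [hw0d]; exact min_eq_left h
      have h2 : (w : ℝ) * W ≤ 4 * v * w0 := by
        have := nat_div_half (by omega : 0 < 2 * v) hwW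
        rw [← hw0e] at this
        push_cast at this
        linarith
      have h1 : (w : ℝ) * τ ≤ 4 * v * a := by exact_mod_cast ha2
      have h3 := expo_caseA (W := (W : ℝ)) (τ := (τ : ℝ)) (L := (Fintype.card L : ℝ)) htn haR hw0R hwR
        hvR (by positivity) (by positivity) hD0 hlg0 h1 h2 hLv hR1
      refine le_trans ?_ h3
      apply mul_le_mul_of_nonneg_right _ (by positivity)
      exact mul_le_mul_of_nonneg_right huW hlg0
    · have hw0e : w0 = w ^ (n + 2 - t) / (2 * 4 ^ (n + 2) * (a ^ n * w)) := by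
        rw [hw0d]; exact min_eq_right h
      have h2 : (w : ℝ) ^ (n + 2 - t) ≤ 4 * 4 ^ (n + 2) * ((a : ℝ) ^ n * w) * w0 := by
        have := nat_div_half hden hK
        rw [← hw0e] at this
        push_cast at this
        linarith
      exact expo_caseB haR hw0R hwR hD0 hlg0 (by positivity) (by exact_mod_cast hc4) h2 hR2
  have hkey2 : (u : ℝ) * lg * 2 ≤ p * Fintype.card L := by
    rw [hp, div_mul_eq_mul_div, le_div_iff₀ (by positivity)]
    calc (u : ℝ) * lg * 2 * (4 * D * (w : ℝ) ^ (n + 2 - t)) =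
        (u : ℝ) * lg * (8 * D * (w : ℝ) ^ (n + 2 - t)) := by ring
      _ ≤ _ := hkey
  have hkey3 : p * Fintype.card L ≤ p * (2 * (Good ρ c).card) :=
    mul_le_mul_of_nonneg_left hgood hp0
  nlinarith

/-- The host theorem. -/
theorem host_theorem {ρ : L → Q → X} (hvar : HostVar ρ) {t n : ℕ} {B : Finset (Finset Q)}
    (hB : Steiner t (n + 2) B) (htn : t ≤ n + 1) (τ umax a : ℕ)
    (hX : 0 < Fintype.card X) (h16 : 16 ≤ Fintype.card Q) (hkw : 4 * (n + 2) ≤ Fintype.card Q)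
    (hτ : 16 * (n + 1) * Fintype.card X ≤ Fintype.card Q * τ)
    (hu : 4 * umax ≤ Fintype.card X) (ha1 : 1 ≤ a)
    (ha : 2 * Fintype.card X * a ≤ Fintype.card Q * τ)
    (ha2 : Fintype.card Q * τ ≤ 4 * Fintype.card X * a)
    (hK : 2 * 4 ^ (n + 2) * (a ^ n * Fintype.card Q) ≤ Fintype.card Q ^ (n + 2 - t))
    (hLv : (Fintype.card X : ℝ) ^ t ≤ Fintype.card L * (Fintype.card Q : ℝ) ^ t)
    (hR1 : 32 * 4 ^ n * (2 * (n + 2 : ℝ)) ^ t * (n + 1) * (Fintype.card X : ℝ) ^ (n + 1 - t) *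
      Real.log (4 * (n + 3) * Fintype.card X) ≤ (τ : ℝ) ^ n)
    (hR2 : 32 * 4 ^ (n + 2) * (2 * (n + 2 : ℝ)) ^ t * umax *
      Real.log (4 * (n + 3) * Fintype.card X) ≤ Fintype.card L) :
    ∃ π : L → Equiv.Perm Q, ∀ c : X → Option (Idx n), Valid τ umax c →
      ∃ l, ∃ b ∈ B, ∀ j : Idx n, ∃ x ∈ b, c (ρ l (π l x)) = some j := by
  classical
  have hτ0 : 0 < τ := by
    rcases Nat.eq_zero_or_pos τ with h | h
    · rw [h] at hτ
      have : 0 < 16 * (n + 1) * Fintype.card X := by positivity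
      omega
    · exact h
  obtain ⟨π, hπ⟩ := union_bound (Ω := Equiv.Perm Q) (some none : Option (Idx n))
    (univ.filter (fun c : X → Option (Idx n) => Valid τ umax c))
    (fun l c => FailSet B (fun s => c (ρ l s))) hX
    (by
      intro c hc
      exact config_fail hvar hB htn τ umax a hX h16 hkw hτ hu ha1 ha ha2 hK hLv hR1 hR2 c
        (mem_filter.mp hc).2)
    (by
      intro c hc
      obtain ⟨h1, h2, h3, h4⟩ := (mem_filter.mp hc).2
      obtain ⟨x, hx⟩ := card_pos.mp (lt_of_lt_of_le hτ0 h2)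
      refine ⟨x, ?_⟩
      rw [(mem_filter.mp hx).2]
      intro h
      have := Option.some.inj h
      exact absurd this (by simp))
  refine ⟨π, fun c hc => ?_⟩
  obtain ⟨l, hl⟩ := hπ c (mem_filter.mpr ⟨mem_univ _, hc⟩)
  refine ⟨l, ?_⟩
  simpa [FailSet] using hl

end Pool.Agent.Work.MP_b59edb_co
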