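import Pool.Agent.Work.MP_b59edb_co.Host

set_option autoImplicit false

/-!
The host theorem: existence of relabellings such that every admissible configuration has a block
meeting all its classes.
-/

namespace Pool.Agent.Work.MP_b59edb_co

open Finset

/-- number of points of the line `l` in `T` -/
def NN {X Q L : Type*} [Fintype Q] [DecidableEq X] (ρ : L → Q → X) (l : L) (T : Finset X) : ℕ :=
  (univ.filter (fun s => ρ l s ∈ T)).card

section

variable {X Q L : Type*} [Fintype X] [Fintype Q] [Fintype L] [DecidableEq X] [DecidableEq Q]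
  [DecidableEq L]

/-- Variance hypothesis for the host. -/
def HostVar (ρ : L → Q → X) : Prop :=
  ∀ T : Finset X, ∑ l : L, ((NN ρ l T : ℝ) - Fintype.card Q * T.card / Fintype.card X) ^ 2 ≤
    (Fintype.card L * Fintype.card Q / Fintype.card X) * T.card

lemma bad_low {ρ : L → Q → X} (hvar : HostVar ρ) (T : Finset X) (hX : 0 < Fintype.card X)
    (hQ : 0 < Fintype.card Q) (hT : 0 < T.card) :
    ((univ.filter (fun l : L => 2 * Fintype.card X * NN ρ l T < Fintype.card Q * T.card)).card : ℝ) *
      (Fintype.card Q * T.card) ≤ 4 * Fintype.card L * Fintype.card X := by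
  obtain ⟨v, hv⟩ : ∃ v : ℝ, v = Fintype.card X := ⟨_, rfl⟩
  obtain ⟨w, hw⟩ : ∃ w : ℝ, w = Fintype.card Q := ⟨_, rfl⟩
  obtain ⟨m, hm⟩ : ∃ m : ℝ, m = T.card := ⟨_, rfl⟩
  have hv0 : 0 < v := by rw [hv]; exact_mod_cast hX
  have hw0 : 0 < w := by rw [hw]; exact_mod_cast hQ
  have hm0 : 0 < m := by rw [hm]; exact_mod_cast hT
  have h1 := hvar T
  set S := univ.filter (fun l : L => 2 * Fintype.card X * NN ρ l T < Fintype.card Q * T.card) with hS
  have h2 : (S.card : ℝ) * (w * m / (2 * v)) ^ 2 ≤
      ∑ l : L, ((NN ρ l T : ℝ) - Fintype.card Q * T.card / Fintype.card X) ^ 2 := by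
    rw [← nsmul_eq_mul, ← sum_const]
    refine le_trans (sum_le_sum ?_) (sum_le_sum_of_subset_of_nonneg (subset_univ S)
      (fun l _ _ => sq_nonneg _))
    intro l hl
    have h3 := (mem_filter.mp hl).2
    have h4 : 2 * v * (NN ρ l T : ℝ) < w * m := by
      rw [hv, hw, hm]; exact_mod_cast h3
    rw [← hv, ← hw, ← hm]
    have h5 : (NN ρ l T : ℝ) < w * m / (2 * v) := by
      rw [lt_div_iff₀ (by positivity)]; linarith
    have h6 : w * m / v = 2 * (w * m / (2 * v)) := by field_simp
    rw [h6]
    have h7 : 0 ≤ (NN ρ l T : ℝ) := by positivity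
    have h8 : 0 < w * m / (2 * v) := by positivity
    nlinarith
  rw [← hv, ← hw, ← hm] at *
  have h3 : (S.card : ℝ) * (w * m / (2 * v)) ^ 2 ≤ (Fintype.card L * w / v) * m := h2.trans h1
  have h4 : (S.card : ℝ) * (w * m / (2 * v)) ^ 2 = ((S.card : ℝ) * (w * m)) * (w * m / (4 * v ^ 2)) := by
    field_simp; ring
  have h5 : (Fintype.card L * w / v) * m = (4 * Fintype.card L * v) * (w * m / (4 * v ^ 2)) := by
    field_simp
  rw [h4, h5] at h3
  exact le_of_mul_le_mul_right h3 (by positivity)

lemma bad_high {ρ : L → Q → X} (hvar : HostVar ρ) (U : Finset X) (hX : 0 < Fintype.card X)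
    (hQ : 0 < Fintype.card Q) (hU : 4 * U.card ≤ Fintype.card X) :
    ((univ.filter (fun l : L => Fintype.card Q < 2 * NN ρ l U)).card : ℝ) * Fintype.card Q ≤
      4 * Fintype.card L := by
  obtain ⟨v, hv⟩ : ∃ v : ℝ, v = Fintype.card X := ⟨_, rfl⟩
  obtain ⟨w, hw⟩ : ∃ w : ℝ, w = Fintype.card Q := ⟨_, rfl⟩
  obtain ⟨m, hm⟩ : ∃ m : ℝ, m = U.card := ⟨_, rfl⟩
  have hv0 : 0 < v := by rw [hv]; exact_mod_cast hX
  have hw0 : 0 < w := by rw [hw]; exact_mod_cast hQ
  have hm0 : 0 ≤ m := by rw [hm]; positivity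
  have hmv : 4 * m ≤ v := by rw [hm, hv]; exact_mod_cast hU
  have h1 := hvar U
  set S := univ.filter (fun l : L => Fintype.card Q < 2 * NN ρ l U) with hS
  have hmu : w * m / v ≤ w / 4 := by
    rw [div_le_div_iff₀ hv0 (by norm_num)]
    nlinarith
  have h2 : (S.card : ℝ) * (w / 4) ^ 2 ≤
      ∑ l : L, ((NN ρ l U : ℝ) - Fintype.card Q * U.card / Fintype.card X) ^ 2 := by
    rw [← nsmul_eq_mul, ← sum_const]
    refine le_trans (sum_le_sum ?_) (sum_le_sum_of_subset_of_nonneg (subset_univ S)
      (fun l _ _ => sq_nonneg _))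
    intro l hl
    have h3 := (mem_filter.mp hl).2
    have h4 : w < 2 * (NN ρ l U : ℝ) := by
      rw [hw]; exact_mod_cast h3
    rw [← hv, ← hw, ← hm]
    apply pow_le_pow_left₀ (by positivity)
    linarith
  rw [← hv, ← hw, ← hm] at *
  have h3 : (S.card : ℝ) * (w / 4) ^ 2 ≤ (Fintype.card L * w / v) * m := h2.trans h1
  have h4 : (Fintype.card L * w / v) * m = Fintype.card L * (w * m / v) := by ring
  have h5 : (Fintype.card L : ℝ) * (w * m / v) ≤ Fintype.card L * (w / 4) :=
    mul_le_mul_of_nonneg_left hmu (by positivity)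
  rw [h4] at h3
  have h6 := h3.trans h5
  have h7 : ((S.card : ℝ) * w) * (w / 16) ≤ (4 * Fintype.card L) * (w / 16) := by nlinarith
  exact le_of_mul_le_mul_right h7 (by positivity)

/-- the label set of a configuration -/
def cls {n : ℕ} (c : X → Option (Idx n)) (j : Idx n) : Finset X :=
  univ.filter (fun x => c x = some j)

/-- the complement of the outside class -/
def inU {n : ℕ} (c : X → Option (Idx n)) : Finset X :=
  univ.filter (fun x => c x ≠ some none)

/-- Valid configurations. -/
def Valid {n : ℕ} (τ umax : ℕ) (c : X → Option (Idx n)) : Prop :=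
  (∀ i : Fin n, τ ≤ (cls c (some (some i))).card) ∧ τ ≤ (cls c (some none)).card ∧
    (inU c).card ≤ (n + 1) * (cls c (some none)).card ∧ (inU c).card ≤ umax

/-- Good lines for a configuration. -/
def Good {n : ℕ} (ρ : L → Q → X) (c : X → Option (Idx n)) : Finset L :=
  univ.filter (fun l =>
    (∀ j : Option (Fin n), Fintype.card Q * (cls c (some j)).card ≤
      2 * Fintype.card X * NN ρ l (cls c (some j))) ∧
    2 * NN ρ l (inU c) ≤ Fintype.card Q)

lemma good_count {n : ℕ} {ρ : L → Q → X} (hvar : HostVar ρ) {τ umax : ℕ}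
    {c : X → Option (Idx n)} (hc : Valid τ umax c) (hX : 0 < Fintype.card X)
    (hw : 16 ≤ Fintype.card Q) (hτ : 16 * (n + 1) * Fintype.card X ≤ Fintype.card Q * τ)
    (hu : 4 * umax ≤ Fintype.card X) :
    (Fintype.card L : ℝ) ≤ 2 * (Good ρ c).card := by
  classical
  obtain ⟨hc1, hc2, hc3, hc4⟩ := hc
  have hQ : 0 < Fintype.card Q := by omega
  have hτ0 : 0 < τ := by
    rcases Nat.eq_zero_or_pos τ with h | h
    · rw [h] at hτ
      have : 0 < 16 * (n + 1) * Fintype.card X := by positivity
      omega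
    · exact h
  have hcls : ∀ j : Option (Fin n), τ ≤ (cls c (some j)).card := by
    intro j
    match j with
    | none => exact hc2
    | some i => exact hc1 i
  let bad : Option (Fin n) → Finset L := fun j => univ.filter (fun l : L =>
    2 * Fintype.card X * NN ρ l (cls c (some j)) < Fintype.card Q * (cls c (some j)).card)
  let badU : Finset L := univ.filter (fun l : L => Fintype.card Q < 2 * NN ρ l (inU c))
  have hcover : (univ : Finset L) ⊆ Good ρ c ∪ ((univ.biUnion bad) ∪ badU) := by
    intro l _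
    by_cases hg : l ∈ Good ρ c
    · exact mem_union_left _ hg
    · apply mem_union_right
      simp only [Good, mem_filter, mem_univ, true_and, not_and_or, not_forall, not_le] at hg
      rcases hg with ⟨j, hj⟩ | h
      · apply mem_union_left
        rw [mem_biUnion]
        exact ⟨j, mem_univ _, mem_filter.mpr ⟨mem_univ _, hj⟩⟩
      · apply mem_union_right
        exact mem_filter.mpr ⟨mem_univ _, h⟩
  have h1 : (Fintype.card L : ℝ) ≤ (Good ρ c).card + (∑ j, ((bad j).card : ℝ)) + badU.card := by
    have e1 := card_le_card hcover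
    rw [card_univ] at e1
    have e2 : (Good ρ c ∪ ((univ.biUnion bad) ∪ badU)).card ≤
        (Good ρ c).card + ((∑ j, (bad j).card) + badU.card) := by
      refine (card_union_le _ _).trans (Nat.add_le_add_left ?_ _)
      exact (card_union_le _ _).trans (Nat.add_le_add_right card_biUnion_le _)
    have e3 := e1.trans e2
    have e4 : (Fintype.card L : ℝ) ≤ (((Good ρ c).card + ((∑ j, (bad j).card) + badU.card) : ℕ) : ℝ) := by
      exact_mod_cast e3
    push_cast at e4
    linarith
  have hL0 : (0 : ℝ) ≤ Fintype.card L := by positivity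
  have hbad : ∀ j, ((bad j).card : ℝ) * (4 * (n + 1)) ≤ Fintype.card L := by
    intro j
    have h2 := bad_low hvar (cls c (some j)) hX hQ (lt_of_lt_of_le hτ0 (hcls j))
    have h3 : (16 * (n + 1) * Fintype.card X : ℝ) ≤ Fintype.card Q * (cls c (some j)).card := by
      have : 16 * (n + 1) * Fintype.card X ≤ Fintype.card Q * (cls c (some j)).card :=
        hτ.trans (Nat.mul_le_mul_left _ (hcls j))
      exact_mod_cast this
    have hX0 : (0 : ℝ) < Fintype.card X := by exact_mod_cast hX
    have h4 : ((bad j).card : ℝ) * (16 * (n + 1) * Fintype.card X) ≤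
        4 * Fintype.card L * Fintype.card X :=
      (mul_le_mul_of_nonneg_left h3 (by positivity)).trans h2
    have h5 : (((bad j).card : ℝ) * (4 * (n + 1))) * (4 * Fintype.card X) ≤
        Fintype.card L * (4 * Fintype.card X) := by linarith
    exact le_of_mul_le_mul_right h5 (by positivity)
  have hsum : (∑ j, ((bad j).card : ℝ)) * 4 ≤ Fintype.card L := by
    have hn : (0 : ℝ) < n + 1 := by positivity
    have h2 : ∀ j, ((bad j).card : ℝ) ≤ Fintype.card L / (4 * (n + 1)) := by
      intro j
      rw [le_div_iff₀ (by positivity)]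
      exact hbad j
    have h3 := Finset.sum_le_sum (s := univ) (fun j (_ : j ∈ univ) => h2 j)
    rw [sum_const, card_univ, nsmul_eq_mul] at h3
    have h4 : (Fintype.card (Option (Fin n)) : ℝ) = n + 1 := by simp
    rw [h4] at h3
    have h5 : ((n : ℝ) + 1) * (Fintype.card L / (4 * (n + 1))) = Fintype.card L / 4 := by
      field_simp
    rw [h5] at h3
    linarith
  have hU : (badU.card : ℝ) * 4 ≤ Fintype.card L := by
    have h2 := bad_high hvar (inU c) hX hQ (by omega)
    have h3 : (16 : ℝ) ≤ Fintype.card Q := by exact_mod_cast hw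
    have h4 : (badU.card : ℝ) * 16 ≤ badU.card * Fintype.card Q :=
      mul_le_mul_of_nonneg_left h3 (by positivity)
    linarith
  linarith

end

end Pool.Agent.Work.MP_b59edb_co
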