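import Mathlib

set_option autoImplicit false

/-!
Second moment for translates of cosets of a multiplicative subgroup of a finite field.
-/

namespace Pool.Agent.Work.MP_b59edb_co

open Finset

variable {F : Type*} [Field F] [Fintype F] [DecidableEq F]
variable {A : Type*} [CommGroup A] [Fintype A] [DecidableEq A]

/-- number of points of `Y` in the translate `x + C_a`. -/
def cnt (χ : Fˣ →* A) (Y : Finset F) (a : A) (x : F) : ℕ :=
  (univ.filter (fun u : Fˣ => χ u = a ∧ x + u ∈ Y)).card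

/-- indicator of `Y` -/
def ind (Y : Finset F) (x : F) : ℝ := if x ∈ Y then 1 else 0

lemma cnt_eq (χ : Fˣ →* A) (Y : Finset F) (a : A) (x : F) :
    (cnt χ Y a x : ℝ) = ∑ u ∈ univ.filter (fun u : Fˣ => χ u = a), ind Y (x + u) := by
  unfold cnt ind
  rw [sum_boole, filter_filter]

lemma sum_ind (Y : Finset F) : ∑ x, ind Y x = Y.card := by
  unfold ind
  rw [sum_boole, filter_mem_eq_inter, univ_inter]

lemma sum_units_eq (f : F → ℝ) : ∑ u : Fˣ, f u = ∑ x, f x - f 0 := by
  have h1 : ∑ x : F, f x = f 0 + ∑ x ∈ univ.erase (0 : F), f x := (add_sum_erase univ f (mem_univ 0)).symm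
  have h2 : ∑ x ∈ univ.erase (0 : F), f x = ∑ u : Fˣ, f u := by
    symm
    apply sum_bij (fun (u : Fˣ) _ => (u : F))
    · intro u _; rw [mem_erase]; exact ⟨u.ne_zero, mem_univ _⟩
    · intro u _ u' _ h; exact Units.ext h
    · intro x hx
      rw [mem_erase] at hx
      exact ⟨Units.mk0 x hx.1, mem_univ _, rfl⟩
    · intro u _; rfl
  rw [h1, h2]; ring

lemma sum_shift (f : F → ℝ) (a : F) : ∑ x, f (x + a) = ∑ x, f x :=
  Equiv.sum_comp (Equiv.addRight a) f

/-- correlation for `g ≠ 1`. -/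
lemma corr_ne (Y : Finset F) (g : Fˣ) (hg : g ≠ 1) :
    ∑ x, ∑ u : Fˣ, ind Y (x + g * u) * ind Y (x + u) = (Y.card : ℝ) ^ 2 - Y.card := by
  rw [sum_comm]
  have h1 : ∀ u : Fˣ, ∑ x, ind Y (x + g * u) * ind Y (x + u) =
      ∑ y, ind Y (y + ((g : F) - 1) * u) * ind Y y := by
    intro u
    rw [← sum_shift (fun y => ind Y (y + ((g : F) - 1) * u) * ind Y y) (u : F)]
    apply sum_congr rfl
    intro x _
    congr 2
    ring
  simp only [h1]
  rw [sum_comm]
  have hg' : (g : F) - 1 ≠ 0 := by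
    intro h
    apply hg
    apply Units.ext
    rw [Units.val_one]
    exact sub_eq_zero.mp h
  have h2 : ∀ y : F, ∑ u : Fˣ, ind Y (y + ((g : F) - 1) * u) * ind Y y =
      ((Y.card : ℝ) - ind Y y) * ind Y y := by
    intro y
    rw [← sum_mul]
    congr 1
    have e1 : ∑ u : Fˣ, ind Y (y + ((g : F) - 1) * u) = ∑ u : Fˣ, ind Y (y + u) := by
      have := Equiv.sum_comp (Equiv.mulLeft (Units.mk0 ((g : F) - 1) hg'))
        (fun u : Fˣ => ind Y (y + u))
      rw [← this]
      apply sum_congr rfl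
      intro u _
      simp
    rw [e1, sum_units_eq (fun z => ind Y (y + z))]
    have e2 : ∑ z, ind Y (y + z) = Y.card := by
      rw [← sum_ind Y, ← sum_shift (fun z => ind Y z) y]
      apply sum_congr rfl
      intro z _
      rw [add_comm]
    rw [e2, add_zero]
  simp only [h2]
  have h3 : ∀ y : F, ((Y.card : ℝ) - ind Y y) * ind Y y = Y.card * ind Y y - ind Y y := by
    intro y
    unfold ind
    split_ifs <;> ring
  simp only [h3]
  rw [sum_sub_distrib, ← mul_sum, sum_ind]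
  ring

lemma corr_one (Y : Finset F) :
    ∑ x, ∑ u : Fˣ, ind Y (x + (1 : Fˣ) * u) * ind Y (x + u) =
      ((Fintype.card F : ℝ) - 1) * Y.card := by
  rw [sum_comm]
  have h1 : ∀ u : Fˣ, ∑ x, ind Y (x + ((1 : Fˣ) : F) * u) * ind Y (x + u) = Y.card := by
    intro u
    rw [← sum_ind Y, ← sum_shift (fun z => ind Y z) (u : F)]
    apply sum_congr rfl
    intro x _
    rw [Units.val_one, one_mul]
    unfold ind
    split_ifs <;> simp
  simp only [h1]
  rw [sum_const, card_univ, nsmul_eq_mul]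
  congr 1
  have := sum_units_eq (F := F) (fun _ => (1 : ℝ))
  simpa using this

/-- exact second moment -/
lemma second_moment (χ : Fˣ →* A) (Y : Finset F) :
    ∑ a : A, ∑ x, (cnt χ Y a x : ℝ) ^ 2 = ((Fintype.card F : ℝ) - 1) * Y.card +
      (((univ.filter (fun g : Fˣ => χ g = 1)).card : ℝ) - 1) * ((Y.card : ℝ) ^ 2 - Y.card) := by
  have h1 : ∀ x : F, ∑ a : A, (cnt χ Y a x : ℝ) ^ 2 =
      ∑ g ∈ univ.filter (fun g : Fˣ => χ g = 1), ∑ u : Fˣ, ind Y (x + g * u) * ind Y (x + u) := by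
    intro x
    have e1 : ∀ a : A, (cnt χ Y a x : ℝ) ^ 2 =
        ∑ u ∈ univ.filter (fun u : Fˣ => χ u = a),
          ind Y (x + u) * ∑ u' ∈ univ.filter (fun u' : Fˣ => χ u' = a), ind Y (x + u') := by
      intro a
      rw [pow_two, cnt_eq, sum_mul]
    simp only [e1]
    have e2 : ∑ a : A, ∑ u ∈ univ.filter (fun u : Fˣ => χ u = a),
          ind Y (x + u) * ∑ u' ∈ univ.filter (fun u' : Fˣ => χ u' = a), ind Y (x + u') =
        ∑ u : Fˣ, ind Y (x + u) * ∑ u' ∈ univ.filter (fun u' : Fˣ => χ u' = χ u), ind Y (x + u') := by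
      rw [← sum_fiberwise univ (fun u : Fˣ => χ u)]
      apply sum_congr rfl
      intro a _
      apply sum_congr rfl
      intro u hu
      rw [(mem_filter.mp hu).2]
    rw [e2, sum_comm]
    apply sum_congr rfl
    intro u _
    rw [mul_sum]
    symm
    apply sum_bij (fun (g : Fˣ) _ => g * u)
    · intro g hg
      simp only [mem_filter, mem_univ, true_and] at hg ⊢
      rw [map_mul, hg, one_mul]
    · intro g _ g' _ h; exact mul_right_cancel h
    · intro u' hu'
      refine ⟨u' * u⁻¹, ?_, by simp⟩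
      simp only [mem_filter, mem_univ, true_and] at hu' ⊢
      rw [map_mul, map_inv, hu', mul_inv_cancel]
    · intro g _
      rw [Units.val_mul]; ring
  rw [sum_comm]
  simp only [h1]
  rw [sum_comm]
  have hmem : (1 : Fˣ) ∈ univ.filter (fun g : Fˣ => χ g = 1) := by simp
  rw [← add_sum_erase _ _ hmem, corr_one]
  congr 1
  rw [sum_congr rfl (fun g hg => corr_ne Y g (mem_erase.mp hg).1), sum_const, card_erase_of_mem hmem,
    nsmul_eq_mul, Nat.cast_sub (card_pos.mpr ⟨1, hmem⟩)]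
  push_cast
  ring

lemma first_moment (χ : Fˣ →* A) (Y : Finset F) :
    ∑ a : A, ∑ x, (cnt χ Y a x : ℝ) = ((Fintype.card F : ℝ) - 1) * Y.card := by
  rw [sum_comm]
  have h1 : ∀ x : F, ∑ a : A, (cnt χ Y a x : ℝ) = ∑ u : Fˣ, ind Y (x + u) := by
    intro x
    simp only [cnt_eq]
    exact sum_fiberwise univ (fun u : Fˣ => χ u) _
  simp only [h1]
  rw [sum_comm]
  simp only [sum_shift (fun z => ind Y z), sum_ind]
  rw [sum_const, card_univ, nsmul_eq_mul]
  congr 1
  have := sum_units_eq (F := F) (fun _ => (1 : ℝ))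
  simpa using this

/-- kernel size -/
lemma ker_card (χ : Fˣ →* A) (hχ : Function.Surjective χ) :
    ((univ.filter (fun g : Fˣ => χ g = 1)).card : ℝ) * Fintype.card A = (Fintype.card F : ℝ) - 1 := by
  have h1 : ∀ a : A, (univ.filter (fun g : Fˣ => χ g = a)).card =
      (univ.filter (fun g : Fˣ => χ g = 1)).card := fun a =>
    MonoidHom.card_fiber_eq_of_mem_range χ (hχ a) (hχ 1)
  have h2 : ∑ a : A, ((univ.filter (fun g : Fˣ => χ g = a)).card : ℝ) = (Fintype.card Fˣ : ℝ) := by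
    have := Finset.card_eq_sum_card_fiberwise (s := (univ : Finset Fˣ)) (t := (univ : Finset A))
      (f := χ) (fun x _ => mem_univ _)
    rw [card_univ] at this
    rw [this]
    push_cast
    rfl
  simp only [h1] at h2
  rw [sum_const, card_univ, nsmul_eq_mul] at h2
  have h3 := sum_units_eq (F := F) (fun _ => (1 : ℝ))
  simp at h3
  rw [mul_comm, h2, h3]

/-- variance bound -/
lemma variance_le (χ : Fˣ →* A) (hχ : Function.Surjective χ) (Y : Finset F) (a : A) :
    ∑ x, ((cnt χ Y a x : ℝ) - Y.card * ((univ.filter (fun g : Fˣ => χ g = 1)).card : ℝ) /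
      Fintype.card F) ^ 2 ≤ Fintype.card F * Y.card := by
  obtain ⟨q, hq⟩ : ∃ q : ℝ, q = Fintype.card F := ⟨_, rfl⟩
  obtain ⟨h, hh⟩ : ∃ h : ℝ, h = ((univ.filter (fun g : Fˣ => χ g = 1)).card : ℝ) := ⟨_, rfl⟩
  obtain ⟨e, he⟩ : ∃ e : ℝ, e = Fintype.card A := ⟨_, rfl⟩
  obtain ⟨y, hy⟩ : ∃ y : ℝ, y = Y.card := ⟨_, rfl⟩
  have hq1 : 1 ≤ q := by
    rw [hq]
    have : 1 ≤ Fintype.card F := Fintype.card_pos
    exact_mod_cast this
  have hq0 : 0 < q := by linarith
  have hker := ker_card χ hχ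
  have h2 := second_moment χ Y
  have h1 := first_moment χ Y
  rw [← hh, ← he, ← hq] at hker
  rw [← hh, ← hq, ← hy] at h2
  rw [← hq, ← hy] at h1
  rw [← hh, ← hq, ← hy]
  have hh0 : 0 ≤ h := by rw [hh]; positivity
  have hy0 : 0 ≤ y := by rw [hy]; positivity
  have he0 : 1 ≤ e := by
    rw [he]
    have : 1 ≤ Fintype.card A := Fintype.card_pos
    exact_mod_cast this
  have hhq : h ≤ q := by nlinarith
  have hsingle : ∑ x, ((cnt χ Y a x : ℝ) - y * h / q) ^ 2 ≤
      ∑ b : A, ∑ x, ((cnt χ Y b x : ℝ) - y * h / q) ^ 2 :=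
    single_le_sum (f := fun b : A => ∑ x, ((cnt χ Y b x : ℝ) - y * h / q) ^ 2)
      (fun b _ => sum_nonneg (fun x _ => sq_nonneg _)) (mem_univ a)
  refine hsingle.trans ?_
  have hexp : ∑ b : A, ∑ x, ((cnt χ Y b x : ℝ) - y * h / q) ^ 2 =
      ∑ b : A, ∑ x, (cnt χ Y b x : ℝ) ^ 2 - 2 * (y * h / q) * ∑ b : A, ∑ x, (cnt χ Y b x : ℝ) +
        e * (q * (y * h / q) ^ 2) := by
    have e1 : ∀ b : A, ∀ x, ((cnt χ Y b x : ℝ) - y * h / q) ^ 2 =
        (cnt χ Y b x : ℝ) ^ 2 - 2 * (y * h / q) * (cnt χ Y b x : ℝ) + (y * h / q) ^ 2 := by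
      intro b x; ring
    simp only [e1, sum_add_distrib, sum_sub_distrib, ← mul_sum, sum_const, card_univ, nsmul_eq_mul]
    rw [← he, ← hq]
    ring
  rw [hexp, h1, h2]
  have hfin : ((q - 1) * y + (h - 1) * (y ^ 2 - y)) - 2 * (y * h / q) * ((q - 1) * y) +
      e * (q * (y * h / q) ^ 2) = (q - h) * y - y ^ 2 * (1 - h / q) := by
    have : e * (q * (y * h / q) ^ 2) = (h * e) * (y ^ 2 * h / q) := by field_simp
    rw [this, hker]
    field_simp
    ring
  rw [hfin]
  have h3 : h / q ≤ 1 := by rw [div_le_one hq0]; exact hhq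
  nlinarith [sq_nonneg y, mul_nonneg hh0 hy0, mul_nonneg (sq_nonneg y) (sub_nonneg.mpr h3)]

end Pool.Agent.Work.MP_b59edb_co
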