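import Pool.Agent.Work.MP_b59edb_co.PermCount
import Pool.Agent.Work.MP_b59edb_co.Steiner

set_option autoImplicit false

/-!
The one-line lemma: a random relabelling of a Steiner system has, with not too small probability,
a block meeting each of `k` given pairwise disjoint sets.
-/

namespace Pool.Agent.Work.MP_b59edb_co

open Finset

/-- Bonferroni-type inequality. -/
lemma bonferroni {Ω ι : Type*} [Fintype Ω] [DecidableEq Ω] [DecidableEq ι] (s : Finset ι)
    (E : ι → Finset Ω)
    (h : ∀ i ∈ s, ∑ j ∈ s.erase i, ((E i ∩ E j).card : ℝ) ≤ (E i).card) :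
    ∑ i ∈ s, ((E i).card : ℝ) ≤ 2 * ((s.biUnion E).card : ℝ) := by
  classical
  -- X ω = number of i with ω ∈ E i
  let X : Ω → ℕ := fun ω => (s.filter (fun i => ω ∈ E i)).card
  have h1 : ∑ i ∈ s, ((E i).card : ℝ) = ∑ ω : Ω, (X ω : ℝ) := by
    simp only [X, card_filter, Nat.cast_sum]
    rw [sum_comm]
    apply sum_congr rfl
    intro i _
    rw [← Nat.cast_sum, ← card_filter]
    congr 2
    ext ω
    simp
  have h2 : ∑ i ∈ s, ∑ j ∈ s, ((E i ∩ E j).card : ℝ) = ∑ ω : Ω, ((X ω : ℝ) ^ 2) := by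
    have : ∀ ω : Ω, ((X ω : ℝ) ^ 2) = ∑ i ∈ s, ∑ j ∈ s, if (ω ∈ E i ∩ E j) then (1 : ℝ) else 0 := by
      intro ω
      have e1 : (X ω : ℝ) = ∑ i ∈ s, if ω ∈ E i then (1 : ℝ) else 0 := by
        simp only [X, card_filter, Nat.cast_sum, Nat.cast_ite, Nat.cast_one, Nat.cast_zero]
      rw [e1, pow_two, sum_mul_sum]
      apply sum_congr rfl
      intro i _
      apply sum_congr rfl
      intro j _
      by_cases hi : ω ∈ E i <;> by_cases hj : ω ∈ E j <;> simp [hi, hj]
    simp only [this]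
    symm
    rw [sum_comm]
    apply sum_congr rfl
    intro i _
    rw [sum_comm]
    apply sum_congr rfl
    intro j _
    rw [sum_ite_mem, univ_inter, sum_const, nsmul_eq_mul, mul_one]
  have h3 : ((s.biUnion E).card : ℝ) = ∑ ω : Ω, if 0 < X ω then (1 : ℝ) else 0 := by
    have : s.biUnion E = univ.filter (fun ω => 0 < X ω) := by
      ext ω
      simp only [mem_biUnion, mem_filter, mem_univ, true_and, X, card_pos, Finset.Nonempty,
        mem_filter]
    rw [this, card_filter]
    push_cast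
    rfl
  have h4 : ∀ ω : Ω, 3 * (X ω : ℝ) ≤ 2 * (if 0 < X ω then (1 : ℝ) else 0) + (X ω : ℝ) ^ 2 := by
    intro ω
    rcases Nat.eq_zero_or_pos (X ω) with h0 | h0
    · simp [h0]
    · rw [if_pos h0]
      rcases Nat.lt_or_ge 1 (X ω) with h5 | h5
      · have : (2 : ℝ) ≤ (X ω : ℝ) := by exact_mod_cast h5
        nlinarith
      · have : X ω = 1 := by omega
        rw [this]; norm_num
  have h5 : 3 * ∑ ω : Ω, (X ω : ℝ) ≤ 2 * ((s.biUnion E).card : ℝ) + ∑ ω : Ω, ((X ω : ℝ) ^ 2) := by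
    rw [h3, mul_sum, mul_sum, ← sum_add_distrib]
    exact sum_le_sum (fun ω _ => h4 ω)
  have h6 : ∑ i ∈ s, ∑ j ∈ s, ((E i ∩ E j).card : ℝ) ≤ 2 * ∑ i ∈ s, ((E i).card : ℝ) := by
    rw [mul_sum]
    apply sum_le_sum
    intro i hi
    rw [← add_sum_erase s _ hi, inter_self]
    have := h i hi
    linarith
  rw [← h1, ← h2] at h5
  linarith

variable {Q : Type*} [Fintype Q] [DecidableEq Q]

/-- Event that the ordered block `β` is sent into the sets `A i`. -/
def Ev {k : ℕ} (β : Fin k → Q) (A : Fin k → Finset Q) : Finset (Equiv.Perm Q) :=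
  univ.filter (fun π => ∀ i, π (β i) ∈ A i)

/-- the target set of a point of the block -/
noncomputable def Dom {k : ℕ} (β : Fin k → Q) (A : Fin k → Finset Q) (x : Q) : Finset Q :=
  (univ.filter (fun i => β i = x)).biUnion A

lemma dom_apply {k : ℕ} {β : Fin k → Q} (hβ : Function.Injective β) (A : Fin k → Finset Q)
    (i : Fin k) : Dom β A (β i) = A i := by
  unfold Dom
  have : univ.filter (fun j => β j = β i) = {i} := by
    ext j; simp [hβ.eq_iff]
  rw [this, singleton_biUnion]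

lemma ev_eq {k : ℕ} {β : Fin k → Q} (hβ : Function.Injective β) (A : Fin k → Finset Q) :
    Ev β A = univ.filter (fun π : Equiv.Perm Q => ∀ x ∈ univ.image β, π x ∈ Dom β A x) := by
  ext π
  simp only [Ev, mem_filter, mem_univ, true_and, mem_image, forall_exists_index,
    forall_apply_eq_imp_iff, dom_apply hβ]

lemma card_ev {k : ℕ} {β : Fin k → Q} (hβ : Function.Injective β) (A : Fin k → Finset Q)
    (hA : ∀ i j, i ≠ j → Disjoint (A i) (A j)) :
    (Ev β A).card = (∏ i, (A i).card) * (Fintype.card Q - k).factorial := by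
  rw [ev_eq hβ, card_constrained_eq]
  · rw [prod_image (fun i _ j _ h => hβ h), card_image_of_injective _ hβ, card_univ,
      Fintype.card_fin]
    congr 1
    exact prod_congr rfl (fun i _ => by rw [dom_apply hβ])
  · intro x hx y hy hxy
    obtain ⟨i, -, rfl⟩ := mem_image.mp hx
    obtain ⟨j, -, rfl⟩ := mem_image.mp hy
    rw [dom_apply hβ, dom_apply hβ]
    exact hA i j (fun h => hxy (by rw [h]))

lemma card_ev_inter_le {k : ℕ} {β β' : Fin k → Q} (hβ : Function.Injective β)
    (hβ' : Function.Injective β') (A : Fin k → Finset Q) (hpos : ∀ i, 1 ≤ (A i).card) :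
    (Ev β A ∩ Ev β' A).card ≤ (∏ i, (A i).card) ^ 2 *
      (Fintype.card Q - (2 * k - (univ.image β ∩ univ.image β').card)).factorial := by
  set S := univ.image β with hS
  set S' := univ.image β' with hS'
  let D : Q → Finset Q := fun x => if x ∈ S then Dom β A x else Dom β' A x
  have h1 : Ev β A ∩ Ev β' A ⊆ univ.filter (fun π : Equiv.Perm Q => ∀ x ∈ S ∪ S', π x ∈ D x) := by
    intro π hπ
    obtain ⟨h2, h3⟩ := mem_inter.mp hπ
    rw [ev_eq hβ] at h2
    rw [ev_eq hβ'] at h3
    simp only [mem_filter, mem_univ, true_and] at h2 h3 ⊢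
    intro x hx
    by_cases hxS : x ∈ S
    · simp only [D, hxS, if_true]; exact h2 x hxS
    · simp only [D, hxS, if_false]
      exact h3 x ((mem_union.mp hx).resolve_left hxS)
  refine (card_le_card h1).trans ((card_constrained_le (S ∪ S') D).trans ?_)
  have hcS : S.card = k := by rw [hS, card_image_of_injective _ hβ, card_univ, Fintype.card_fin]
  have hcS' : S'.card = k := by rw [hS', card_image_of_injective _ hβ', card_univ, Fintype.card_fin]
  have hun : (S ∪ S').card = 2 * k - (S ∩ S').card := by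
    have := card_union_add_card_inter S S'
    omega
  rw [hun]
  apply Nat.mul_le_mul_right
  have hsplit : S ∪ S' = S ∪ (S' \ S) := by
    ext x; simp
  rw [hsplit, prod_union disjoint_sdiff, pow_two]
  apply Nat.mul_le_mul
  · apply le_of_eq
    rw [prod_congr rfl (g := fun x => (Dom β A x).card)]
    · rw [hS, prod_image (fun i _ j _ h => hβ h)]
      exact prod_congr rfl (fun i _ => by rw [dom_apply hβ])
    · intro x hx
      simp only [D, hx, if_true]
  · have e1 : ∏ x ∈ S' \ S, (D x).card = ∏ x ∈ S' \ S, (Dom β' A x).card := by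
      apply prod_congr rfl
      intro x hx
      simp only [D, (mem_sdiff.mp hx).2, if_false]
    rw [e1]
    have e2 : ∏ x ∈ S', (Dom β' A x).card = ∏ i, (A i).card := by
      rw [hS', prod_image (fun i _ j _ h => hβ' h)]
      exact prod_congr rfl (fun i _ => by rw [dom_apply hβ'])
    rw [← e2]
    apply prod_le_prod_of_subset_of_one_le' sdiff_subset
    intro x hx _
    obtain ⟨i, -, rfl⟩ := mem_image.mp hx
    rw [dom_apply hβ']
    exact hpos i

/-- Factorial estimate. -/
lemma factorial_estimate {w k i : ℕ} (hw : 4 * k ≤ w) (hik : i ≤ k) :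
    (w - (2 * k - i)).factorial * w ^ (k - i) ≤ 2 ^ (k - i) * (w - k).factorial := by
  have h1 : w - (2 * k - i) ≤ w - k := by omega
  have h2 := Nat.factorial_mul_pow_sub_le_factorial h1
  have h3 : w - k - (w - (2 * k - i)) = k - i := by omega
  rw [h3] at h2
  have h4 : w ≤ 2 * (w - (2 * k - i)) := by omega
  calc (w - (2 * k - i)).factorial * w ^ (k - i)
      ≤ (w - (2 * k - i)).factorial * (2 * (w - (2 * k - i))) ^ (k - i) :=
        Nat.mul_le_mul_left _ (Nat.pow_le_pow_left h4 _)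
    _ = 2 ^ (k - i) * ((w - (2 * k - i)).factorial * (w - (2 * k - i)) ^ (k - i)) := by
        rw [mul_pow]; ring
    _ ≤ 2 ^ (k - i) * (w - k).factorial := Nat.mul_le_mul_left _ h2

/-- Real estimate used in the one-line lemma. -/
lemma term_bound {k t i : ℕ} (hit : i < t) (htk : t ≤ k) {w M f F N : ℝ} (hw : 0 < w) (hM : 0 < M)
    (hf : 0 ≤ f) (hF : 0 ≤ F) (hN : N ≤ 2 ^ k * w ^ (t - i))
    (e3 : f * w ^ (k - i) ≤ 2 ^ (k - i) * F) (e4 : 2 * 4 ^ k * M ≤ w ^ (k - t)) :
    N * (M ^ 2 * f) ≤ (M * F) * (1 / 2) ^ (i + 1) := by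
  have hpk : (0 : ℝ) < w ^ (k - t) := by positivity
  have e5 : w ^ (t - i) * w ^ (k - t) = w ^ (k - i) := by
    rw [← pow_add]; congr 1; omega
  have e6 : (2 : ℝ) ^ k * 2 ^ (k - i) = 4 ^ k * (1 / 2) ^ i := by
    have h1 : (2 : ℝ) ^ (k - i) * 2 ^ i = 2 ^ k := by
      rw [← pow_add]; congr 1; omega
    have h4 : (4 : ℝ) ^ k = 2 ^ k * 2 ^ k := by
      rw [← mul_pow]; norm_num
    have h5 : (2 : ℝ) ^ i * (1 / 2) ^ i = 1 := by
      rw [← mul_pow]; norm_num
    calc (2 : ℝ) ^ k * 2 ^ (k - i) = 2 ^ k * 2 ^ (k - i) * (2 ^ i * (1 / 2) ^ i) := by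
          rw [h5, mul_one]
      _ = 2 ^ k * (2 ^ (k - i) * 2 ^ i) * (1 / 2) ^ i := by ring
      _ = 4 ^ k * (1 / 2) ^ i := by rw [h1, h4]
  refine (mul_le_mul_of_nonneg_right hN (by positivity)).trans ?_
  rw [← mul_le_mul_iff_left₀ hpk]
  calc 2 ^ k * w ^ (t - i) * (M ^ 2 * f) * w ^ (k - t)
      = 2 ^ k * M ^ 2 * (f * (w ^ (t - i) * w ^ (k - t))) := by ring
    _ = 2 ^ k * M ^ 2 * (f * w ^ (k - i)) := by rw [e5]
    _ ≤ 2 ^ k * M ^ 2 * (2 ^ (k - i) * F) := mul_le_mul_of_nonneg_left e3 (by positivity)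
    _ = (2 ^ k * 2 ^ (k - i)) * (M * (M * F)) := by ring
    _ = (4 ^ k * (1 / 2) ^ i) * (M * (M * F)) := by rw [e6]
    _ = (M * F) * (1 / 2) ^ (i + 1) * (2 * 4 ^ k * M) := by
        rw [pow_succ]; ring
    _ ≤ (M * F) * (1 / 2) ^ (i + 1) * w ^ (k - t) :=
        mul_le_mul_of_nonneg_left e4 (by positivity)

lemma geo_sum (t : ℕ) : ∑ i ∈ range t, ((1 : ℝ) / 2) ^ (i + 1) ≤ 1 := by
  have : ∀ t : ℕ, ∑ i ∈ range t, ((1 : ℝ) / 2) ^ (i + 1) = 1 - (1 / 2) ^ t := by
    intro t
    induction t with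
    | zero => simp
    | succ n ih => rw [sum_range_succ, ih, pow_succ]; ring
  rw [this]
  have : (0 : ℝ) < (1 / 2) ^ t := by positivity
  linarith

/-- One-line lemma. -/
lemma one_line {t k : ℕ} {B : Finset (Finset Q)} (hB : Steiner t k B) (htk : t ≤ k)
    (A : Fin k → Finset Q) (hA : ∀ i j, i ≠ j → Disjoint (A i) (A j))
    (hpos : ∀ i, 1 ≤ (A i).card) (hk : 1 ≤ k) (hw : 4 * k ≤ Fintype.card Q)
    (hM : 2 * 4 ^ k * ∏ i, (A i).card ≤ (Fintype.card Q) ^ (k - t)) :
    B.card * ((∏ i, (A i).card) * (Fintype.card Q - k).factorial) ≤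
      2 * (univ.filter (fun π : Equiv.Perm Q => ∃ b ∈ B, ∀ i, ∃ x ∈ b, π x ∈ A i)).card := by
  classical
  obtain ⟨w, hwdef⟩ : ∃ w, w = Fintype.card Q := ⟨_, rfl⟩
  obtain ⟨M, hMdef⟩ : ∃ M, M = ∏ i, (A i).card := ⟨_, rfl⟩
  rw [← hwdef] at hw hM ⊢
  rw [← hMdef] at hM ⊢
  have hM1 : 1 ≤ M := by
    rw [hMdef]; exact Finset.one_le_prod' (fun i _ => hpos i)
  have hM0 : (0 : ℝ) < M := by exact_mod_cast hM1
  have hw0 : (0 : ℝ) < w := by
    have : 0 < w := by omega
    exact_mod_cast this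
  have e4 : 2 * 4 ^ k * (M : ℝ) ≤ (w : ℝ) ^ (k - t) := by exact_mod_cast hM
  -- orderings of blocks
  have hord : ∀ b ∈ B, ∃ β : Fin k → Q, Function.Injective β ∧ univ.image β = b := by
    intro b hb
    have hc := hB.1 b hb
    let e : Fin k ≃ b := (b.equivFinOfCardEq hc).symm
    refine ⟨fun i => (e i : Q), fun i j h => e.injective (Subtype.ext h), ?_⟩
    ext x
    simp only [mem_image, mem_univ, true_and]
    constructor
    · rintro ⟨i, rfl⟩; exact (e i).2
    · intro hx; exact ⟨e.symm ⟨x, hx⟩, by simp⟩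
  have : Nonempty (Fin k → Q) := ⟨fun i => (card_pos.mp (hpos i)).choose⟩
  choose! β hβ using hord
  have hcard : ∀ b ∈ B, ((Ev (β b) A).card : ℝ) = M * (w - k).factorial := by
    intro b hb
    rw [card_ev (hβ b hb).1 A hA, ← hwdef, ← hMdef]; push_cast; rfl
  have hbon := bonferroni B (fun b => Ev (β b) A) (by
    intro b hb
    rw [hcard b hb]
    -- bound each intersection
    have hint : ∀ b' ∈ B.erase b, ((Ev (β b) A ∩ Ev (β b') A).card : ℝ) ≤
        (M : ℝ) ^ 2 * (w - (2 * k - (b ∩ b').card)).factorial := by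
      intro b' hb'
      obtain ⟨hne, hb'B⟩ := mem_erase.mp hb'
      have := card_ev_inter_le (hβ b hb).1 (hβ b' hb'B).1 A hpos
      rw [(hβ b hb).2, (hβ b' hb'B).2, ← hwdef, ← hMdef] at this
      exact_mod_cast this
    refine (sum_le_sum hint).trans ?_
    -- group by intersection size
    have hgroup : ∑ b' ∈ B.erase b, (M : ℝ) ^ 2 * (w - (2 * k - (b ∩ b').card)).factorial =
        ∑ i ∈ range t, ∑ b' ∈ (B.erase b).filter (fun b' => (b ∩ b').card = i),
          (M : ℝ) ^ 2 * (w - (2 * k - (b ∩ b').card)).factorial := by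
      rw [sum_fiberwise_of_maps_to]
      intro b' hb'
      obtain ⟨hne, hb'B⟩ := mem_erase.mp hb'
      rw [mem_range]
      exact card_inter_lt hB hb hb'B hne.symm
    rw [hgroup]
    have hterm : ∀ i ∈ range t, ∑ b' ∈ (B.erase b).filter (fun b' => (b ∩ b').card = i),
          (M : ℝ) ^ 2 * (w - (2 * k - (b ∩ b').card)).factorial ≤
        (M * (w - k).factorial) * (1 / 2) ^ (i + 1) := by
      intro i hi
      have hit : i < t := mem_range.mp hi
      have e1 : ∑ b' ∈ (B.erase b).filter (fun b' => (b ∩ b').card = i),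
          (M : ℝ) ^ 2 * (w - (2 * k - (b ∩ b').card)).factorial =
          ((B.erase b).filter (fun b' => (b ∩ b').card = i)).card *
            ((M : ℝ) ^ 2 * (w - (2 * k - i)).factorial) := by
        rw [← nsmul_eq_mul, ← sum_const]
        apply sum_congr rfl
        intro b' hb'
        rw [(mem_filter.mp hb').2]
      rw [e1]
      have e2 : (((B.erase b).filter (fun b' => (b ∩ b').card = i)).card : ℝ) ≤
          2 ^ k * (w : ℝ) ^ (t - i) := by
        have h1 : ((B.erase b).filter (fun b' => (b ∩ b').card = i)).card ≤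
            2 ^ k * w ^ (t - i) := by
          rw [hwdef]
          refine (card_le_card ?_).trans (card_blocks_meeting_le hB htk hb i hit.le)
          exact filter_subset_filter _ (erase_subset _ _)
        exact_mod_cast h1
      have e3 : ((w - (2 * k - i)).factorial : ℝ) * (w : ℝ) ^ (k - i) ≤
          2 ^ (k - i) * (w - k).factorial := by
        exact_mod_cast factorial_estimate hw (by omega : i ≤ k)
      exact term_bound hit htk hw0 hM0 (by positivity) (by positivity) e2 e3 e4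
    refine (sum_le_sum hterm).trans ?_
    rw [← mul_sum]
    exact mul_le_of_le_one_right (by positivity) (geo_sum t))
  have hsum : ∑ b ∈ B, ((Ev (β b) A).card : ℝ) = B.card * (M * (w - k).factorial) := by
    rw [← nsmul_eq_mul, ← sum_const]
    exact sum_congr rfl hcard
  rw [hsum] at hbon
  have hsub : B.biUnion (fun b => Ev (β b) A) ⊆
      univ.filter (fun π : Equiv.Perm Q => ∃ b ∈ B, ∀ i, ∃ x ∈ b, π x ∈ A i) := by
    intro π hπ
    obtain ⟨b, hb, hπb⟩ := mem_biUnion.mp hπ
    rw [mem_filter]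
    refine ⟨mem_univ _, b, hb, ?_⟩
    intro i
    refine ⟨β b i, ?_, (mem_filter.mp hπb).2 i⟩
    have h6 : β b i ∈ univ.image (β b) := mem_image_of_mem _ (mem_univ _)
    rwa [(hβ b hb).2] at h6
  have h7 := card_le_card hsub
  have h8 : ((B.biUnion (fun b => Ev (β b) A)).card : ℝ) ≤
      ((univ.filter (fun π : Equiv.Perm Q => ∃ b ∈ B, ∀ i, ∃ x ∈ b, π x ∈ A i)).card : ℝ) := by
    exact_mod_cast h7
  have h9 : (B.card : ℝ) * (M * (w - k).factorial) ≤
      2 * ((univ.filter (fun π : Equiv.Perm Q => ∃ b ∈ B, ∀ i, ∃ x ∈ b, π x ∈ A i)).card : ℝ) := by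
    linarith
  exact_mod_cast h9

end Pool.Agent.Work.MP_b59edb_co
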