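import Mathlib

set_option autoImplicit false

/-!
Counting permutations with prescribed constraints.
-/

namespace Pool.Agent.Work.MP_b59edb_co

open Finset

variable {Q : Type*} [Fintype Q] [DecidableEq Q]

/-- Permutations fixing `S` pointwise. -/
lemma card_fix (S : Finset Q) :
    (univ.filter (fun π : Equiv.Perm Q => ∀ x ∈ S, π x = x)).card =
      (Fintype.card Q - S.card).factorial := by
  have h1 := Fintype.card_congr (Equiv.Perm.subtypeEquivSubtypePerm (fun x : Q => x ∉ S))
  rw [Fintype.card_perm] at h1
  have h2 : Fintype.card {x : Q // x ∉ S} = Fintype.card Q - S.card := by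
    rw [Fintype.card_subtype_compl, Fintype.card_coe]
  rw [h2, Fintype.card_subtype] at h1
  rw [h1]
  congr 1
  ext π
  simp

/-- Permutations with prescribed values on `S`. -/
lemma card_prescribed_le (S : Finset Q) (g : Q → Q) :
    (univ.filter (fun π : Equiv.Perm Q => ∀ x ∈ S, π x = g x)).card ≤
      (Fintype.card Q - S.card).factorial := by
  rcases (univ.filter (fun π : Equiv.Perm Q => ∀ x ∈ S, π x = g x)).eq_empty_or_nonempty with h | h
  · rw [h, card_empty]; exact Nat.zero_le _
  · obtain ⟨σ, hσ⟩ := h
    rw [← card_fix S]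
    refine card_le_card_of_injOn (fun π => σ⁻¹ * π) ?_ ?_
    · intro π hπ
      simp only [coe_filter, mem_univ, true_and, Set.mem_ofPred_eq, mem_filter] at hπ hσ ⊢
      intro x hx
      rw [Equiv.Perm.mul_apply, hπ x hx, ← hσ x hx]; simp
    · intro π _ π' _ h
      exact mul_left_cancel h

lemma card_prescribed_eq (S : Finset Q) (g : Q → Q) (hg : Set.InjOn g S) :
    (univ.filter (fun π : Equiv.Perm Q => ∀ x ∈ S, π x = g x)).card =
      (Fintype.card Q - S.card).factorial := by
  apply le_antisymm (card_prescribed_le S g)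
  obtain ⟨e, he⟩ := Finset.exists_equiv_extend_of_card_eq (α := Q) (t := (univ : Finset Q))
    (by simp) (s := S) (f := g) (subset_univ _) hg
  let σ : Equiv.Perm Q := e.trans (Equiv.subtypeUnivEquiv (fun x => mem_univ x))
  have hσ : ∀ x ∈ S, σ x = g x := fun x hx => he x hx
  rw [← card_fix S]
  refine card_le_card_of_injOn (fun π => σ * π) ?_ ?_
  · intro π hπ
    simp only [coe_filter, mem_univ, true_and, Set.mem_ofPred_eq] at hπ ⊢
    intro x hx
    rw [Equiv.Perm.mul_apply, hπ x hx, hσ x hx]
  · intro π _ π' _ h
    exact mul_left_cancel h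

/-- Upper bound for permutations with `π x ∈ D x` for `x ∈ S`. -/
lemma card_constrained_le (S : Finset Q) (D : Q → Finset Q) :
    (univ.filter (fun π : Equiv.Perm Q => ∀ x ∈ S, π x ∈ D x)).card ≤
      (∏ x ∈ S, (D x).card) * (Fintype.card Q - S.card).factorial := by
  have h1 : (∏ x ∈ S, (D x).card) = (S.pi D).card := (card_pi S D).symm
  rw [h1, mul_comm]
  have h2 := Finset.card_le_mul_card_image_of_maps_to
    (s := univ.filter (fun π : Equiv.Perm Q => ∀ x ∈ S, π x ∈ D x)) (t := S.pi D)
    (f := fun π => fun x _ => π x)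
    (by
      intro π hπ
      rw [mem_pi]
      intro x hx
      exact (mem_filter.mp hπ).2 x hx) ((Fintype.card Q - S.card).factorial)
    (by
      intro f hf
      let g : Q → Q := fun x => if h : x ∈ S then f x h else x
      refine (card_le_card ?_).trans (card_prescribed_le S g)
      intro π hπ
      simp only [mem_filter, mem_univ, true_and] at hπ ⊢
      intro x hx
      have := congrFun (congrFun hπ.2 x) hx
      simp only [g, hx, dif_pos]
      exact this)
  exact h2

/-- Exact count when the target sets are pairwise disjoint. -/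
lemma card_constrained_eq (S : Finset Q) (D : Q → Finset Q)
    (hD : ∀ x ∈ S, ∀ y ∈ S, x ≠ y → Disjoint (D x) (D y)) :
    (univ.filter (fun π : Equiv.Perm Q => ∀ x ∈ S, π x ∈ D x)).card =
      (∏ x ∈ S, (D x).card) * (Fintype.card Q - S.card).factorial := by
  have h1 : (∏ x ∈ S, (D x).card) = (S.pi D).card := (card_pi S D).symm
  rw [h1]
  have h2 := Finset.card_eq_sum_card_fiberwise
    (s := univ.filter (fun π : Equiv.Perm Q => ∀ x ∈ S, π x ∈ D x)) (t := S.pi D)
    (f := fun π => fun x _ => π x)
    (by
      intro π hπ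
      rw [mem_coe, mem_pi]
      intro x hx
      exact (mem_filter.mp (mem_coe.mp hπ)).2 x hx)
  rw [h2, Finset.sum_const_nat (m := (Fintype.card Q - S.card).factorial)]
  intro f hf
  rw [mem_pi] at hf
  let g : Q → Q := fun x => if h : x ∈ S then f x h else x
  have hg : Set.InjOn g S := by
    intro x hx y hy hxy
    by_contra hne
    have hx' : x ∈ S := hx
    have hy' : y ∈ S := hy
    have h3 : g x ∈ D x := by simp only [g, hx', dif_pos]; exact hf x hx'
    have h4 : g y ∈ D y := by simp only [g, hy', dif_pos]; exact hf y hy'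
    rw [← hxy] at h4
    exact (disjoint_left.mp (hD x hx' y hy' hne)) h3 h4
  rw [← card_prescribed_eq S g hg]
  congr 1
  ext π
  simp only [mem_filter, mem_univ, true_and]
  constructor
  · rintro ⟨h5, h6⟩ x hx
    have := congrFun (congrFun h6 x) hx
    simp only [g, hx, dif_pos]
    exact this
  · intro h5
    refine ⟨?_, ?_⟩
    · intro x hx
      rw [h5 x hx]
      simp only [g, hx, dif_pos]
      exact hf x hx
    · funext x hx
      rw [h5 x hx]
      simp only [g, hx, dif_pos]

end Pool.Agent.Work.MP_b59edb_co
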