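import Pool.Agent.Work.MP_b59edb_co.HostMain
import Pool.Agent.Work.MP_b59edb_co.Cyclo

set_option autoImplicit false

/-!
The affine plane as a host, and composition of Steiner systems.
-/

namespace Pool.Agent.Work.MP_b59edb_co

open Finset

/-- Composition of a host system with relabelled copies of a Steiner system. -/
def comp {X Q L : Type*} [Fintype L] [DecidableEq X] [DecidableEq Q]
    (ρ : L → Q → X) (π : L → Equiv.Perm Q) (B : Finset (Finset Q)) : Finset (Finset X) :=
  univ.biUnion (fun l => B.image (fun b => b.image (fun s => ρ l (π l s))))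

lemma steiner_comp {X Q L : Type*} [Fintype Q] [Fintype L] [DecidableEq X] [DecidableEq Q]
    {t k : ℕ} (ρ : L → Q → X) (hinj : ∀ l, Function.Injective (ρ l))
    (hhost : ∀ T : Finset X, T.card = t → ∃! l, ∀ x ∈ T, ∃ s, ρ l s = x)
    (π : L → Equiv.Perm Q) {B : Finset (Finset Q)} (hB : Steiner t k B) :
    Steiner t k (comp ρ π B) := by
  have hinj' : ∀ l, Function.Injective (fun s => ρ l (π l s)) := fun l =>
    (hinj l).comp (π l).injective
  refine ⟨?_, ?_⟩
  · intro c hc
    obtain ⟨l, -, hc⟩ := mem_biUnion.mp hc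
    obtain ⟨b, hb, rfl⟩ := mem_image.mp hc
    rw [card_image_of_injective _ (hinj' l)]
    exact hB.1 b hb
  · intro T hT
    obtain ⟨l, hl, hluniq⟩ := hhost T hT
    let T' : Finset Q := univ.filter (fun s => ρ l (π l s) ∈ T)
    have himg : T'.image (fun s => ρ l (π l s)) = T := by
      ext x
      simp only [T', mem_image, mem_filter, mem_univ, true_and]
      constructor
      · rintro ⟨s, hs, rfl⟩; exact hs
      · intro hx
        obtain ⟨s, hs⟩ := hl x hx
        refine ⟨(π l).symm s, ?_, ?_⟩ <;> simp [hs, hx]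
    have hT' : T'.card = t := by
      rw [← hT, ← himg, card_image_of_injective _ (hinj' l)]
    obtain ⟨b, ⟨hb1, hb2⟩, hbuniq⟩ := hB.2 T' hT'
    refine ⟨b.image (fun s => ρ l (π l s)), ⟨?_, ?_⟩, ?_⟩
    · exact mem_biUnion.mpr ⟨l, mem_univ _, mem_image.mpr ⟨b, hb1, rfl⟩⟩
    · rw [← himg]; exact image_subset_image hb2
    · rintro c ⟨hc1, hc2⟩
      obtain ⟨l', -, hc1⟩ := mem_biUnion.mp hc1
      obtain ⟨b', hb', rfl⟩ := mem_image.mp hc1
      have hll : l' = l := by
        apply hluniq
        intro x hx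
        obtain ⟨s, _, hs⟩ := mem_image.mp (hc2 hx)
        exact ⟨_, hs⟩
      subst hll
      have hbb : b' = b := by
        apply hbuniq
        refine ⟨hb', ?_⟩
        intro s hs
        have h1 : ρ l' (π l' s) ∈ T := (mem_filter.mp hs).2
        obtain ⟨s', hs', h2⟩ := mem_image.mp (hc2 h1)
        have := hinj' l' h2
        rwa [← this]
      rw [hbb]

section plane

variable (F : Type) [Field F] [Fintype F] [DecidableEq F]

/-- parametrised lines of the affine plane -/
def aline : (F × F) ⊕ F → F → F × F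
  | Sum.inl mc, s => (s, mc.1 * s + mc.2)
  | Sum.inr c, s => (c, s)

omit [Fintype F] [DecidableEq F] in
lemma aline_inj (l : (F × F) ⊕ F) : Function.Injective (aline F l) := by
  match l with
  | Sum.inl mc => intro s s' h; exact congrArg Prod.fst h
  | Sum.inr c => intro s s' h; exact congrArg Prod.snd h

omit [Fintype F] in
lemma aline_host (T : Finset (F × F)) (hT : T.card = 2) :
    ∃! l, ∀ x ∈ T, ∃ s, aline F l s = x := by
  obtain ⟨P, R, hPR, rfl⟩ := card_eq_two.mp hT
  by_cases h : P.1 = R.1
  · refine ⟨Sum.inr P.1, ?_, ?_⟩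
    · intro x hx
      rcases mem_insert.mp hx with rfl | hx
      · exact ⟨x.2, rfl⟩
      · rw [mem_singleton.mp hx]
        exact ⟨R.2, Prod.ext h rfl⟩
    · rintro (⟨m, c⟩ | c) hl
      · exfalso
        obtain ⟨s, hs⟩ := hl P (by simp)
        obtain ⟨s', hs'⟩ := hl R (by simp)
        apply hPR
        have e1 : s = P.1 := congrArg Prod.fst hs
        have e2 : s' = R.1 := congrArg Prod.fst hs'
        rw [← hs, ← hs', e1, e2, h]
      · obtain ⟨s, hs⟩ := hl P (by simp)
        have : c = P.1 := congrArg Prod.fst hs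
        rw [this]
  · have hne : R.1 - P.1 ≠ 0 := fun h' => h (sub_eq_zero.mp h').symm
    refine ⟨Sum.inl ((R.2 - P.2) / (R.1 - P.1), P.2 - (R.2 - P.2) / (R.1 - P.1) * P.1), ?_, ?_⟩
    · intro x hx
      rcases mem_insert.mp hx with rfl | hx
      · exact ⟨x.1, Prod.ext rfl (by simp [aline])⟩
      · rw [mem_singleton.mp hx]
        refine ⟨R.1, Prod.ext rfl ?_⟩
        simp only [aline]
        field_simp
        ring
    · rintro (⟨m, c⟩ | c) hl
      · obtain ⟨s, hs⟩ := hl P (by simp)
        obtain ⟨s', hs'⟩ := hl R (by simp)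
        have e1 : s = P.1 := congrArg Prod.fst hs
        have e2 : m * s + c = P.2 := congrArg Prod.snd hs
        have e3 : s' = R.1 := congrArg Prod.fst hs'
        have e4 : m * s' + c = R.2 := congrArg Prod.snd hs'
        rw [e1] at e2
        rw [e3] at e4
        have hm : m = (R.2 - P.2) / (R.1 - P.1) := by
          rw [eq_div_iff hne]; linear_combination e4 - e2
        have hc : c = P.2 - (R.2 - P.2) / (R.1 - P.1) * P.1 := by
          rw [← hm]; linear_combination e2
        rw [hm, ← hc, ← hm]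
      · exfalso
        obtain ⟨s, hs⟩ := hl P (by simp)
        obtain ⟨s', hs'⟩ := hl R (by simp)
        have e1 : c = P.1 := congrArg Prod.fst hs
        have e2 : c = R.1 := congrArg Prod.fst hs'
        exact h (e1.symm.trans e2)

/-- indicator in the plane -/
def ind2 (T : Finset (F × F)) (x : F × F) : ℝ := if x ∈ T then 1 else 0

omit [Field F] in
lemma sum_ind2 (T : Finset (F × F)) : ∑ s : F, ∑ y : F, ind2 F T (s, y) = T.card := by
  rw [← Fintype.sum_prod_type' (fun s y => ind2 F T (s, y))]
  unfold ind2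
  rw [sum_boole, filter_mem_eq_inter, univ_inter]

lemma nn_aline (T : Finset (F × F)) (l : (F × F) ⊕ F) :
    (NN (aline F) l T : ℝ) = ∑ s, ind2 F T (aline F l s) := by
  unfold NN ind2
  rw [sum_boole]

lemma ind2_sq (T : Finset (F × F)) (x : F × F) : ind2 F T x * ind2 F T x = ind2 F T x := by
  unfold ind2; split_ifs <;> simp

lemma first2 (T : Finset (F × F)) :
    ∑ l, (NN (aline F) l T : ℝ) = ((Fintype.card F : ℝ) + 1) * T.card := by
  simp only [nn_aline]
  rw [Fintype.sum_sum_type]
  have h1 : ∑ c : F, ∑ s, ind2 F T (aline F (Sum.inr c) s) = T.card := sum_ind2 F T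
  have h2 : ∑ mc : F × F, ∑ s, ind2 F T (aline F (Sum.inl mc) s) = Fintype.card F * T.card := by
    rw [Fintype.sum_prod_type]
    have : ∀ m : F, ∑ c : F, ∑ s, ind2 F T (aline F (Sum.inl (m, c)) s) = T.card := by
      intro m
      rw [sum_comm, ← sum_ind2 F T]
      apply sum_congr rfl
      intro s _
      simp only [aline]
      rw [← sum_shift (fun y => ind2 F T (s, y)) (m * s)]
      apply sum_congr rfl
      intro c _
      rw [add_comm]
    simp only [this]
    rw [sum_const, card_univ, nsmul_eq_mul]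
  rw [h1, h2]; ring

lemma second2 (T : Finset (F × F)) :
    ∑ l, (NN (aline F) l T : ℝ) ^ 2 = (T.card : ℝ) ^ 2 + Fintype.card F * T.card := by
  simp only [nn_aline]
  rw [Fintype.sum_sum_type, Fintype.sum_prod_type]
  -- column sums
  let tt : F → ℝ := fun s => ∑ y, ind2 F T (s, y)
  have htt : ∑ s, tt s = T.card := sum_ind2 F T
  have h1 : ∑ c : F, (∑ s, ind2 F T (aline F (Sum.inr c) s)) ^ 2 = ∑ s, tt s ^ 2 := rfl
  have h2 : ∑ m : F, ∑ c : F, (∑ s, ind2 F T (aline F (Sum.inl (m, c)) s)) ^ 2 =
      Fintype.card F * T.card + ((T.card : ℝ) ^ 2 - ∑ s, tt s ^ 2) := by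
    have e1 : ∀ m c : F, (∑ s, ind2 F T (aline F (Sum.inl (m, c)) s)) ^ 2 =
        ∑ s, ∑ s', ind2 F T (s, m * s + c) * ind2 F T (s', m * s' + c) := by
      intro m c
      rw [pow_two, sum_mul_sum]
      rfl
    simp only [e1]
    have e2 : ∀ m : F, ∑ c : F, ∑ s, ∑ s', ind2 F T (s, m * s + c) * ind2 F T (s', m * s' + c) =
        ∑ s, ∑ s', ∑ y, ind2 F T (s, y) * ind2 F T (s', y + m * (s' - s)) := by
      intro m
      rw [sum_comm]
      apply sum_congr rfl
      intro s _
      rw [sum_comm]
      apply sum_congr rfl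
      intro s' _
      rw [← sum_shift (fun y => ind2 F T (s, y) * ind2 F T (s', y + m * (s' - s))) (m * s)]
      apply sum_congr rfl
      intro c _
      congr 3
      · ring
      · ring
    simp only [e2]
    rw [sum_comm]
    have e3 : ∀ s : F, ∑ m : F, ∑ s', ∑ y, ind2 F T (s, y) * ind2 F T (s', y + m * (s' - s)) =
        Fintype.card F * tt s + (tt s * T.card - tt s ^ 2) := by
      intro s
      rw [sum_comm]
      rw [← add_sum_erase univ _ (mem_univ s)]
      congr 1
      · have : ∀ m : F, ∑ y, ind2 F T (s, y) * ind2 F T (s, y + m * (s - s)) = tt s := by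
          intro m
          apply sum_congr rfl
          intro y _
          rw [sub_self, mul_zero, add_zero, ind2_sq]
        simp only [this]
        rw [sum_const, card_univ, nsmul_eq_mul]
      · have : ∀ s' ∈ univ.erase s, ∑ m : F, ∑ y, ind2 F T (s, y) * ind2 F T (s', y + m * (s' - s)) =
            tt s * tt s' := by
          intro s' hs'
          have hne : s' - s ≠ 0 := sub_ne_zero.mpr (mem_erase.mp hs').1
          rw [sum_comm]
          simp only [tt]
          rw [sum_mul]
          apply sum_congr rfl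
          intro y _
          rw [← mul_sum]
          congr 1
          have := Equiv.sum_comp ((Equiv.mulRight₀ (s' - s) hne).trans (Equiv.addLeft y))
            (fun z => ind2 F T (s', z))
          rw [← this]
          rfl
        rw [sum_congr rfl this, ← mul_sum]
        have h3 := add_sum_erase univ tt (mem_univ s)
        rw [htt] at h3
        have h4 : ∑ s' ∈ univ.erase s, tt s' = T.card - tt s := by linarith
        rw [h4]; ring
    simp only [e3]
    rw [sum_add_distrib, sum_sub_distrib, ← mul_sum, ← sum_mul, htt]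
    ring
  rw [h1, h2]; ring

lemma aline_hostVar : HostVar (aline F) := by
  intro T
  obtain ⟨q, hq⟩ : ∃ q : ℝ, q = Fintype.card F := ⟨_, rfl⟩
  obtain ⟨y, hy⟩ : ∃ y : ℝ, y = T.card := ⟨_, rfl⟩
  have hq0 : 0 < q := by
    rw [hq]
    have : 0 < Fintype.card F := Fintype.card_pos
    exact_mod_cast this
  have h1 := first2 F T
  have h2 := second2 F T
  have hL : (Fintype.card ((F × F) ⊕ F) : ℝ) = q ^ 2 + q := by
    rw [Fintype.card_sum, Fintype.card_prod, hq]; push_cast; ring
  have hX : (Fintype.card (F × F) : ℝ) = q ^ 2 := by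
    rw [Fintype.card_prod, hq]; push_cast; ring
  rw [hL, hX]
  rw [← hq, ← hy] at h1 h2
  rw [← hq, ← hy]
  have hy0 : 0 ≤ y := by rw [hy]; positivity
  have hexp : ∑ l, ((NN (aline F) l T : ℝ) - q * y / q ^ 2) ^ 2 =
      ∑ l, (NN (aline F) l T : ℝ) ^ 2 - 2 * (q * y / q ^ 2) * ∑ l, (NN (aline F) l T : ℝ) +
        (q ^ 2 + q) * (q * y / q ^ 2) ^ 2 := by
    have e1 : ∀ l, ((NN (aline F) l T : ℝ) - q * y / q ^ 2) ^ 2 =
        (NN (aline F) l T : ℝ) ^ 2 - 2 * (q * y / q ^ 2) * (NN (aline F) l T : ℝ) +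
          (q * y / q ^ 2) ^ 2 := by intro l; ring
    simp only [e1, sum_add_distrib, sum_sub_distrib, ← mul_sum, sum_const, card_univ, nsmul_eq_mul]
    rw [hL]
  rw [hexp, h1, h2]
  have e2 : y ^ 2 + q * y - 2 * (q * y / q ^ 2) * ((q + 1) * y) +
      (q ^ 2 + q) * (q * y / q ^ 2) ^ 2 = q * y - y ^ 2 / q := by
    field_simp
    ring
  have e3 : (q ^ 2 + q) * q / q ^ 2 * y = (q + 1) * y := by field_simp
  rw [e2, e3]
  have : 0 ≤ y ^ 2 / q := by positivity
  nlinarith

end plane

end Pool.Agent.Work.MP_b59edb_co
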