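import Pool.Agent.Work.MP_b59edb_co.OneLine

set_option autoImplicit false

/-!
Union bound over configurations.
-/

namespace Pool.Agent.Work.MP_b59edb_co

open Finset

/-- Union bound. -/
lemma union_bound {X L Ω Y : Type*} [Fintype X] [Fintype L] [Fintype Ω] [Fintype Y]
    [DecidableEq X] [DecidableEq L] [DecidableEq Ω] [DecidableEq Y] [Nonempty Ω]
    (y0 : Y) (C : Finset (X → Y)) (Fail : L → (X → Y) → Finset Ω)
    (hX : 0 < Fintype.card X)
    (h : ∀ c ∈ C, (∏ l, ((Fail l c).card : ℝ)) ≤ (Fintype.card Ω : ℝ) ^ Fintype.card L *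
      (1 / (4 * (Fintype.card Y : ℝ) * Fintype.card X)) ^ (univ.filter (fun x => c x ≠ y0)).card)
    (hne : ∀ c ∈ C, ∃ x, c x ≠ y0) :
    ∃ π : L → Ω, ∀ c ∈ C, ∃ l, π l ∉ Fail l c := by
  classical
  by_contra hcon
  push Not at hcon
  obtain ⟨z, hz⟩ : ∃ z : ℝ, z = 1 / (4 * (Fintype.card Y : ℝ) * Fintype.card X) := ⟨_, rfl⟩
  rw [← hz] at h
  have hX0 : (0 : ℝ) < Fintype.card X := by exact_mod_cast hX
  have hY0 : (0 : ℝ) < Fintype.card Y := by
    have : 0 < Fintype.card Y := Fintype.card_pos_iff.mpr ⟨y0⟩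
    exact_mod_cast this
  have hz0 : 0 < z := by rw [hz]; positivity
  have h1 : (univ : Finset (L → Ω)) ⊆ C.biUnion (fun c => Fintype.piFinset (fun l => Fail l c)) := by
    intro π _
    obtain ⟨c, hc, hl⟩ := hcon π
    rw [mem_biUnion]
    exact ⟨c, hc, Fintype.mem_piFinset.mpr hl⟩
  have h2 := (card_le_card h1).trans card_biUnion_le
  simp only [Fintype.card_piFinset] at h2
  rw [card_univ, Fintype.card_fun] at h2
  have h3 : (Fintype.card Ω : ℝ) ^ Fintype.card L ≤ ∑ c ∈ C, ∏ l, ((Fail l c).card : ℝ) := by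
    exact_mod_cast h2
  -- weights
  let wt : (X → Y) → ℝ := fun c => ∏ x, if c x = y0 then (1 : ℝ) else z
  have hwt : ∀ c : X → Y, wt c = z ^ (univ.filter (fun x => c x ≠ y0)).card := by
    intro c
    simp only [wt]
    rw [prod_ite]
    simp
  have hwt0 : ∀ c, 0 ≤ wt c := fun c => by rw [hwt]; positivity
  have htotal : ∑ c : X → Y, wt c = (1 + (Fintype.card Y - 1) * z) ^ Fintype.card X := by
    have e1 : ∑ c : X → Y, wt c = ∏ _x : X, ∑ y : Y, (if y = y0 then (1 : ℝ) else z) := by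
      rw [prod_univ_sum]
      simp only [wt, Fintype.piFinset_univ]
    rw [e1, prod_const, card_univ]
    congr 1
    rw [sum_ite, sum_const, sum_const, filter_eq' univ y0, if_pos (mem_univ _), card_singleton]
    have : (univ.filter (fun y => ¬ y = y0)).card = Fintype.card Y - 1 := by
      rw [filter_not, filter_eq' univ y0, if_pos (mem_univ _), card_sdiff_of_subset (subset_univ _),
        card_univ, card_singleton]
    rw [this, nsmul_eq_mul, nsmul_eq_mul, Nat.cast_sub (Fintype.card_pos_iff.mpr ⟨y0⟩)]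
    push_cast
    ring
  have hconst : wt (fun _ => y0) = 1 := by simp [wt]
  have hsub : ∑ c ∈ C, wt c ≤ ∑ c : X → Y, wt c - 1 := by
    have e1 : ∑ c ∈ C, wt c ≤ ∑ c ∈ univ.erase (fun _ => y0), wt c := by
      apply sum_le_sum_of_subset_of_nonneg
      · intro c hc
        rw [mem_erase]
        refine ⟨?_, mem_univ _⟩
        intro heq
        obtain ⟨x, hx⟩ := hne c hc
        exact hx (by rw [heq])
      · intro c _ _; exact hwt0 c
    have e2 := add_sum_erase univ wt (mem_univ (fun _ : X => y0))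
    rw [hconst] at e2
    linarith
  have hexp : (1 + ((Fintype.card Y : ℝ) - 1) * z) ^ Fintype.card X < 2 := by
    have e1 : (1 + ((Fintype.card Y : ℝ) - 1) * z) ≤ Real.exp ((Fintype.card Y : ℝ) * z) := by
      have := Real.add_one_le_exp ((Fintype.card Y : ℝ) * z)
      nlinarith
    have e0 : 0 ≤ (1 + ((Fintype.card Y : ℝ) - 1) * z) := by
      have : (1 : ℝ) ≤ Fintype.card Y := by
        have : 1 ≤ Fintype.card Y := Fintype.card_pos_iff.mpr ⟨y0⟩
        exact_mod_cast this
      nlinarith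
    have e2 := pow_le_pow_left₀ e0 e1 (Fintype.card X)
    rw [← Real.exp_nat_mul] at e2
    have e3 : (Fintype.card X : ℝ) * ((Fintype.card Y : ℝ) * z) = 1 / 4 := by
      rw [hz]; field_simp
    rw [e3] at e2
    have e4 : Real.exp (1 / 4) < 2 := by
      have h5 : Real.exp (1 / 4) ≤ Real.exp (1/2) := Real.exp_le_exp.mpr (by norm_num)
      have h6 : Real.exp (1 / 2) ^ 2 = Real.exp 1 := by
        rw [← Real.exp_nat_mul]; norm_num
      have h7 := Real.exp_one_lt_d9
      have h8 : 0 < Real.exp (1 / 2) := Real.exp_pos _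
      nlinarith
    linarith
  have hΩ : (0 : ℝ) < (Fintype.card Ω : ℝ) ^ Fintype.card L := by
    have : 0 < Fintype.card Ω := Fintype.card_pos
    positivity
  have h4 : ∑ c ∈ C, ∏ l, ((Fail l c).card : ℝ) ≤
      (Fintype.card Ω : ℝ) ^ Fintype.card L * ∑ c ∈ C, wt c := by
    rw [mul_sum]
    apply sum_le_sum
    intro c hc
    rw [hwt]
    exact h c hc
  have h5 : ∑ c ∈ C, wt c < 1 := by
    rw [htotal] at hsub
    linarith
  have h6 := h3.trans h4
  nlinarith

end Pool.Agent.Work.MP_b59edb_co
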