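import Pool.Agent.Work.MP_b59edb_co.Colour
import Pool.Agent.Work.MP_b59edb_co.Defs

set_option autoImplicit false

/-!
Steiner systems `S(2,k,q^2)` in which every colouring with many colours has a rainbow block.
-/

namespace Pool.Agent.Work.MP_b59edb_co

open Finset

/-- A block meeting all classes of the configuration is rainbow. -/
lemma rainbow_of_config {X : Type*} [DecidableEq X] {n : ℕ} (φ : X → ℕ) (c : X → Option (Idx n))
    (hdist : ∀ x y : X, ∀ i j : Idx n, c x = some i → c y = some j → i ≠ j → φ x ≠ φ y)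
    (b : Finset X) (hb : b.card = n + 2) (hmeet : ∀ j : Idx n, ∃ x ∈ b, c x = some j) :
    ∀ x ∈ b, ∀ y ∈ b, x ≠ y → φ x ≠ φ y := by
  classical
  choose f hf using hmeet
  have hinj : Function.Injective f := by
    intro i j hij
    have h1 := (hf i).2
    have h2 := (hf j).2
    rw [hij, h2] at h1
    exact (Option.some.inj h1).symm
  have himg : univ.image f = b := by
    apply eq_of_subset_of_card_le
    · intro x hx
      obtain ⟨j, -, rfl⟩ := mem_image.mp hx
      exact (hf j).1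
    · rw [card_image_of_injective _ hinj, card_univ, card_idx, hb]
  intro x hx y hy hxy
  rw [← himg] at hx hy
  obtain ⟨i, -, rfl⟩ := mem_image.mp hx
  obtain ⟨j, -, rfl⟩ := mem_image.mp hy
  exact hdist _ _ i j (hf i).2 (hf j).2 (fun h => hxy (by rw [h]))

/-- Transport of a Steiner system along an equivalence. -/
lemma steiner_transport {X Y : Type*} [DecidableEq X] [DecidableEq Y] (e : X ≃ Y)
    {t k : ℕ} {B : Finset (Finset X)} (hB : Steiner t k B) :
    Steiner t k (B.image (fun b => b.image e)) := by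
  refine ⟨?_, ?_⟩
  · intro c hc
    obtain ⟨b, hb, rfl⟩ := mem_image.mp hc
    rw [card_image_of_injective _ e.injective]
    exact hB.1 b hb
  · intro T hT
    obtain ⟨b, ⟨hb1, hb2⟩, huniq⟩ := hB.2 (T.image e.symm)
      (by rw [card_image_of_injective _ e.symm.injective]; exact hT)
    have hback : ∀ S : Finset Y, (S.image e.symm).image e = S := by
      intro S; ext y; simp
    refine ⟨b.image e, ⟨mem_image.mpr ⟨b, hb1, rfl⟩, ?_⟩, ?_⟩
    · rw [← hback T]; exact image_subset_image hb2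
    · rintro c ⟨hc1, hc2⟩
      obtain ⟨b', hb', rfl⟩ := mem_image.mp hc1
      have : b' = b := by
        apply huniq
        refine ⟨hb', ?_⟩
        have h1 := image_subset_image (f := e.symm) hc2
        have h2 : (b'.image e).image e.symm = b' := by ext x; simp
        rwa [h2] at h1
      rw [this]

/-- For large primes `q`, under numerical conditions, there is an `S(2,n+2,q^2)` in which no proper
colouring uses many colours. -/
theorem exists_good_system {q : ℕ} [Fact q.Prime] {n : ℕ} (hn : 1 ≤ n)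
    {B : Finset (Finset (ZMod q))} (hB : Steiner 2 (n + 2) B) (τ umax a : ℕ)
    (h16 : 16 ≤ q) (hkw : 4 * (n + 2) ≤ q)
    (hτ : 16 * (n + 1) * q ≤ τ)
    (hu : 4 * umax ≤ q ^ 2) (ha1 : 1 ≤ a)
    (ha : 2 * q * a ≤ τ) (ha2 : τ ≤ 4 * q * a)
    (hK : 2 * 4 ^ (n + 2) * a ^ n * q ≤ q ^ n)
    (hR1 : 32 * 4 ^ n * (2 * (n + 2 : ℝ)) ^ 2 * (n + 1) * ((q : ℝ) ^ 2) ^ (n - 1) *
      Real.log (4 * (n + 3) * (q : ℝ) ^ 2) ≤ (τ : ℝ) ^ n)
    (hR2 : 32 * 4 ^ (n + 2) * (2 * (n + 2 : ℝ)) ^ 2 * umax *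
      Real.log (4 * (n + 3) * (q : ℝ) ^ 2) ≤ (q : ℝ) ^ 2 + q) :
    ∃ D : Finset (Finset (Fin (q ^ 2))), IsSteinerSystem 2 (n + 2) (q ^ 2) D ∧
      ∀ φ : Fin (q ^ 2) → ℕ, ProperColouring D φ →
        (univ.image φ).card < (n + 1) * τ ∨
          (univ.image φ).card * umax < (n + 1) * τ * q ^ 2 := by
  classical
  have hcQ : Fintype.card (ZMod q) = q := ZMod.card q
  have hcX : Fintype.card (ZMod q × ZMod q) = q ^ 2 := by
    rw [Fintype.card_prod, hcQ]; ring
  have hcL : Fintype.card ((ZMod q × ZMod q) ⊕ ZMod q) = q ^ 2 + q := by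
    rw [Fintype.card_sum, hcX, hcQ]
  have hq0 : 0 < q := by omega
  obtain ⟨π, hπ⟩ := host_theorem (aline_hostVar (ZMod q)) hB (by omega : 2 ≤ n + 1) τ umax a
    (by rw [hcX]; positivity) (by rw [hcQ]; exact h16) (by rw [hcQ]; exact hkw)
    (by
      rw [hcX, hcQ]
      calc 16 * (n + 1) * q ^ 2 = q * (16 * (n + 1) * q) := by ring
        _ ≤ q * τ := Nat.mul_le_mul_left _ hτ)
    (by rw [hcX]; exact hu) ha1
    (by
      rw [hcX, hcQ]
      calc 2 * q ^ 2 * a = q * (2 * q * a) := by ring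
        _ ≤ q * τ := Nat.mul_le_mul_left _ ha)
    (by
      rw [hcX, hcQ]
      calc q * τ ≤ q * (4 * q * a) := Nat.mul_le_mul_left _ ha2
        _ = 4 * q ^ 2 * a := by ring)
    (by
      rw [hcQ]
      have : n + 2 - 2 = n := by omega
      rw [this]
      calc 2 * 4 ^ (n + 2) * (a ^ n * q) = 2 * 4 ^ (n + 2) * a ^ n * q := by ring
        _ ≤ q ^ n := hK)
    (by
      rw [hcX, hcQ, hcL]
      push_cast
      have : (0 : ℝ) ≤ q := by positivity
      nlinarith [pow_nonneg this 3])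
    (by
      rw [hcX]
      push_cast
      exact hR1)
    (by
      rw [hcX, hcL]
      push_cast
      exact hR2)
  let D0 : Finset (Finset (ZMod q × ZMod q)) := comp (aline (ZMod q)) π B
  have hD0 : Steiner 2 (n + 2) D0 := steiner_comp (aline (ZMod q)) (aline_inj (ZMod q))
    (aline_host (ZMod q)) π hB
  let e : ZMod q × ZMod q ≃ Fin (q ^ 2) := Fintype.equivFinOfCardEq hcX
  obtain ⟨D, hD, hDmem⟩ : ∃ D : Finset (Finset (Fin (q ^ 2))), Steiner 2 (n + 2) D ∧
      ∀ b ∈ D0, b.image e ∈ D :=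
    ⟨_, steiner_transport e hD0, fun b hb => mem_image.mpr ⟨b, hb, rfl⟩⟩
  refine ⟨D, hD, ?_⟩
  intro φ hφ
  by_contra hcon
  push Not at hcon
  obtain ⟨h1, h2⟩ := hcon
  let ψ : ZMod q × ZMod q → ℕ := fun x => φ (e x)
  have himg : univ.image ψ = univ.image φ := by
    ext g
    simp only [mem_image, mem_univ, true_and, ψ]
    constructor
    · rintro ⟨x, hx⟩; exact ⟨e x, hx⟩
    · rintro ⟨y, hy⟩; exact ⟨e.symm y, by simpa using hy⟩
  obtain ⟨c, hc, hdist⟩ := exists_config ψ n τ umax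
    (by
      have : 1 ≤ 16 * (n + 1) * q := by nlinarith
      omega)
    (by rw [himg]; exact h1) (by rw [himg, hcX]; exact h2)
  obtain ⟨l, b, hb, hmeet⟩ := hπ c hc
  have hblock : b.image (fun s => aline (ZMod q) l (π l s)) ∈ D0 :=
    mem_biUnion.mpr ⟨l, mem_univ _, mem_image.mpr ⟨b, hb, rfl⟩⟩
  have hr := rainbow_of_config ψ c hdist (b.image (fun s => aline (ZMod q) l (π l s)))
    (hD0.1 _ hblock) (by
      intro j
      obtain ⟨x, hx, hx2⟩ := hmeet j
      exact ⟨_, mem_image.mpr ⟨x, hx, rfl⟩, hx2⟩)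
  obtain ⟨x, hx, y, hy, hxy, hcol⟩ := hφ _ (hDmem _ hblock)
  obtain ⟨x', hx', rfl⟩ := mem_image.mp hx
  obtain ⟨y', hy', rfl⟩ := mem_image.mp hy
  exact hr x' hx' y' hy' (fun h => hxy (by rw [h])) hcol

end Pool.Agent.Work.MP_b59edb_co
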